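import Pool.Agent.Helper75.Ekr.Struct

/-!
Vectors with prescribed signs under the double transpositions of disjoint 4-blocks, and their
translates under block permutations.
-/

namespace Pool.Agent.Helper75.Ekr

open Equiv Equiv.Perm

set_option linter.unusedSectionVars false
set_option linter.unusedSimpArgs false

variable {α : Type} [Fintype α] [DecidableEq α] {V : Type} [AddCommGroup V] [Module ℝ V]
variable {ρ : Perm α →* (V →ₗ[ℝ] V)} {W : Submodule ℝ V}

/-- A family of disjoint 4-blocks. -/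
structure BlockFam (α : Type) (k : ℕ) where
  pt : Fin k → Fin 4 → α
  inj : ∀ i r j s, pt i r = pt j s → i = j ∧ r = s

variable {k : ℕ}

/-- The double transposition of the block `i`. -/
def tb (B : BlockFam α k) (i : Fin k) : Perm α :=
  dt (B.pt i 0) (B.pt i 1) (B.pt i 2) (B.pt i 3)

lemma BlockFam.ne {B : BlockFam α k} {i j : Fin k} {r s : Fin 4} (h : i ≠ j ∨ r ≠ s) :
    B.pt i r ≠ B.pt j s := by
  intro he
  obtain ⟨h1, h2⟩ := B.inj i r j s he
  rcases h with h | h
  · exact h h1
  · exact h h2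

lemma tb_conj (B : BlockFam α k) (g : Perm α) (j : Fin k) (hg : ∀ r, g (B.pt j r) = B.pt j r) :
    tb B j * g = g * tb B j := by
  have h := dt_conj g (B.pt j 0) (B.pt j 1) (B.pt j 2) (B.pt j 3)
  rw [hg, hg, hg, hg, mul_inv_eq_iff_eq_mul] at h
  exact h.symm

lemma dt_apply_of_ne {a b c d x : α} (h1 : x ≠ a) (h2 : x ≠ b) (h3 : x ≠ c) (h4 : x ≠ d) :
    dt a b c d x = x := by
  rw [dt, Perm.mul_apply, swap_apply_of_ne_of_ne h3 h4, swap_apply_of_ne_of_ne h1 h2]

lemma dt_sq {a b c d : α} (h : [a, b, c, d].Nodup) : dt a b c d * dt a b c d = 1 := by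
  have h1 : swap c d * swap a b = swap a b * swap c d := by
    have := (disjoint_swap_swap (x := a) (y := b) (z := c) (t := d) h).commute
    exact this.eq.symm
  unfold dt
  rw [mul_assoc, ← mul_assoc (swap c d), h1, mul_assoc (swap a b), swap_mul_self, mul_one,
    swap_mul_self]

lemma dt_mul {a b c d : α} (h : [a, b, c, d].Nodup) :
    dt a b c d * dt a c b d = dt a d b c := by
  have hab : a ≠ b := by (simp only [List.nodup_cons, List.mem_cons, List.not_mem_nil, or_false, not_or, not_false_eq_true, List.nodup_nil, and_true, ne_eq] at h ⊢; grind)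
  have hac : a ≠ c := by (simp only [List.nodup_cons, List.mem_cons, List.not_mem_nil, or_false, not_or, not_false_eq_true, List.nodup_nil, and_true, ne_eq] at h ⊢; grind)
  have had : a ≠ d := by (simp only [List.nodup_cons, List.mem_cons, List.not_mem_nil, or_false, not_or, not_false_eq_true, List.nodup_nil, and_true, ne_eq] at h ⊢; grind)
  have hbc : b ≠ c := by (simp only [List.nodup_cons, List.mem_cons, List.not_mem_nil, or_false, not_or, not_false_eq_true, List.nodup_nil, and_true, ne_eq] at h ⊢; grind)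
  have hbd : b ≠ d := by (simp only [List.nodup_cons, List.mem_cons, List.not_mem_nil, or_false, not_or, not_false_eq_true, List.nodup_nil, and_true, ne_eq] at h ⊢; grind)
  have hcd : c ≠ d := by (simp only [List.nodup_cons, List.mem_cons, List.not_mem_nil, or_false, not_or, not_false_eq_true, List.nodup_nil, and_true, ne_eq] at h ⊢; grind)
  ext x
  simp only [dt, Perm.mul_apply, Equiv.swap_apply_def]
  by_cases h1 : x = a
  · subst h1; simp [hab, hac, had, hbc, hbd, hcd, hab.symm, hac.symm, had.symm, hbc.symm,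
      hbd.symm, hcd.symm]
  by_cases h2 : x = b
  · subst h2; simp [hab, hac, had, hbc, hbd, hcd, hab.symm, hac.symm, had.symm, hbc.symm,
      hbd.symm, hcd.symm]
  by_cases h3 : x = c
  · subst h3; simp [hab, hac, had, hbc, hbd, hcd, hab.symm, hac.symm, had.symm, hbc.symm,
      hbd.symm, hcd.symm]
  by_cases h4 : x = d
  · subst h4; simp [hab, hac, had, hbc, hbd, hcd, hab.symm, hac.symm, had.symm, hbc.symm,
      hbd.symm, hcd.symm]
  simp [h1, h2, h3, h4]

/-- The key existence statement. -/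
theorem exists_block_vector (hG : Good ρ W) (hcard : 10 ≤ Fintype.card α) {v : V} (hv : v ∈ W)
    (hv0 : v ≠ 0) (B : BlockFam α k) {i0 i1 : Fin k} (h01 : i0 ≠ i1) :
    ∃ w ∈ W, w ≠ 0 ∧ ρ (tb B i0) w = -w ∧ ρ (tb B i1) w = -w ∧
      ∀ i, i ≠ i0 → i ≠ i1 → ρ (tb B i) w = w := by
  have key : ∀ T : Finset (Fin k), i0 ∉ T → i1 ∉ T → ∃ w ∈ W, w ≠ 0 ∧ ρ (tb B i0) w = -w ∧
      ρ (tb B i1) w = -w ∧ ∀ i ∈ T, ρ (tb B i) w = w := by
    intro T
    induction T using Finset.induction_on with
    | empty =>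
      intro _ _
      have hn : [B.pt i0 0, B.pt i0 1, B.pt i0 2, B.pt i0 3, B.pt i1 0, B.pt i1 1, B.pt i1 2,
          B.pt i1 3].Nodup := by
        have e : ∀ i (r s : Fin 4), r ≠ s → B.pt i r ≠ B.pt i s := fun i r s h =>
          BlockFam.ne (Or.inr h)
        have e' : ∀ (r s : Fin 4), B.pt i0 r ≠ B.pt i1 s := fun r s => BlockFam.ne (Or.inl h01)
        simp only [List.nodup_cons, List.mem_cons, List.not_mem_nil, or_false, not_or,
          not_false_eq_true, List.nodup_nil, and_true]
        refine ⟨⟨?_, ?_, ?_, ?_, ?_, ?_, ?_⟩, ⟨?_, ?_, ?_, ?_, ?_, ?_⟩, ⟨?_, ?_, ?_, ?_, ?_⟩,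
          ⟨?_, ?_, ?_, ?_⟩, ⟨?_, ?_, ?_⟩, ⟨?_, ?_⟩, ?_⟩ <;>
          first | exact e' _ _ | exact e _ _ _ (by decide)
      obtain ⟨w, h1, h2, h3, h4⟩ := exists_neg_neg hG hcard hv hv0 hn
      exact ⟨w, h1, h2, h3, h4, by simp⟩
    | insert i T hi ih =>
      intro h0 h1
      rw [Finset.mem_insert, not_or] at h0 h1
      obtain ⟨w, hw, hw0, hwi0, hwi1, hwT⟩ := ih h0.2 h1.2
      have n4 : [B.pt i 0, B.pt i 1, B.pt i 2, B.pt i 3].Nodup := by
        have e : ∀ (r s : Fin 4), r ≠ s → B.pt i r ≠ B.pt i s := fun r s h =>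
          BlockFam.ne (Or.inr h)
        simp only [List.nodup_cons, List.mem_cons, List.not_mem_nil, or_false, not_or,
          not_false_eq_true, List.nodup_nil, and_true]
        refine ⟨⟨?_, ?_, ?_⟩, ⟨?_, ?_⟩, ?_⟩ <;> exact e _ _ (by decide)
      set a := B.pt i 0 with ha
      set b := B.pt i 1 with hb
      set c := B.pt i 2 with hc
      set d := B.pt i 3 with hd
      have hab : a ≠ b := by (simp only [List.nodup_cons, List.mem_cons, List.not_mem_nil, or_false, not_or, not_false_eq_true, List.nodup_nil, and_true, ne_eq] at n4 ⊢; grind)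
      have hac : a ≠ c := by (simp only [List.nodup_cons, List.mem_cons, List.not_mem_nil, or_false, not_or, not_false_eq_true, List.nodup_nil, and_true, ne_eq] at n4 ⊢; grind)
      have had : a ≠ d := by (simp only [List.nodup_cons, List.mem_cons, List.not_mem_nil, or_false, not_or, not_false_eq_true, List.nodup_nil, and_true, ne_eq] at n4 ⊢; grind)
      have hbc : b ≠ c := by (simp only [List.nodup_cons, List.mem_cons, List.not_mem_nil, or_false, not_or, not_false_eq_true, List.nodup_nil, and_true, ne_eq] at n4 ⊢; grind)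
      have hbd : b ≠ d := by (simp only [List.nodup_cons, List.mem_cons, List.not_mem_nil, or_false, not_or, not_false_eq_true, List.nodup_nil, and_true, ne_eq] at n4 ⊢; grind)
      have hcd : c ≠ d := by (simp only [List.nodup_cons, List.mem_cons, List.not_mem_nil, or_false, not_or, not_false_eq_true, List.nodup_nil, and_true, ne_eq] at n4 ⊢; grind)
      have ht : tb B i = dt a b c d := rfl
      set g := c3 b c d with hg
      have g1 : g a = a := c3_apply_of_ne hab hac had
      have g2 : g b = c := c3_apply_left hbc hbd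
      have g3 : g c = d := c3_apply_mid hbd hcd
      have g4 : g d = b := c3_apply_right
      -- relations
      have r1 : g * dt a b c d * g⁻¹ = dt a c b d := by
        rw [dt_conj, g1, g2, g3, g4]
        unfold dt
        rw [swap_comm d b]
      have r2 : g * dt a c b d * g⁻¹ = dt a d b c := by
        rw [dt_conj, g1, g2, g3, g4]
        unfold dt
        rw [swap_comm c b]
      have r1' : dt a b c d * g⁻¹ = g⁻¹ * dt a c b d := by
        rw [← r1]; group
      have r2' : dt a c b d * g⁻¹ = g⁻¹ * dt a d b c := by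
        rw [← r2]; group
      -- commutation with the other blocks
      have hfix : ∀ (x : Perm α), (∀ y, y ≠ a → y ≠ b → y ≠ c → y ≠ d → x y = y) →
          ∀ j, j ≠ i → tb B j * x = x * tb B j := by
        intro x hx j hj
        apply tb_conj
        intro r
        exact hx _ (BlockFam.ne (Or.inl hj)) (BlockFam.ne (Or.inl hj))
          (BlockFam.ne (Or.inl hj)) (BlockFam.ne (Or.inl hj))
      have cg : ∀ y, y ≠ a → y ≠ b → y ≠ c → y ≠ d → g y = y := fun y _ h2 h3 h4 =>
        c3_apply_of_ne h2 h3 h4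
      have cginv : ∀ y, y ≠ a → y ≠ b → y ≠ c → y ≠ d → g⁻¹ y = y := by
        intro y h1 h2 h3 h4
        rw [Perm.inv_eq_iff_eq, cg y h1 h2 h3 h4]
      have ct : ∀ y, y ≠ a → y ≠ b → y ≠ c → y ≠ d → dt a b c d y = y :=
        fun y h1 h2 h3 h4 => dt_apply_of_ne h1 h2 h3 h4
      have ct' : ∀ y, y ≠ a → y ≠ b → y ≠ c → y ≠ d → dt a c b d y = y :=
        fun y h1 h2 h3 h4 => dt_apply_of_ne h1 h3 h2 h4
      -- transfer of the sign conditions
      have trs : ∀ (x : Perm α), (∀ y, y ≠ a → y ≠ b → y ≠ c → y ≠ d → x y = y) →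
          ∀ (u : V), ρ (tb B i0) u = -u ∧ ρ (tb B i1) u = -u ∧ (∀ j ∈ T, ρ (tb B j) u = u) →
          ρ (tb B i0) (ρ x u) = -(ρ x u) ∧ ρ (tb B i1) (ρ x u) = -(ρ x u) ∧
            (∀ j ∈ T, ρ (tb B j) (ρ x u) = ρ x u) := by
        intro x hx u ⟨hu0, hu1, huT⟩
        refine ⟨?_, ?_, ?_⟩
        · rw [← rho_mul, hfix x hx i0 h0.1, rho_mul, hu0, map_neg]
        · rw [← rho_mul, hfix x hx i1 h1.1, rho_mul, hu1, map_neg]
        · intro j hj
          rw [← rho_mul, hfix x hx j (fun h => hi (h ▸ hj)), rho_mul, huT j hj]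
      have tradd : ∀ (u u' : V),
          ρ (tb B i0) u = -u ∧ ρ (tb B i1) u = -u ∧ (∀ j ∈ T, ρ (tb B j) u = u) →
          ρ (tb B i0) u' = -u' ∧ ρ (tb B i1) u' = -u' ∧ (∀ j ∈ T, ρ (tb B j) u' = u') →
          ρ (tb B i0) (u + u') = -(u + u') ∧ ρ (tb B i1) (u + u') = -(u + u') ∧
            (∀ j ∈ T, ρ (tb B j) (u + u') = u + u') := by
        intro u u' ⟨h1, h2, h3⟩ ⟨h4, h5, h6⟩
        refine ⟨?_, ?_, ?_⟩
        · rw [map_add, h1, h4]; abel
        · rw [map_add, h2, h5]; abel
        · intro j hj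
          rw [map_add, h3 j hj, h6 j hj]
      have finish : ∀ u ∈ W, u ≠ 0 → ρ (dt a b c d) u = u →
          (ρ (tb B i0) u = -u ∧ ρ (tb B i1) u = -u ∧ (∀ j ∈ T, ρ (tb B j) u = u)) →
          ∃ w ∈ W, w ≠ 0 ∧ ρ (tb B i0) w = -w ∧
            ρ (tb B i1) w = -w ∧ ∀ j ∈ insert i T, ρ (tb B j) w = w := by
        intro u hu hu0 hut hcond
        refine ⟨u, hu, hu0, hcond.1, hcond.2.1, ?_⟩
        intro j hj
        rcases Finset.mem_insert.1 hj with rfl | hj
        · exact hut
        · exact hcond.2.2 j hj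
      have hinj : ∀ (x : Perm α) (u : V), u ≠ 0 → ρ x u ≠ 0 := by
        intro x u hu h
        apply hu
        have := congrArg (ρ x⁻¹) h
        rwa [← rho_mul, inv_mul_cancel, map_one, Module.End.one_apply, map_zero] at this
      have hwc : ρ (tb B i0) w = -w ∧ ρ (tb B i1) w = -w ∧ (∀ j ∈ T, ρ (tb B j) w = w) :=
        ⟨hwi0, hwi1, hwT⟩
      by_cases c1 : w + ρ (dt a b c d) w ≠ 0
      · apply finish _ (W.add_mem hw (hG.inv _ _ hw)) c1
        · rw [map_add, ← rho_mul, dt_sq n4, map_one, Module.End.one_apply, add_comm]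
        · exact tradd _ _ hwc (trs _ ct _ hwc)
      push Not at c1
      by_cases c2 : w + ρ (dt a c b d) w ≠ 0
      · apply finish (ρ g⁻¹ (w + ρ (dt a c b d) w)) (hG.inv _ _ (W.add_mem hw (hG.inv _ _ hw)))
          (hinj _ _ c2)
        · rw [← rho_mul, r1', rho_mul]
          congr 1
          have n4' : [a, c, b, d].Nodup := by (simp only [List.nodup_cons, List.mem_cons, List.not_mem_nil, or_false, not_or, not_false_eq_true, List.nodup_nil, and_true, ne_eq] at n4 ⊢; grind)
          rw [map_add, ← rho_mul, dt_sq n4', map_one, Module.End.one_apply, add_comm]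
        · exact trs _ cginv _ (tradd _ _ hwc (trs _ ct' _ hwc))
      push Not at c2
      have e1 : ρ (dt a b c d) w = -w := eq_neg_of_add_eq_zero_right c1
      have e2 : ρ (dt a c b d) w = -w := eq_neg_of_add_eq_zero_right c2
      have e3 : ρ (dt a d b c) w = w := by
        rw [← dt_mul n4, rho_mul, e2, map_neg, e1, neg_neg]
      apply finish (ρ g⁻¹ (ρ g⁻¹ w)) (hG.inv _ _ (hG.inv _ _ hw)) (hinj _ _ (hinj _ _ hw0))
      · rw [← rho_mul, r1', rho_mul]
        congr 1
        rw [← rho_mul, r2', rho_mul, e3]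
      · exact trs _ cginv _ (trs _ cginv _ hwc)
  obtain ⟨w, h1, h2, h3, h4, h5⟩ := key (Finset.univ \ {i0, i1}) (by simp) (by simp)
  refine ⟨w, h1, h2, h3, h4, fun i hi0 hi1 => h5 i (by simp [hi0, hi1])⟩

end Pool.Agent.Helper75.Ekr
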