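import Pool.Agent.Helper75.Ekr.Steps

/-!
Combinatorial part and the main theorem on the level of permutations.
-/

namespace Pool.Agent.Helper75.Ekr

open Equiv Equiv.Perm

set_option linter.unusedSectionVars false
set_option linter.unusedSimpArgs false

variable {α : Type} [Fintype α] [DecidableEq α]

/-- Even derangements. -/
def Der (α : Type) [Fintype α] [DecidableEq α] : Finset (Perm α) :=
  (AA α).filter (fun d => ∀ z, d z ≠ z)

lemma mem_Der {d : Perm α} : d ∈ Der α ↔ sign d = 1 ∧ ∀ z, d z ≠ z := by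
  simp [Der, mem_AA]

lemma Der_sub : Der α ⊆ AA α := Finset.filter_subset _ _

lemma Der_conj (g : Perm α) {d : Perm α} (hd : d ∈ Der α) : g * d * g⁻¹ ∈ Der α := by
  rw [mem_Der] at *
  refine ⟨?_, ?_⟩
  · rw [map_mul, map_mul, map_inv, hd.1, mul_one, mul_inv_cancel]
  · intro z h
    apply hd.2 (g⁻¹ z)
    rw [Perm.mul_apply, Perm.mul_apply] at h
    rw [Perm.eq_inv_iff_eq]
    exact h

lemma Der_inv {d : Perm α} (hd : d ∈ Der α) : d⁻¹ ∈ Der α := by
  rw [mem_Der] at *
  refine ⟨by rw [map_inv, hd.1, inv_one], ?_⟩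
  intro z h
  apply hd.2 z
  rw [Perm.inv_eq_iff_eq] at h
  exact h.symm

lemma nd_eq {x y x' y' : α} (h : x ≠ y) (h' : x' ≠ y') :
    ((Der α).filter (fun d => d x = y)).card = ((Der α).filter (fun d => d x' = y')).card := by
  obtain ⟨g, hg⟩ := exists_map_list [x, y] [x', y'] (by simp [h]) (by simp [h']) rfl
  simp only [List.map_cons, List.map_nil, List.cons.injEq, and_true] at hg
  have hgx : g⁻¹ x' = x := by rw [Perm.inv_eq_iff_eq, hg.1]
  have hgy : g⁻¹ y' = y := by rw [Perm.inv_eq_iff_eq, hg.2]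
  apply Finset.card_bij' (fun d _ => g * d * g⁻¹) (fun d _ => g⁻¹ * d * g)
  · intro d hd
    rw [Finset.mem_filter] at hd ⊢
    refine ⟨Der_conj g hd.1, ?_⟩
    rw [Perm.mul_apply, Perm.mul_apply, hgx, hd.2, hg.2]
  · intro d hd
    rw [Finset.mem_filter] at hd ⊢
    refine ⟨?_, ?_⟩
    · have := Der_conj g⁻¹ hd.1
      rwa [inv_inv] at this
    · rw [Perm.mul_apply, Perm.mul_apply, hg.1, hd.2, hgy]
  · intro d _; group
  · intro d _; group

lemma exists_Lam (hc : 2 ≤ Fintype.card α) : ∃ L : ℕ, ∀ x x' : α,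
    ((Der α).filter (fun d => d x = x')).card = if x = x' then 0 else L := by
  obtain ⟨a, b, hab⟩ := Fintype.exists_pair_of_one_lt_card (show 1 < Fintype.card α by omega)
  refine ⟨((Der α).filter (fun d => d a = b)).card, fun x x' => ?_⟩
  by_cases h : x = x'
  · rw [if_pos h, Finset.card_eq_zero, Finset.filter_eq_empty_iff]
    intro d hd
    rw [mem_Der] at hd
    rw [← h]
    exact hd.2 x
  · rw [if_neg h]
    exact nd_eq h hab

lemma card_Der (hc : 2 ≤ Fintype.card α) {L : ℕ}
    (hL : ∀ x x' : α, ((Der α).filter (fun d => d x = x')).card = if x = x' then 0 else L) :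
    ((Der α).card : ℝ) = (Fintype.card α - 1) * L := by
  obtain ⟨a, b, hab⟩ := Fintype.exists_pair_of_one_lt_card (show 1 < Fintype.card α by omega)
  have h := Finset.card_eq_sum_card_fiberwise (f := fun d : Perm α => d a) (s := Der α)
    (t := Finset.univ) (fun _ _ => Finset.mem_univ _)
  rw [h, Finset.sum_congr rfl (fun x' _ => hL a x'),
    ← Finset.add_sum_erase Finset.univ _ (Finset.mem_univ a), if_pos rfl, zero_add,
    Finset.sum_congr rfl (g := fun _ => L) (by
      intro x' hx'
      rw [if_neg (Ne.symm (Finset.ne_of_mem_erase hx'))]), Finset.sum_const,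
    Finset.card_erase_of_mem (Finset.mem_univ _), Finset.card_univ, smul_eq_mul]
  push_cast [Nat.cast_sub (show 1 ≤ Fintype.card α by omega)]
  ring

/-- Bounds relating `L` and the size of the coset. -/
lemma Lam_bounds (hc : 4000 ≤ Fintype.card α) {L : ℕ}
    (hL : ∀ x x' : α, ((Der α).filter (fun d => d x = x')).card = if x = x' then 0 else L) :
    ((AA α).card : ℝ) / Fintype.card α ≤ 13 * L ∧ (L : ℝ) ≤ (AA α).card / Fintype.card α := by
  obtain ⟨a, b, hab⟩ := Fintype.exists_pair_of_one_lt_card (show 1 < Fintype.card α by omega)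
  have hLab : ((Der α).filter (fun d => d a = b)).card = L := by rw [hL, if_neg hab]
  constructor
  · rw [← card_Om (by omega) a b, ← hLab]
    have h1 := count_avoid (α := α) 1 (x := a) (y := b) hab.symm hab.symm hc
    have h2 : (Om a b).filter (fun e => ∀ z, e z ≠ z ∧ e z ≠ (1 : Perm α) z) ⊆
        (Der α).filter (fun d => d a = b) := by
      intro e he
      rw [Finset.mem_filter, mem_Om] at he
      rw [Finset.mem_filter, mem_Der]
      exact ⟨⟨he.1.1, fun z => (he.2 z).1⟩, he.1.2⟩
    have h3 := Finset.card_le_card h2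
    exact_mod_cast h1.trans (Nat.mul_le_mul_left 13 h3)
  · rw [← card_Om (by omega) a b, ← hLab]
    have h2 : (Der α).filter (fun d => d a = b) ⊆ Om a b := by
      intro e he
      rw [Finset.mem_filter, mem_Der] at he
      rw [mem_Om]
      exact ⟨he.1.1, he.2⟩
    exact_mod_cast Finset.card_le_card h2

/-- Number of labels. -/
def lab (D : Finset (Perm α)) : ℕ := (D.image (fun d => ({d, d⁻¹} : Finset (Perm α)))).card

lemma lab_le (D : Finset (Perm α)) : lab D ≤ D.card := Finset.card_image_le

lemma lab_mono {D D' : Finset (Perm α)} (h : D ⊆ D') : lab D ≤ lab D' :=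
  Finset.card_le_card (Finset.image_subset_image h)

lemma card_le_two_lab (D : Finset (Perm α)) : D.card ≤ 2 * lab D := by
  apply Finset.card_le_mul_card_image
  intro b hb
  rw [Finset.mem_image] at hb
  obtain ⟨d, _, rfl⟩ := hb
  refine (Finset.card_le_card (t := {d, d⁻¹}) ?_).trans Finset.card_le_two
  intro e he
  rw [Finset.mem_filter] at he
  rw [← he.2]
  simp

lemma lab_injOn {D E : Finset (Perm α)} (hE : E ⊆ D) (h : ∀ c ∈ E, c⁻¹ ∉ E ∨ c⁻¹ = c) :
    E.card ≤ lab D := by
  refine le_trans ?_ (lab_mono hE)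
  unfold lab
  rw [Finset.card_image_of_injOn]
  intro c hc c' hc' hcc
  simp only at hcc
  have h1 : c ∈ ({c', c'⁻¹} : Finset (Perm α)) := by rw [← hcc]; simp
  rw [Finset.mem_insert, Finset.mem_singleton] at h1
  rcases h1 with h1 | h1
  · exact h1
  · rcases h c' hc' with h2 | h2
    · rw [← h1] at h2
      exact absurd hc h2
    · rw [h1, h2]

/-- Permutations with two prescribed values. -/
lemma card_two_le (hc : 4 ≤ Fintype.card α) {a b a' b' : α} (h : a ≠ a' ∨ b ≠ b') :
    ((Fintype.card α : ℝ) - 1) * (((AA α).filter (fun c => c a = b ∧ c a' = b')).card : ℝ) ≤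
      (AA α).card / Fintype.card α := by
  have hn : (4 : ℝ) ≤ Fintype.card α := by exact_mod_cast hc
  by_cases haa : a = a'
  · have : (AA α).filter (fun c => c a = b ∧ c a' = b') = ∅ := by
      rw [Finset.filter_eq_empty_iff]
      rintro c _ ⟨h1, h2⟩
      rcases h with h | h
      · exact h haa
      · rw [← haa, h1] at h2
        exact h h2
    rw [this]
    simp only [Finset.card_empty, Nat.cast_zero, mul_zero]
    positivity
  · by_cases hbb : b = b'
    · have : (AA α).filter (fun c => c a = b ∧ c a' = b') = ∅ := by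
        rw [Finset.filter_eq_empty_iff]
        rintro c _ ⟨h1, h2⟩
        apply haa
        apply c.injective
        rw [h1, h2, hbb]
      rw [this]
      simp only [Finset.card_empty, Nat.cast_zero, mul_zero]
      positivity
    · have h1 := card_fiber2 (evStable_AA (α := α)) hc (x := a) (x' := a') (y := b) (w := b')
        (Ne.symm haa) (Ne.symm hbb)
      rw [← card_Om (by omega) a b, Om, ← h1]
      push_cast [Nat.cast_sub (show 1 ≤ Fintype.card α by omega)]
      exact le_refl _

/-- (H3) Two different directions cannot both be nearly full. -/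
lemma two_dirs (hc : 4 ≤ Fintype.card α) {D : Finset (Perm α)} (hD : D ⊆ AA α) {p q r s : α}
    (hpq : p ≠ q) (hrs : r ≠ s) (h1 : p ≠ r ∨ q ≠ s) (h2 : p ≠ s ∨ q ≠ r) :
    ((D.filter (fun c => c p = q)).card : ℝ) + (D.filter (fun c => c r = s)).card ≤
      lab D + 5 * (((AA α).card : ℝ) / Fintype.card α / (Fintype.card α - 1)) := by
  classical
  have hn : (4 : ℝ) ≤ Fintype.card α := by exact_mod_cast hc
  set E1 := D.filter (fun c => c p = q) with hE1
  set E2 := D.filter (fun c => c r = s) with hE2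
  set E := E1 ∪ E2 with hE
  set F := E.filter (fun c => c⁻¹ ∈ E) with hF
  have c1 : E1.card + E2.card = E.card + (E1 ∩ E2).card := by
    rw [hE, Finset.card_union_add_card_inter]
  have c2 : E.card = (E.filter (fun c => ¬ c⁻¹ ∈ E)).card + F.card := by
    rw [hF, add_comm]
    exact (Finset.card_filter_add_card_filter_not (s := E) (fun c => c⁻¹ ∈ E)).symm
  have c3 : (E.filter (fun c => ¬ c⁻¹ ∈ E)).card ≤ lab D := by
    apply lab_injOn
    · refine (Finset.filter_subset _ _).trans ?_
      rw [hE]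
      exact Finset.union_subset (Finset.filter_subset _ _) (Finset.filter_subset _ _)
    · intro c hc'
      left
      intro h
      exact (Finset.mem_filter.1 hc').2 (Finset.mem_filter.1 h).1
  set T := fun a b a' b' : α => (AA α).filter (fun c => c a = b ∧ c a' = b') with hT
  have c4 : E1 ∩ E2 ⊆ T p q r s := by
    intro c hc'
    rw [Finset.mem_inter, hE1, hE2, Finset.mem_filter, Finset.mem_filter] at hc'
    rw [hT, Finset.mem_filter]
    exact ⟨hD hc'.1.1, hc'.1.2, hc'.2.2⟩
  have c5 : F ⊆ ((T p q q p ∪ T p q s r) ∪ T r s q p) ∪ T r s s r := by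
    intro c hc'
    rw [hF, hE, Finset.mem_filter, Finset.mem_union, Finset.mem_union, hE1, hE2] at hc'
    simp only [Finset.mem_filter] at hc'
    simp only [hT, Finset.mem_union, Finset.mem_filter]
    have hi : ∀ a b : α, c⁻¹ a = b → c b = a := by
      intro a b h
      rw [Perm.inv_eq_iff_eq] at h
      exact h.symm
    rcases hc' with ⟨h1 | h1, h2 | h2⟩
    · left; left; left; exact ⟨hD h1.1, h1.2, hi _ _ h2.2⟩
    · left; left; right; exact ⟨hD h1.1, h1.2, hi _ _ h2.2⟩
    · left; right; exact ⟨hD h1.1, h1.2, hi _ _ h2.2⟩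
    · right; exact ⟨hD h1.1, h1.2, hi _ _ h2.2⟩
  have c6 := Finset.card_le_card c4
  have c7 : F.card ≤ (T p q q p).card + (T p q s r).card + (T r s q p).card +
      (T r s s r).card := by
    refine (Finset.card_le_card c5).trans ?_
    refine (Finset.card_union_le _ _).trans ?_
    gcongr
    refine (Finset.card_union_le _ _).trans ?_
    gcongr
    exact Finset.card_union_le _ _
  have t0 := card_two_le hc (a := p) (b := q) (a' := r) (b' := s) h1
  have t1 := card_two_le hc (a := p) (b := q) (a' := q) (b' := p) (Or.inl hpq)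
  have t2 := card_two_le hc (a := p) (b := q) (a' := s) (b' := r) h2
  have t3 := card_two_le hc (a := r) (b := s) (a' := q) (b' := p) (by tauto)
  have t4 := card_two_le hc (a := r) (b := s) (a' := s) (b' := r) (Or.inl hrs)
  obtain ⟨W, hW⟩ : ∃ W : ℝ, W = ((AA α).card : ℝ) / Fintype.card α := ⟨_, rfl⟩
  obtain ⟨m, hm⟩ : ∃ m : ℝ, m = (Fintype.card α : ℝ) - 1 := ⟨_, rfl⟩
  have hm0 : 0 < m := by rw [hm]; linarith
  rw [← hW, ← hm] at t0 t1 t2 t3 t4
  rw [← hW, ← hm]
  have u : ∀ z : ℝ, m * z ≤ W → z ≤ W / m := by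
    intro z hz
    rw [le_div_iff₀ hm0]
    linarith
  have u0 := u _ t0
  have u1 := u _ t1
  have u2 := u _ t2
  have u3 := u _ t3
  have u4 := u _ t4
  have r1 : (E1.card : ℝ) + E2.card = E.card + (E1 ∩ E2).card := by exact_mod_cast c1
  have r2 : (E.card : ℝ) = (E.filter (fun c => ¬ c⁻¹ ∈ E)).card + F.card := by exact_mod_cast c2
  have r3 : ((E.filter (fun c => ¬ c⁻¹ ∈ E)).card : ℝ) ≤ lab D := by exact_mod_cast c3
  have r6 : ((E1 ∩ E2).card : ℝ) ≤ (T p q r s).card := by exact_mod_cast c6
  have r7 : (F.card : ℝ) ≤ (T p q q p).card + (T p q s r).card + (T r s q p).card +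
      (T r s s r).card := by exact_mod_cast c7
  rw [r1, r2]
  simp only [hT] at r6 r7
  linarith

/-- Blocks exist. -/
lemma exists_blocks (k : ℕ) (hk : 4 * k ≤ Fintype.card α) : Nonempty (BlockFam α k) := by
  let e := Fintype.equivFin α
  have hlt : ∀ (i : Fin k) (r : Fin 4), 4 * i.val + r.val < Fintype.card α := by
    intro i r
    have := i.isLt
    have := r.isLt
    omega
  refine ⟨⟨fun i r => e.symm ⟨4 * i.val + r.val, hlt i r⟩, ?_⟩⟩
  intro i r j s h
  have h1 := e.symm.injective h
  simp only [Fin.mk.injEq] at h1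
  have := r.isLt
  have := s.isLt
  constructor
  · apply Fin.ext; omega
  · apply Fin.ext; omega

end Pool.Agent.Helper75.Ekr
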