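import Pool.Agent.Helper75.Ekr.ThreeCycles

/-!
Counting permutations with one or two prescribed values.
-/

namespace Pool.Agent.Helper75.Ekr

open Equiv Equiv.Perm

set_option linter.unusedSectionVars false
set_option linter.unusedSimpArgs false

variable {α : Type} [Fintype α] [DecidableEq α]

/-- `H` is stable under left multiplication by even permutations. -/
def EvStable (H : Finset (Perm α)) : Prop :=
  ∀ τ : Perm α, sign τ = 1 → ∀ σ ∈ H, τ * σ ∈ H

/-- The even permutations. -/
def AA (α : Type) [Fintype α] [DecidableEq α] : Finset (Perm α) :=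
  Finset.univ.filter (fun σ => sign σ = 1)

lemma mem_AA {σ : Perm α} : σ ∈ AA α ↔ sign σ = 1 := by simp [AA]

lemma evStable_AA : EvStable (AA α) := by
  intro τ hτ σ hσ
  rw [mem_AA] at *
  rw [map_mul, hτ, hσ, one_mul]

lemma evStable_univ : EvStable (Finset.univ : Finset (Perm α)) := fun _ _ _ _ => Finset.mem_univ _

lemma card_fiber_eq {H : Finset (Perm α)} (hH : EvStable H) (hc : 3 ≤ Fintype.card α)
    (x y y' : α) : (H.filter (fun σ => σ x = y)).card = (H.filter (fun σ => σ x = y')).card := by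
  obtain ⟨τ, hτ, hm⟩ := exists_even_map_list [y] [y'] (by simp) (by simp) rfl (by simpa using hc)
  simp only [List.map_cons, List.map_nil, List.cons.injEq, and_true] at hm
  apply Finset.card_bij' (fun σ _ => τ * σ) (fun σ _ => τ⁻¹ * σ)
  · intro σ hσ
    rw [Finset.mem_filter] at hσ ⊢
    exact ⟨hH τ hτ σ hσ.1, by rw [Perm.mul_apply, hσ.2, hm]⟩
  · intro σ hσ
    rw [Finset.mem_filter] at hσ ⊢
    refine ⟨hH τ⁻¹ (by rw [map_inv, hτ, inv_one]) σ hσ.1, ?_⟩
    rw [Perm.mul_apply, hσ.2, ← hm]
    simp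
  · intro σ _; group
  · intro σ _; group

lemma card_fiber {H : Finset (Perm α)} (hH : EvStable H) (hc : 3 ≤ Fintype.card α)
    (x y : α) : Fintype.card α * (H.filter (fun σ => σ x = y)).card = H.card := by
  have h := Finset.card_eq_sum_card_fiberwise (f := fun σ : Perm α => σ x) (s := H)
    (t := Finset.univ) (fun _ _ => Finset.mem_univ _)
  rw [h, Finset.sum_congr rfl (fun b _ => card_fiber_eq hH hc x b y), Finset.sum_const,
    Finset.card_univ, smul_eq_mul]

lemma card_fiber2_eq {H : Finset (Perm α)} (hH : EvStable H) (hc : 4 ≤ Fintype.card α)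
    (x x' y w w' : α) (hw : w ≠ y) (hw' : w' ≠ y) :
    (H.filter (fun σ => σ x = y ∧ σ x' = w)).card =
      (H.filter (fun σ => σ x = y ∧ σ x' = w')).card := by
  obtain ⟨τ, hτ, hm⟩ := exists_even_map_list [y, w] [y, w'] (by simp [hw.symm])
    (by simp [hw'.symm]) rfl (by simpa using hc)
  simp only [List.map_cons, List.map_nil, List.cons.injEq, and_true] at hm
  have hy : τ⁻¹ y = y := by rw [Perm.inv_eq_iff_eq, hm.1]
  have hwi : τ⁻¹ w' = w := by rw [Perm.inv_eq_iff_eq, hm.2]
  apply Finset.card_bij' (fun σ _ => τ * σ) (fun σ _ => τ⁻¹ * σ)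
  · intro σ hσ
    rw [Finset.mem_filter] at hσ ⊢
    exact ⟨hH τ hτ σ hσ.1, by rw [Perm.mul_apply, hσ.2.1, hm.1], by
      rw [Perm.mul_apply, hσ.2.2, hm.2]⟩
  · intro σ hσ
    rw [Finset.mem_filter] at hσ ⊢
    refine ⟨hH τ⁻¹ (by rw [map_inv, hτ, inv_one]) σ hσ.1, ?_, ?_⟩
    · rw [Perm.mul_apply, hσ.2.1, hy]
    · rw [Perm.mul_apply, hσ.2.2, hwi]
  · intro σ _; group
  · intro σ _; group

lemma card_fiber2 {H : Finset (Perm α)} (hH : EvStable H) (hc : 4 ≤ Fintype.card α)
    {x x' y w : α} (hx : x' ≠ x) (hw : w ≠ y) :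
    (Fintype.card α - 1) * (H.filter (fun σ => σ x = y ∧ σ x' = w)).card =
      (H.filter (fun σ => σ x = y)).card := by
  have h := Finset.card_eq_sum_card_fiberwise (f := fun σ : Perm α => σ x')
    (s := H.filter (fun σ => σ x = y)) (t := Finset.univ.erase y) (by
      intro σ hσ
      simp only [Finset.coe_filter, Set.mem_ofPred_eq] at hσ
      simp only [Finset.coe_erase, Finset.coe_univ, Set.mem_sdiff, Set.mem_univ,
        Set.mem_singleton_iff, true_and]
      intro h
      apply hx
      apply σ.injective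
      rw [h, hσ.2])
  rw [h]
  have h2 : ∀ b ∈ Finset.univ.erase y,
      ((H.filter (fun σ => σ x = y)).filter (fun σ => σ x' = b)).card =
        (H.filter (fun σ => σ x = y ∧ σ x' = w)).card := by
    intro b hb
    rw [Finset.filter_filter]
    exact card_fiber2_eq hH hc x x' y b w (Finset.ne_of_mem_erase hb) hw
  rw [Finset.sum_congr rfl h2, Finset.sum_const, Finset.card_erase_of_mem (Finset.mem_univ _),
    Finset.card_univ, smul_eq_mul]

lemma sum_one {H : Finset (Perm α)} (hH : EvStable H) (hc : 3 ≤ Fintype.card α)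
    (x : α) (F : α → ℝ) :
    ∑ σ ∈ H, F (σ x) = ((H.card : ℝ) / Fintype.card α) * ∑ y, F y := by
  rw [← Finset.sum_fiberwise H (fun σ : Perm α => σ x), Finset.mul_sum]
  apply Finset.sum_congr rfl
  intro y _
  rw [Finset.sum_congr rfl (g := fun _ => F y) (by
    intro σ hσ
    rw [(Finset.mem_filter.1 hσ).2]), Finset.sum_const, nsmul_eq_mul]
  congr 1
  have h := card_fiber hH hc x y
  have hpos : (0 : ℝ) < Fintype.card α := by
    have : 0 < Fintype.card α := by omega
    exact_mod_cast this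
  rw [eq_div_iff hpos.ne', ← h]
  push_cast
  ring

lemma sum_two {H : Finset (Perm α)} (hH : EvStable H) (hc : 4 ≤ Fintype.card α)
    {x x' y : α} (hx : x' ≠ x) (F : α → ℝ) :
    ∑ σ ∈ H.filter (fun σ => σ x = y), F (σ x') =
      ((H.card : ℝ) / (Fintype.card α * (Fintype.card α - 1))) * ∑ w ∈ Finset.univ.erase y, F w := by
  have hcard : (4 : ℝ) ≤ Fintype.card α := by exact_mod_cast hc
  rw [← Finset.sum_fiberwise_of_maps_to (s := H.filter (fun σ => σ x = y))
    (t := Finset.univ.erase y) (g := fun σ : Perm α => σ x') (by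
      intro σ hσ
      rw [Finset.mem_filter] at hσ
      rw [Finset.mem_erase]
      refine ⟨fun h => hx (σ.injective (by rw [h, hσ.2])), Finset.mem_univ _⟩), Finset.mul_sum]
  apply Finset.sum_congr rfl
  intro w hw
  rw [Finset.sum_congr rfl (g := fun _ => F w) (by
    intro σ hσ
    rw [(Finset.mem_filter.1 hσ).2]), Finset.sum_const, nsmul_eq_mul, Finset.filter_filter]
  congr 1
  have h1 := card_fiber hH (by omega) x y
  have h2 := card_fiber2 hH hc hx (Finset.ne_of_mem_erase hw)
  rw [eq_div_iff (by nlinarith), ← h1, ← h2]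
  have : 1 ≤ Fintype.card α := by omega
  push_cast [Nat.cast_sub this]
  ring

/-- Pair sums. -/
lemma sum_pair {H : Finset (Perm α)} (hH : EvStable H) (hc : 4 ≤ Fintype.card α)
    {x x' : α} (hx : x' ≠ x) (F : α → α → ℝ) :
    ∑ σ ∈ H, F (σ x) (σ x') =
      ((H.card : ℝ) / (Fintype.card α * (Fintype.card α - 1))) *
        ∑ y, ∑ w ∈ Finset.univ.erase y, F y w := by
  rw [← Finset.sum_fiberwise H (fun σ : Perm α => σ x), Finset.mul_sum]
  apply Finset.sum_congr rfl
  intro y _
  rw [← sum_two hH hc hx (F y)]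
  apply Finset.sum_congr rfl
  intro σ hσ
  rw [(Finset.mem_filter.1 hσ).2]

lemma card_AA (hc : 2 ≤ Fintype.card α) :
    Fintype.card (Perm α) = 2 * (AA α).card := by
  have : (1 : ℕ) < Fintype.card α := by omega
  obtain ⟨a, b, hab⟩ := Fintype.exists_pair_of_one_lt_card this
  have h1 : (Finset.univ : Finset (Perm α)) = AA α ∪ (AA α)ᶜ := by simp
  have h2 : (AA α)ᶜ.card = (AA α).card := by
    apply Finset.card_bij' (fun σ _ => swap a b * σ) (fun σ _ => swap a b * σ)
    · intro σ hσ
      rw [Finset.mem_compl, mem_AA] at hσ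
      rw [mem_AA, map_mul, sign_swap hab]
      rcases Int.units_eq_one_or (sign σ) with h | h
      · exact absurd h hσ
      · rw [h]; rfl
    · intro σ hσ
      rw [mem_AA] at hσ
      rw [Finset.mem_compl, mem_AA, map_mul, sign_swap hab, hσ]
      decide
    · intro σ _; simp
    · intro σ _; simp
  rw [← Finset.card_univ, h1, Finset.card_union_of_disjoint disjoint_compl_right, h2]
  ring

end Pool.Agent.Helper75.Ekr
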