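import Pool.Agent.Helper75.Ekr.Count

/-!
Second and fourth moments of `g(σ) = ∑_x b(x, σ x)` by the exchangeable pair of transpositions.
-/

namespace Pool.Agent.Helper75.Ekr

open Equiv Equiv.Perm

set_option linter.unusedSectionVars false
set_option linter.unusedSimpArgs false

variable {α : Type} [Fintype α] [DecidableEq α]

/-- `g(σ) = ∑_{x ∈ F} b(x, σ x)`. -/
def gF (F : Finset α) (b : α → α → ℝ) (σ : Perm α) : ℝ := ∑ x ∈ F, b x (σ x)

/-- `S(σ) = ∑_{x ∈ F} b(x, σ x)^2`. -/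
def SF (F : Finset α) (b : α → α → ℝ) (σ : Perm α) : ℝ := ∑ x ∈ F, (b x (σ x)) ^ 2

/-- Total square sum. -/
def BB (b : α → α → ℝ) : ℝ := ∑ x, ∑ y, (b x y) ^ 2

lemma gF_swap {F : Finset α} (b : α → α → ℝ) (σ : Perm α) {x x' : α} (hx : x ∈ F) (hx' : x' ∈ F) :
    gF F b (σ * swap x x') - gF F b σ =
      b x (σ x') + b x' (σ x) - b x (σ x) - b x' (σ x') := by
  unfold gF
  rw [← Finset.sum_sub_distrib]
  by_cases h : x = x'
  · subst h
    simp
  · have h1 : ∑ z ∈ F, (b z ((σ * swap x x') z) - b z (σ z)) =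
        ∑ z ∈ ({x, x'} : Finset α), (b z ((σ * swap x x') z) - b z (σ z)) := by
      symm
      apply Finset.sum_subset
      · intro z hz
        simp only [Finset.mem_insert, Finset.mem_singleton] at hz
        rcases hz with rfl | rfl
        · exact hx
        · exact hx'
      · intro z _ hz
        simp only [Finset.mem_insert, Finset.mem_singleton, not_or] at hz
        rw [Perm.mul_apply, swap_apply_of_ne_of_ne hz.1 hz.2, sub_self]
    rw [h1, Finset.sum_pair h]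
    simp only [Perm.mul_apply, swap_apply_left, swap_apply_right]
    ring

/-- Hypotheses for the exchangeable pair argument. -/
structure EP (F : Finset α) (Om : Finset (Perm α)) (b : α → α → ℝ) : Prop where
  closed : ∀ σ ∈ Om, ∀ x ∈ F, ∀ x' ∈ F, σ * swap x x' ∈ Om
  row : ∀ σ ∈ Om, ∀ x ∈ F, ∑ x' ∈ F, b x (σ x') = 0
  col : ∀ σ ∈ Om, ∀ x ∈ F, ∑ x' ∈ F, b x' (σ x) = 0

lemma EP.ident {F : Finset α} {Om : Finset (Perm α)} {b : α → α → ℝ} (h : EP F Om b)
    {σ : Perm α} (hσ : σ ∈ Om) :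
    ∑ x ∈ F, ∑ x' ∈ F, (gF F b (σ * swap x x') - gF F b σ) = -(2 * F.card * gF F b σ) := by
  have h1 : ∑ x ∈ F, ∑ x' ∈ F, (gF F b (σ * swap x x') - gF F b σ) =
      ∑ x ∈ F, ∑ x' ∈ F, (b x (σ x') + b x' (σ x) - b x (σ x) - b x' (σ x')) :=
    Finset.sum_congr rfl fun x hx => Finset.sum_congr rfl fun x' hx' => gF_swap b σ hx hx'
  rw [h1]
  simp only [Finset.sum_sub_distrib, Finset.sum_add_distrib]
  rw [Finset.sum_congr rfl (fun x hx => h.row σ hσ x hx),
    Finset.sum_congr rfl (fun x hx => h.col σ hσ x hx)]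
  simp only [Finset.sum_const, Finset.sum_const_zero, nsmul_eq_mul, ← Finset.mul_sum]
  unfold gF
  ring

lemma sq4 (a b c d : ℝ) : (a + b - c - d) ^ 2 ≤ 4 * (a ^ 2 + b ^ 2 + c ^ 2 + d ^ 2) := by
  nlinarith [sq_nonneg (a - b), sq_nonneg (a + c), sq_nonneg (a + d), sq_nonneg (b + c),
    sq_nonneg (b + d), sq_nonneg (c - d)]

lemma sum_row_sq_le (F : Finset α) (b : α → α → ℝ) (σ : Perm α) :
    ∑ x ∈ F, ∑ x' ∈ F, (b x (σ x')) ^ 2 ≤ BB b := by
  unfold BB
  calc ∑ x ∈ F, ∑ x' ∈ F, (b x (σ x')) ^ 2 ≤ ∑ x ∈ F, ∑ x', (b x (σ x')) ^ 2 :=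
        Finset.sum_le_sum fun x _ => Finset.sum_le_sum_of_subset_of_nonneg (Finset.subset_univ _)
          (fun _ _ _ => sq_nonneg _)
    _ ≤ ∑ x, ∑ x', (b x (σ x')) ^ 2 :=
        Finset.sum_le_sum_of_subset_of_nonneg (Finset.subset_univ _)
          (fun _ _ _ => Finset.sum_nonneg fun _ _ => sq_nonneg _)
    _ = ∑ x, ∑ y, (b x y) ^ 2 :=
        Finset.sum_congr rfl fun x _ => Equiv.sum_comp σ (fun y => (b x y) ^ 2)

lemma sum_sq_swap_le (F : Finset α) (b : α → α → ℝ) (σ : Perm α) :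
    ∑ x ∈ F, ∑ x' ∈ F, (gF F b (σ * swap x x') - gF F b σ) ^ 2 ≤
      8 * BB b + 8 * F.card * SF F b σ := by
  have h1 : ∑ x ∈ F, ∑ x' ∈ F, (gF F b (σ * swap x x') - gF F b σ) ^ 2 ≤
      ∑ x ∈ F, ∑ x' ∈ F, 4 * ((b x (σ x')) ^ 2 + (b x' (σ x)) ^ 2 + (b x (σ x)) ^ 2 +
        (b x' (σ x')) ^ 2) := by
    apply Finset.sum_le_sum
    intro x hx
    apply Finset.sum_le_sum
    intro x' hx'
    rw [gF_swap b σ hx hx']
    exact sq4 _ _ _ _
  refine h1.trans ?_
  simp only [← Finset.mul_sum, Finset.sum_add_distrib]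
  have h2 := sum_row_sq_le F b σ
  have h3 : ∑ x ∈ F, ∑ x' ∈ F, (b x' (σ x)) ^ 2 ≤ BB b := by
    rw [Finset.sum_comm]; exact h2
  simp only [Finset.sum_const, nsmul_eq_mul, ← Finset.mul_sum]
  unfold SF
  nlinarith

/-- Symmetrization over the involution `σ ↦ σ * swap x x'`. -/
lemma sum_swap_invol {Om : Finset (Perm α)} {x x' : α} (hcl : ∀ σ ∈ Om, σ * swap x x' ∈ Om)
    (Φ : Perm α → ℝ) : ∑ σ ∈ Om, Φ (σ * swap x x') = ∑ σ ∈ Om, Φ σ := by
  apply Finset.sum_bij' (fun σ _ => σ * swap x x') (fun σ _ => σ * swap x x')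
  · intro σ hσ; exact hcl σ hσ
  · intro σ hσ; exact hcl σ hσ
  · intro σ _; rw [mul_assoc, swap_mul_self, mul_one]
  · intro σ _; rw [mul_assoc, swap_mul_self, mul_one]
  · intro σ _; rfl

lemma EP.second {F : Finset α} {Om : Finset (Perm α)} {b : α → α → ℝ} (h : EP F Om b)
    (hF : 0 < F.card) :
    ∑ σ ∈ Om, (gF F b σ) ^ 2 ≤ (2 / F.card) * ∑ σ ∈ Om, (BB b + F.card * SF F b σ) := by
  have hF' : (0 : ℝ) < F.card := by exact_mod_cast hF
  set g := gF F b with hg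
  -- `2 |F| ∑ g² = ∑_{x,x'} ∑_σ (g² - g g')`
  have e1 : 2 * F.card * ∑ σ ∈ Om, (g σ) ^ 2 =
      ∑ x ∈ F, ∑ x' ∈ F, ∑ σ ∈ Om, ((g σ) ^ 2 - g σ * g (σ * swap x x')) := by
    have : ∀ σ ∈ Om, 2 * F.card * (g σ) ^ 2 =
        ∑ x ∈ F, ∑ x' ∈ F, ((g σ) ^ 2 - g σ * g (σ * swap x x')) := by
      intro σ hσ
      have h1 := h.ident hσ
      have h2 : ∑ x ∈ F, ∑ x' ∈ F, ((g σ) ^ 2 - g σ * g (σ * swap x x')) =
          -(g σ) * ∑ x ∈ F, ∑ x' ∈ F, (g (σ * swap x x') - g σ) := by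
        rw [Finset.mul_sum]
        apply Finset.sum_congr rfl
        intro x _
        rw [Finset.mul_sum]
        apply Finset.sum_congr rfl
        intro x' _
        ring
      rw [h2, h1]
      ring
    rw [Finset.mul_sum, Finset.sum_congr rfl this, Finset.sum_comm]
    apply Finset.sum_congr rfl
    intro x _
    rw [Finset.sum_comm]
  have e2 : ∀ x ∈ F, ∀ x' ∈ F, ∑ σ ∈ Om, ((g σ) ^ 2 - g σ * g (σ * swap x x')) =
      (1 / 2) * ∑ σ ∈ Om, (g (σ * swap x x') - g σ) ^ 2 := by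
    intro x hx x' hx'
    have hcl : ∀ σ ∈ Om, σ * swap x x' ∈ Om := fun σ hσ => h.closed σ hσ x hx x' hx'
    have h1 := sum_swap_invol hcl (fun σ => (g σ) ^ 2)
    have h2 : ∑ σ ∈ Om, (g (σ * swap x x') - g σ) ^ 2 =
        ∑ σ ∈ Om, (g (σ * swap x x')) ^ 2 + ∑ σ ∈ Om, (g σ) ^ 2
          - 2 * ∑ σ ∈ Om, g σ * g (σ * swap x x') := by
      rw [Finset.mul_sum, ← Finset.sum_add_distrib, ← Finset.sum_sub_distrib]
      apply Finset.sum_congr rfl
      intro σ _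
      ring
    rw [h2, h1, Finset.sum_sub_distrib]
    ring
  rw [Finset.sum_congr rfl (fun x hx => Finset.sum_congr rfl (fun x' hx' => e2 x hx x' hx'))] at e1
  have e3 : ∑ x ∈ F, ∑ x' ∈ F, (1 / 2 : ℝ) * ∑ σ ∈ Om, (g (σ * swap x x') - g σ) ^ 2 =
      (1 / 2) * ∑ σ ∈ Om, ∑ x ∈ F, ∑ x' ∈ F, (g (σ * swap x x') - g σ) ^ 2 := by
    rw [Finset.sum_comm (s := Om) (t := F), Finset.mul_sum]
    apply Finset.sum_congr rfl
    intro x _
    rw [Finset.sum_comm (s := Om) (t := F), Finset.mul_sum]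
  rw [e3] at e1
  have e4 : ∑ σ ∈ Om, ∑ x ∈ F, ∑ x' ∈ F, (g (σ * swap x x') - g σ) ^ 2 ≤
      ∑ σ ∈ Om, (8 * BB b + 8 * F.card * SF F b σ) :=
    Finset.sum_le_sum fun σ _ => sum_sq_swap_le F b σ
  have e5 : ∑ σ ∈ Om, (8 * BB b + 8 * F.card * SF F b σ) =
      8 * ∑ σ ∈ Om, (BB b + F.card * SF F b σ) := by
    rw [Finset.mul_sum]
    apply Finset.sum_congr rfl
    intro σ _
    ring
  rw [e5] at e4
  have e6 : 2 * (F.card : ℝ) * ∑ σ ∈ Om, (g σ) ^ 2 ≤
      4 * ∑ σ ∈ Om, (BB b + F.card * SF F b σ) := by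
    rw [e1]; linarith
  rw [div_mul_eq_mul_div, le_div_iff₀ hF']
  linarith

lemma quartic_ineq (u v : ℝ) : (u - v) * (u ^ 3 - v ^ 3) ≤ (3 / 2) * ((u - v) ^ 2 * (u ^ 2 + v ^ 2)) := by
  have : (u - v) * (u ^ 3 - v ^ 3) = (u - v) ^ 2 * (u ^ 2 + u * v + v ^ 2) := by ring
  rw [this]
  have h1 : u ^ 2 + u * v + v ^ 2 ≤ (3 / 2) * (u ^ 2 + v ^ 2) := by nlinarith [sq_nonneg (u - v)]
  have h2 := mul_le_mul_of_nonneg_left h1 (sq_nonneg (u - v))
  linarith

lemma EP.fourth {F : Finset α} {Om : Finset (Perm α)} {b : α → α → ℝ} (h : EP F Om b)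
    (hF : 0 < F.card) :
    ∑ σ ∈ Om, (gF F b σ) ^ 4 ≤
      (6 / F.card) * ∑ σ ∈ Om, (BB b + F.card * SF F b σ) * (gF F b σ) ^ 2 := by
  have hF' : (0 : ℝ) < F.card := by exact_mod_cast hF
  set g := gF F b with hg
  have e1 : 2 * F.card * ∑ σ ∈ Om, (g σ) ^ 4 =
      ∑ x ∈ F, ∑ x' ∈ F, ∑ σ ∈ Om, ((g σ) ^ 4 - (g σ) ^ 3 * g (σ * swap x x')) := by
    have : ∀ σ ∈ Om, 2 * F.card * (g σ) ^ 4 =
        ∑ x ∈ F, ∑ x' ∈ F, ((g σ) ^ 4 - (g σ) ^ 3 * g (σ * swap x x')) := by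
      intro σ hσ
      have h1 := h.ident hσ
      have h2 : ∑ x ∈ F, ∑ x' ∈ F, ((g σ) ^ 4 - (g σ) ^ 3 * g (σ * swap x x')) =
          -(g σ) ^ 3 * ∑ x ∈ F, ∑ x' ∈ F, (g (σ * swap x x') - g σ) := by
        rw [Finset.mul_sum]
        apply Finset.sum_congr rfl
        intro x _
        rw [Finset.mul_sum]
        apply Finset.sum_congr rfl
        intro x' _
        ring
      rw [h2, h1]
      ring
    rw [Finset.mul_sum, Finset.sum_congr rfl this, Finset.sum_comm]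
    apply Finset.sum_congr rfl
    intro x _
    rw [Finset.sum_comm]
  have e2 : ∀ x ∈ F, ∀ x' ∈ F, ∑ σ ∈ Om, ((g σ) ^ 4 - (g σ) ^ 3 * g (σ * swap x x')) ≤
      (3 / 2) * ∑ σ ∈ Om, (g (σ * swap x x') - g σ) ^ 2 * (g σ) ^ 2 := by
    intro x hx x' hx'
    have hcl : ∀ σ ∈ Om, σ * swap x x' ∈ Om := fun σ hσ => h.closed σ hσ x hx x' hx'
    have h0 : ∀ σ : Perm α, σ * swap x x' * swap x x' = σ := fun σ => by
      rw [mul_assoc, swap_mul_self, mul_one]
    have h1 := sum_swap_invol hcl (fun σ => (g σ) ^ 4 - (g σ) ^ 3 * g (σ * swap x x'))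
    have h2 := sum_swap_invol hcl (fun σ => (g (σ * swap x x') - g σ) ^ 2 * (g σ) ^ 2)
    simp only [h0] at h1 h2
    have h3 : ∑ σ ∈ Om, ((g σ) ^ 4 - (g σ) ^ 3 * g (σ * swap x x')) +
        ∑ σ ∈ Om, ((g (σ * swap x x')) ^ 4 - (g (σ * swap x x')) ^ 3 * g σ) ≤
        (3 / 2) * (∑ σ ∈ Om, (g (σ * swap x x') - g σ) ^ 2 * (g σ) ^ 2 +
          ∑ σ ∈ Om, (g σ - g (σ * swap x x')) ^ 2 * (g (σ * swap x x')) ^ 2) := by
      rw [← Finset.sum_add_distrib, ← Finset.sum_add_distrib, Finset.mul_sum]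
      apply Finset.sum_le_sum
      intro σ _
      have := quartic_ineq (g σ) (g (σ * swap x x'))
      nlinarith
    rw [h1, h2] at h3
    linarith
  have e3 : ∑ x ∈ F, ∑ x' ∈ F, (3 / 2 : ℝ) *
      ∑ σ ∈ Om, (g (σ * swap x x') - g σ) ^ 2 * (g σ) ^ 2 =
      (3 / 2) * ∑ σ ∈ Om, (∑ x ∈ F, ∑ x' ∈ F, (g (σ * swap x x') - g σ) ^ 2) * (g σ) ^ 2 := by
    simp only [Finset.sum_mul]
    rw [Finset.sum_comm (s := Om) (t := F), Finset.mul_sum]
    apply Finset.sum_congr rfl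
    intro x _
    rw [Finset.sum_comm (s := Om) (t := F), Finset.mul_sum]
  have e4 : ∑ σ ∈ Om, (∑ x ∈ F, ∑ x' ∈ F, (g (σ * swap x x') - g σ) ^ 2) * (g σ) ^ 2 ≤
      ∑ σ ∈ Om, (8 * BB b + 8 * F.card * SF F b σ) * (g σ) ^ 2 :=
    Finset.sum_le_sum fun σ _ => mul_le_mul_of_nonneg_right (sum_sq_swap_le F b σ) (sq_nonneg _)
  have e5 : ∑ σ ∈ Om, (8 * BB b + 8 * F.card * SF F b σ) * (g σ) ^ 2 =
      8 * ∑ σ ∈ Om, (BB b + F.card * SF F b σ) * (g σ) ^ 2 := by
    rw [Finset.mul_sum]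
    apply Finset.sum_congr rfl
    intro σ _
    ring
  have e6 : 2 * (F.card : ℝ) * ∑ σ ∈ Om, (g σ) ^ 4 ≤
      12 * ∑ σ ∈ Om, (BB b + F.card * SF F b σ) * (g σ) ^ 2 := by
    calc 2 * (F.card : ℝ) * ∑ σ ∈ Om, (g σ) ^ 4
        ≤ ∑ x ∈ F, ∑ x' ∈ F, (3 / 2 : ℝ) *
          ∑ σ ∈ Om, (g (σ * swap x x') - g σ) ^ 2 * (g σ) ^ 2 := by
          rw [e1]
          exact Finset.sum_le_sum fun x hx => Finset.sum_le_sum fun x' hx' => e2 x hx x' hx'
      _ ≤ _ := by rw [e3]; linarith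
  rw [div_mul_eq_mul_div, le_div_iff₀ hF']
  linarith

lemma ep_univ {b : α → α → ℝ} (hrow : ∀ x, ∑ y, b x y = 0) (hcol : ∀ y, ∑ x, b x y = 0) :
    EP Finset.univ Finset.univ b where
  closed := fun _ _ _ _ _ _ => Finset.mem_univ _
  row := fun σ _ x _ => by rw [Equiv.sum_comp σ (fun y => b x y), hrow x]
  col := fun σ _ x _ => hcol _

lemma sum_SF_univ (b : α → α → ℝ) (hc : 3 ≤ Fintype.card α) :
    ∑ σ : Perm α, SF Finset.univ b σ =
      ((Fintype.card (Perm α) : ℝ) / Fintype.card α) * BB b := by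
  unfold SF BB
  rw [Finset.sum_comm, Finset.mul_sum]
  apply Finset.sum_congr rfl
  intro x _
  rw [sum_one evStable_univ hc x (fun y => (b x y) ^ 2), Finset.card_univ]

lemma sum_SF_sq_univ (b : α → α → ℝ) (hc : 4 ≤ Fintype.card α) {β : ℝ}
    (hβ : ∀ x y, (b x y) ^ 2 ≤ β ^ 2) :
    ∑ σ : Perm α, (SF Finset.univ b σ) ^ 2 ≤
      (Fintype.card (Perm α) : ℝ) * (β ^ 2 * (BB b / Fintype.card α) +
        2 * (BB b / Fintype.card α) ^ 2) := by
  have hn : (4 : ℝ) ≤ Fintype.card α := by exact_mod_cast hc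
  set n : ℝ := (Fintype.card α : ℝ) with hndef
  set P : ℝ := (Fintype.card (Perm α) : ℝ) with hP
  have hP0 : 0 ≤ P := by rw [hP]; positivity
  have e1 : ∑ σ : Perm α, (SF Finset.univ b σ) ^ 2 =
      ∑ x, ∑ x', ∑ σ : Perm α, (b x (σ x)) ^ 2 * (b x' (σ x')) ^ 2 := by
    unfold SF
    simp only [pow_two (∑ x, _), Finset.sum_mul_sum]
    rw [Finset.sum_comm]
    apply Finset.sum_congr rfl
    intro x _
    rw [Finset.sum_comm]
  have e2 : ∀ x x', ∑ σ : Perm α, (b x (σ x)) ^ 2 * (b x' (σ x')) ^ 2 ≤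
      (if x = x' then (P / n) * (β ^ 2 * ∑ y, (b x y) ^ 2) else 0) +
        (P / (n * (n - 1))) * ((∑ y, (b x y) ^ 2) * ∑ y, (b x' y) ^ 2) := by
    intro x x'
    have hnonneg : 0 ≤ (P / (n * (n - 1))) * ((∑ y, (b x y) ^ 2) * ∑ y, (b x' y) ^ 2) := by
      apply mul_nonneg
      · apply div_nonneg hP0
        nlinarith
      · exact mul_nonneg (Finset.sum_nonneg fun _ _ => sq_nonneg _)
          (Finset.sum_nonneg fun _ _ => sq_nonneg _)
    by_cases h : x = x'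
    · subst h
      rw [if_pos rfl]
      have h1 : ∑ σ : Perm α, (b x (σ x)) ^ 2 * (b x (σ x)) ^ 2 ≤
          (P / n) * (β ^ 2 * ∑ y, (b x y) ^ 2) := by
        rw [sum_one evStable_univ (by omega) x (fun y => (b x y) ^ 2 * (b x y) ^ 2),
          Finset.card_univ, Finset.mul_sum (s := Finset.univ) (a := β ^ 2)]
        apply mul_le_mul_of_nonneg_left _ (div_nonneg hP0 (by linarith))
        apply Finset.sum_le_sum
        intro y _
        exact mul_le_mul_of_nonneg_right (hβ x y) (sq_nonneg _)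
      linarith
    · rw [if_neg h, zero_add]
      rw [sum_pair evStable_univ hc (Ne.symm h) (fun y w => (b x y) ^ 2 * (b x' w) ^ 2),
        Finset.card_univ]
      apply mul_le_mul_of_nonneg_left _ (by
        apply div_nonneg hP0
        nlinarith)
      rw [Finset.sum_mul_sum]
      apply Finset.sum_le_sum
      intro y _
      exact Finset.sum_le_sum_of_subset_of_nonneg (Finset.erase_subset _ _)
        (fun _ _ _ => mul_nonneg (sq_nonneg _) (sq_nonneg _))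
  rw [e1]
  refine (Finset.sum_le_sum fun x _ => Finset.sum_le_sum fun x' _ => e2 x x').trans ?_
  simp only [Finset.sum_add_distrib, Finset.sum_ite_eq, Finset.mem_univ, if_true]
  have e3 : ∑ x, (P / n) * (β ^ 2 * ∑ y, (b x y) ^ 2) = (P / n) * (β ^ 2 * BB b) := by
    unfold BB
    rw [← Finset.mul_sum, ← Finset.mul_sum]
  have e4 : ∑ x, ∑ x', (P / (n * (n - 1))) * ((∑ y, (b x y) ^ 2) * ∑ y, (b x' y) ^ 2) =
      (P / (n * (n - 1))) * (BB b * BB b) := by
    unfold BB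
    rw [Finset.sum_mul_sum]
    simp only [Finset.mul_sum]
  rw [e3, e4]
  have hB : 0 ≤ BB b := Finset.sum_nonneg fun _ _ => Finset.sum_nonneg fun _ _ => sq_nonneg _
  have e5 : (P / (n * (n - 1))) * (BB b * BB b) ≤ P * (2 * (BB b / n) ^ 2) := by
    have : (P / (n * (n - 1))) * (BB b * BB b) = P * ((n / (n - 1)) * (BB b / n) ^ 2) := by
      have h1 : n ≠ 0 := by linarith
      have h2 : n - 1 ≠ 0 := by linarith
      field_simp
    rw [this]
    apply mul_le_mul_of_nonneg_left _ hP0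
    apply mul_le_mul_of_nonneg_right _ (sq_nonneg _)
    rw [div_le_iff₀ (by linarith)]
    linarith
  have e6 : (P / n) * (β ^ 2 * BB b) = P * (β ^ 2 * (BB b / n)) := by ring
  rw [e6]
  linarith

/-- Fourth moment bound. -/
theorem fourth_moment {b : α → α → ℝ} (hrow : ∀ x, ∑ y, b x y = 0)
    (hcol : ∀ y, ∑ x, b x y = 0) (hc : 4 ≤ Fintype.card α) {β : ℝ}
    (hβ : ∀ x y, (b x y) ^ 2 ≤ β ^ 2) :
    ∑ σ : Perm α, (gF Finset.univ b σ) ^ 4 ≤
      (Fintype.card (Perm α) : ℝ) * (120 * (BB b / Fintype.card α) ^ 2 +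
        36 * (β ^ 2 * (BB b / Fintype.card α))) := by
  have hn : (4 : ℝ) ≤ Fintype.card α := by exact_mod_cast hc
  have hcu : (Finset.univ : Finset α).card = Fintype.card α := Finset.card_univ
  have hEP := ep_univ hrow hcol
  have h2 := hEP.second (by rw [hcu]; omega)
  have h4 := hEP.fourth (by rw [hcu]; omega)
  have hS := sum_SF_univ b (by omega)
  have hS2 := sum_SF_sq_univ b hc hβ
  have hB : 0 ≤ BB b := Finset.sum_nonneg fun _ _ => Finset.sum_nonneg fun _ _ => sq_nonneg _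
  rw [hcu] at h2 h4
  set n : ℝ := (Fintype.card α : ℝ) with hndef
  set P : ℝ := (Fintype.card (Perm α) : ℝ) with hP
  set g := gF Finset.univ b with hg
  set S := SF Finset.univ b with hSdef
  set W := BB b / n with hW
  have hn0 : n ≠ 0 := by linarith
  have hBW : BB b = n * W := by rw [hW]; field_simp
  -- second moment
  have m2 : ∑ σ : Perm α, (g σ) ^ 2 ≤ 4 * P * W := by
    refine h2.trans (le_of_eq ?_)
    rw [Finset.sum_add_distrib, ← Finset.mul_sum, hS, Finset.sum_const, Finset.card_univ,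
      nsmul_eq_mul, hBW]
    field_simp
    ring
  have m4 : ∑ σ : Perm α, (g σ) ^ 4 ≤ 6 * W * ∑ σ : Perm α, (g σ) ^ 2 +
      (1 / 2 * ∑ σ : Perm α, (g σ) ^ 4 + 18 * ∑ σ : Perm α, (S σ) ^ 2) := by
    refine h4.trans ?_
    rw [Finset.mul_sum, Finset.mul_sum, Finset.mul_sum, Finset.mul_sum,
      ← Finset.sum_add_distrib, ← Finset.sum_add_distrib]
    apply Finset.sum_le_sum
    intro σ _
    have e1 : 6 / n * ((BB b + n * S σ) * (g σ) ^ 2) = 6 * W * (g σ) ^ 2 + 6 * (S σ * (g σ) ^ 2) := by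
      rw [hBW]; field_simp
    rw [e1]
    have e2 : 6 * (S σ * (g σ) ^ 2) ≤ 1 / 2 * (g σ) ^ 4 + 18 * (S σ) ^ 2 := by
      nlinarith [sq_nonneg ((g σ) ^ 2 - 6 * S σ)]
    linarith
  have hW0 : 0 ≤ W := div_nonneg hB (by linarith)
  have m2' := mul_le_mul_of_nonneg_left m2 (show 0 ≤ 6 * W by positivity)
  have key : ∑ σ : Perm α, (g σ) ^ 4 ≤ 48 * P * W ^ 2 + 36 * (P * (β ^ 2 * W + 2 * W ^ 2)) := by
    nlinarith
  refine key.trans (le_of_eq ?_)
  ring

/-- Second moment on a coset of a point stabilizer. -/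
theorem second_moment_coset {b : α → α → ℝ} (hrow : ∀ x, ∑ y, b x y = 0)
    (hcol : ∀ y, ∑ x, b x y = 0) (hc : 4 ≤ Fintype.card α) {x0 y0 : α}
    (hx0 : ∀ y, b x0 y = 0) (hy0 : ∀ x, b x y0 = 0) :
    ∑ σ ∈ Finset.univ.filter (fun σ : Perm α => σ x0 = y0), (gF Finset.univ b σ) ^ 2 ≤
      (4 * (Fintype.card (Perm α) : ℝ) / (Fintype.card α * (Fintype.card α - 1))) * BB b := by
  have hn : (4 : ℝ) ≤ Fintype.card α := by exact_mod_cast hc
  set Om := Finset.univ.filter (fun σ : Perm α => σ x0 = y0) with hOm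
  set F := Finset.univ.erase x0 with hF
  have hcF : F.card = Fintype.card α - 1 := by
    rw [hF, Finset.card_erase_of_mem (Finset.mem_univ _), Finset.card_univ]
  have hcF' : (F.card : ℝ) = Fintype.card α - 1 := by
    rw [hcF, Nat.cast_sub (by omega)]; simp
  have hg : ∀ σ : Perm α, gF Finset.univ b σ = gF F b σ := by
    intro σ
    unfold gF
    rw [← Finset.add_sum_erase Finset.univ _ (Finset.mem_univ x0), hx0, zero_add]
  have hEP : EP F Om b := by
    refine ⟨?_, ?_, ?_⟩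
    · intro σ hσ x hx x' hx'
      rw [hOm, Finset.mem_filter] at hσ ⊢
      refine ⟨Finset.mem_univ _, ?_⟩
      rw [Perm.mul_apply, swap_apply_of_ne_of_ne (Finset.ne_of_mem_erase hx).symm
        (Finset.ne_of_mem_erase hx').symm, hσ.2]
    · intro σ hσ x _
      rw [hOm, Finset.mem_filter] at hσ
      have h1 : ∑ x', b x (σ x') = 0 := by
        rw [Equiv.sum_comp σ (fun y => b x y), hrow x]
      rw [← Finset.add_sum_erase Finset.univ _ (Finset.mem_univ x0), hσ.2, hy0, zero_add] at h1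
      exact h1
    · intro σ _ x _
      have h1 := hcol (σ x)
      rw [← Finset.add_sum_erase Finset.univ _ (Finset.mem_univ x0), hx0, zero_add] at h1
      exact h1
  have h2 := hEP.second (by rw [hcF]; omega)
  rw [Finset.sum_congr rfl (fun σ _ => by rw [hg σ])]
  refine h2.trans ?_
  rw [Finset.sum_add_distrib, ← Finset.mul_sum, Finset.sum_const, nsmul_eq_mul]
  have hcOm : (Om.card : ℝ) = (Fintype.card (Perm α) : ℝ) / Fintype.card α := by
    have := card_fiber (evStable_univ (α := α)) (by omega) x0 y0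
    rw [Finset.card_univ] at this
    rw [eq_div_iff (by linarith), ← this, hOm]
    push_cast
    ring
  have hSF : ∑ σ ∈ Om, SF F b σ ≤
      ((Fintype.card (Perm α) : ℝ) / (Fintype.card α * (Fintype.card α - 1))) * BB b := by
    unfold SF
    rw [Finset.sum_comm]
    have e1 : ∀ x ∈ F, ∑ σ ∈ Om, (b x (σ x)) ^ 2 ≤
        ((Fintype.card (Perm α) : ℝ) / (Fintype.card α * (Fintype.card α - 1))) *
          ∑ y, (b x y) ^ 2 := by
      intro x hx
      have := sum_two (evStable_univ (α := α)) hc (x := x0) (x' := x) (y := y0)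
        (Finset.ne_of_mem_erase hx) (fun w => (b x w) ^ 2)
      rw [hOm, this, Finset.card_univ]
      apply mul_le_mul_of_nonneg_left
      · exact Finset.sum_le_sum_of_subset_of_nonneg (Finset.erase_subset _ _)
          (fun _ _ _ => sq_nonneg _)
      · apply div_nonneg (by positivity)
        nlinarith
    refine (Finset.sum_le_sum e1).trans ?_
    rw [← Finset.mul_sum]
    apply mul_le_mul_of_nonneg_left
    · unfold BB
      exact Finset.sum_le_sum_of_subset_of_nonneg (Finset.subset_univ _)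
        (fun _ _ _ => Finset.sum_nonneg fun _ _ => sq_nonneg _)
    · apply div_nonneg (by positivity)
      nlinarith
  rw [hcOm, hcF']
  set n : ℝ := (Fintype.card α : ℝ) with hndef
  set P : ℝ := (Fintype.card (Perm α) : ℝ) with hP
  have hn1 : 0 < n - 1 := by linarith
  have hn0 : n ≠ 0 := by linarith
  have h3 : (n - 1) * ∑ σ ∈ Om, SF F b σ ≤ P / n * BB b := by
    have := mul_le_mul_of_nonneg_left hSF hn1.le
    refine this.trans (le_of_eq ?_)
    field_simp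
  calc 2 / (n - 1) * (P / n * BB b + (n - 1) * ∑ σ ∈ Om, SF F b σ)
      ≤ 2 / (n - 1) * (P / n * BB b + P / n * BB b) := by
        apply mul_le_mul_of_nonneg_left _ (by positivity)
        linarith
    _ = 4 * P / (n * (n - 1)) * BB b := by field_simp; ring

end Pool.Agent.Helper75.Ekr
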