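import Pool.Agent.Helper75.Ekr.Count

/-!
A constant proportion of the even permutations with `e x = y` avoid both the identity and a given
permutation `d` (switching argument with three-cycles).
-/

namespace Pool.Agent.Helper75.Ekr

open Equiv Equiv.Perm

set_option linter.unusedSectionVars false
set_option linter.unusedSimpArgs false

variable {α : Type} [Fintype α] [DecidableEq α]

/-- Points where `e` meets the identity or `d`. -/
def hit (d e : Perm α) : Finset α := Finset.univ.filter (fun z => e z = z ∨ e z = d z)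

lemma mem_hit {d e : Perm α} {z : α} : z ∈ hit d e ↔ e z = z ∨ e z = d z := by simp [hit]

/-- Even permutations with `e x = y`. -/
def Om (x y : α) : Finset (Perm α) := (AA α).filter (fun e => e x = y)

lemma mem_Om {x y : α} {e : Perm α} : e ∈ Om x y ↔ sign e = 1 ∧ e x = y := by
  simp [Om, mem_AA]

/-- Those with exactly `k` hits. -/
def Ak (d : Perm α) (x y : α) (k : ℕ) : Finset (Perm α) :=
  (Om x y).filter (fun e => (hit d e).card = k)

/-- Allowed first switching points. -/
def Z1 (d : Perm α) (x : α) (e : Perm α) (z : α) : Finset α :=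
  (hit d e ∪ {x, e⁻¹ z, e⁻¹ (d z)})ᶜ

/-- Allowed second switching points. -/
def Z2 (d : Perm α) (x : α) (e : Perm α) (z z' : α) : Finset α :=
  (hit d e ∪ {x, z', e⁻¹ z', e⁻¹ (d z'), e z, d⁻¹ (e z)})ᶜ

lemma card_Z1 (d : Perm α) (x : α) (e : Perm α) (z : α) (h : (hit d e).card ≤ 3) :
    Fintype.card α - 10 ≤ (Z1 d x e z).card := by
  unfold Z1
  rw [Finset.card_compl]
  have h1 := Finset.card_union_le (hit d e) {x, e⁻¹ z, e⁻¹ (d z)}
  have h2 : ({x, e⁻¹ z, e⁻¹ (d z)} : Finset α).card ≤ 3 := Finset.card_le_three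
  omega

lemma card_Z2 (d : Perm α) (x : α) (e : Perm α) (z z' : α) (h : (hit d e).card ≤ 3) :
    Fintype.card α - 10 ≤ (Z2 d x e z z').card := by
  unfold Z2
  rw [Finset.card_compl]
  have h1 := Finset.card_union_le (hit d e) {x, z', e⁻¹ z', e⁻¹ (d z'), e z, d⁻¹ (e z)}
  have h2 : ({x, z', e⁻¹ z', e⁻¹ (d z'), e z, d⁻¹ (e z)} : Finset α).card ≤ 6 :=
    Finset.card_le_six
  omega

lemma switch_step (d : Perm α) {x y : α} (hxy : y ≠ x) (hdxy : y ≠ d x) {k : ℕ} (hk : 1 ≤ k)
    (hk3 : k ≤ 3) :
    (Ak d x y k).card * (k * ((Fintype.card α - 10) * (Fintype.card α - 10))) ≤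
      (Ak d x y (k - 1)).card * (Fintype.card α * (Fintype.card α * 2)) := by
  classical
  set Q : Finset (Σ _ : Perm α, Σ _ : α, Σ _ : α, α) :=
    (Ak d x y k).sigma (fun e => (hit d e).sigma (fun z =>
      (Z1 d x e z).sigma (fun z' => Z2 d x e z z'))) with hQ
  have hlow : (Ak d x y k).card * (k * ((Fintype.card α - 10) * (Fintype.card α - 10))) ≤
      Q.card := by
    rw [hQ, Finset.card_sigma, ← smul_eq_mul, ← Finset.sum_const]
    apply Finset.sum_le_sum
    intro e he
    rw [Ak, Finset.mem_filter] at he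
    rw [Finset.card_sigma]
    calc k * ((Fintype.card α - 10) * (Fintype.card α - 10))
        = ∑ _z ∈ hit d e, ((Fintype.card α - 10) * (Fintype.card α - 10)) := by
          rw [Finset.sum_const, he.2, smul_eq_mul]
      _ ≤ _ := by
          apply Finset.sum_le_sum
          intro z _
          rw [Finset.card_sigma]
          calc (Fintype.card α - 10) * (Fintype.card α - 10)
              ≤ (Z1 d x e z).card * (Fintype.card α - 10) :=
                Nat.mul_le_mul_right _ (card_Z1 d x e z (by omega))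
            _ = ∑ _z' ∈ Z1 d x e z, (Fintype.card α - 10) := by
                rw [Finset.sum_const, smul_eq_mul]
            _ ≤ _ := Finset.sum_le_sum fun z' _ => card_Z2 d x e z z' (by omega)
  refine hlow.trans ?_
  -- the injection
  let φ : (Σ _ : Perm α, Σ _ : α, Σ _ : α, α) → Perm α × α × α × Bool := fun q =>
    (q.1 * c3 q.2.1 q.2.2.1 q.2.2.2, q.2.1, q.2.2.1, decide (q.1 q.2.1 = q.2.1))
  have hcardT : ((Ak d x y (k - 1)) ×ˢ (Finset.univ : Finset (α × α × Bool))).card =
      (Ak d x y (k - 1)).card * (Fintype.card α * (Fintype.card α * 2)) := by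
    rw [Finset.card_product, Finset.card_univ, Fintype.card_prod, Fintype.card_prod,
      Fintype.card_bool]
  rw [← hcardT]
  -- unpack membership
  have hun : ∀ q ∈ Q, sign q.1 = 1 ∧ q.1 x = y ∧ (hit d q.1).card = k ∧
      (q.1 q.2.1 = q.2.1 ∨ q.1 q.2.1 = d q.2.1) ∧
      q.2.2.1 ∉ hit d q.1 ∧ q.2.2.1 ≠ x ∧ q.1 q.2.2.1 ≠ q.2.1 ∧ q.1 q.2.2.1 ≠ d q.2.1 ∧
      q.2.2.2 ∉ hit d q.1 ∧ q.2.2.2 ≠ x ∧ q.2.2.2 ≠ q.2.2.1 ∧ q.1 q.2.2.2 ≠ q.2.2.1 ∧
      q.1 q.2.2.2 ≠ d q.2.2.1 ∧ q.2.2.2 ≠ q.1 q.2.1 ∧ d q.2.2.2 ≠ q.1 q.2.1 := by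
    rintro ⟨e, z, z', z''⟩ hq
    rw [hQ] at hq
    simp only [Finset.mem_sigma, Ak, Finset.mem_filter, mem_Om, mem_hit, Z1, Z2,
      Finset.mem_compl, Finset.mem_union, Finset.mem_insert, Finset.mem_singleton, not_or] at hq
    obtain ⟨⟨⟨h1, h2⟩, h3⟩, h4, ⟨h5, h6, h7, h8⟩, h9, h10, h11, h12, h13, h14, h15⟩ := hq
    refine ⟨h1, h2, h3, h4, ?_, h6, ?_, ?_, ?_, h10, h11, ?_, ?_, h14, ?_⟩
    · rw [mem_hit]; tauto
    · intro h; apply h7; rw [Perm.eq_inv_iff_eq]; exact h
    · intro h; apply h8; rw [Perm.eq_inv_iff_eq]; exact h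
    · rw [mem_hit]; tauto
    · intro h; apply h12; rw [Perm.eq_inv_iff_eq]; exact h
    · intro h; apply h13; rw [Perm.eq_inv_iff_eq]; exact h
    · intro h; apply h15; rw [Perm.eq_inv_iff_eq]; exact h
  have hne : ∀ q ∈ Q, q.2.1 ≠ x ∧ q.2.1 ≠ q.2.2.1 ∧ q.2.1 ≠ q.2.2.2 ∧ q.2.2.1 ≠ q.2.2.2 := by
    intro q hq
    obtain ⟨h1, h2, h3, h4, h5, h6, h7, h8, h9, h10, h11, -⟩ := hun q hq
    refine ⟨?_, ?_, ?_, Ne.symm h11⟩
    · intro h
      rw [h, h2] at h4
      rcases h4 with h4 | h4
      · exact hxy h4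
      · exact hdxy h4
    · intro h; apply h5; rw [mem_hit, ← h]; exact h4
    · intro h; apply h9; rw [mem_hit, ← h]; exact h4
  apply Finset.card_le_card_of_injOn φ
  · -- maps into the target
    intro q hq
    have hq' : q ∈ Q := hq
    obtain ⟨h1, h2, h3, h4, h5, h6, h7, h8, h9, h10, h11, h12, h13, h14, h15⟩ := hun q hq'
    obtain ⟨n1, n2, n3, n4⟩ := hne q hq'
    obtain ⟨e, z, z', z''⟩ := q
    simp only at h1 h2 h3 h4 h5 h6 h7 h8 h9 h10 h11 h12 h13 h14 h15 n1 n2 n3 n4
    simp only [φ, Finset.coe_product, Finset.coe_univ, Set.mem_prod, Finset.mem_coe,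
      Set.mem_univ, and_true]
    have a1 : (e * c3 z z' z'') z = e z' := by rw [Perm.mul_apply, c3_apply_left n2 n3]
    have a2 : (e * c3 z z' z'') z' = e z'' := by rw [Perm.mul_apply, c3_apply_mid n3 n4]
    have a3 : (e * c3 z z' z'') z'' = e z := by rw [Perm.mul_apply, c3_apply_right]
    have a4 : ∀ w, w ≠ z → w ≠ z' → w ≠ z'' → (e * c3 z z' z'') w = e w := by
      intro w hw1 hw2 hw3
      rw [Perm.mul_apply, c3_apply_of_ne hw1 hw2 hw3]
    rw [Ak, Finset.mem_filter, mem_Om]
    refine ⟨⟨?_, ?_⟩, ?_⟩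
    · rw [map_mul, h1, sign_c3 (by simp [n2, n3, n4]), one_mul]
    · rw [a4 x (Ne.symm n1) (Ne.symm h6) (Ne.symm h10), h2]
    · have : hit d (e * c3 z z' z'') = (hit d e).erase z := by
        ext w
        rw [Finset.mem_erase, mem_hit, mem_hit]
        by_cases w1 : w = z
        · subst w1
          rw [a1]
          simp [h7, h8]
        by_cases w2 : w = z'
        · subst w2
          rw [a2]
          rw [mem_hit, not_or] at h5
          simp [h12, h13, h5, w1]
        by_cases w3 : w = z''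
        · subst w3
          rw [a3]
          rw [mem_hit, not_or] at h9
          simp [Ne.symm h14, Ne.symm h15, h9, w1]
        rw [a4 w w1 w2 w3]
        simp [w1]
      rw [this, Finset.card_erase_of_mem (by rw [mem_hit]; exact h4), h3]
  · -- injectivity
    intro q hq q' hq' hφ
    have hq1 : q ∈ Q := hq
    have hq1' : q' ∈ Q := hq'
    obtain ⟨-, -, -, h4, -⟩ := hun q hq1
    obtain ⟨-, -, -, h4', -⟩ := hun q' hq1'
    obtain ⟨e, z, z', z''⟩ := q
    obtain ⟨e', w, w', w''⟩ := q'
    simp only [φ, Prod.mk.injEq] at hφ h4 h4'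
    obtain ⟨f1, f2, f3, f4⟩ := hφ
    subst f2 f3
    have hv : e z = e' z := by
      by_cases hz : e z = z
      · have : e' z = z := by
          by_contra hc
          simp [hz, hc] at f4
        rw [hz, this]
      · have hz' : e' z ≠ z := by
          intro hc
          simp [hz, hc] at f4
        rcases h4 with h4 | h4
        · exact absurd h4 hz
        rcases h4' with h4' | h4'
        · exact absurd h4' hz'
        rw [h4, h4']
    have hz'' : z'' = w'' := by
      have e1 : (e * c3 z z' z'') z'' = e z := by rw [Perm.mul_apply, c3_apply_right]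
      have e2 : (e' * c3 z z' w'') w'' = e' z := by rw [Perm.mul_apply, c3_apply_right]
      rw [← f1] at e2
      exact (e * c3 z z' z'').injective (by rw [e1, e2, hv])
    subst hz''
    have : e = e' := mul_right_cancel f1
    subst this
    rfl

/-- Average number of hits. -/
lemma sum_hit_le (d : Perm α) {x y : α} (hxy : y ≠ x) (hdxy : y ≠ d x)
    (hc : 4 ≤ Fintype.card α) :
    ∑ e ∈ Om x y, (hit d e).card ≤ 2 * (Om x y).card := by
  classical
  have h1 : ∑ e ∈ Om x y, (hit d e).card =
      ∑ z, ((Om x y).filter (fun e => e z = z ∨ e z = d z)).card := by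
    simp only [hit, Finset.card_filter]
    rw [Finset.sum_comm]
  have hb : ∀ z w, z ≠ x → (Fintype.card α - 1) * ((Om x y).filter (fun e => e z = w)).card ≤
      (Om x y).card := by
    intro z w hz
    by_cases hw : w = y
    · have : (Om x y).filter (fun e => e z = w) = ∅ := by
        rw [Finset.filter_eq_empty_iff]
        intro e he h
        rw [mem_Om] at he
        apply hz
        apply e.injective
        rw [h, he.2, hw]
      rw [this]; simp
    · have := card_fiber2 (evStable_AA (α := α)) hc (x := x) (x' := z) (y := y) (w := w) hz hw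
      rw [Om, Finset.filter_filter, this]
  have h2 : ∀ z, (Fintype.card α - 1) *
      ((Om x y).filter (fun e => e z = z ∨ e z = d z)).card ≤
      if z = x then 0 else 2 * (Om x y).card := by
    intro z
    by_cases hz : z = x
    · rw [if_pos hz]
      have : (Om x y).filter (fun e => e z = z ∨ e z = d z) = ∅ := by
        rw [Finset.filter_eq_empty_iff]
        intro e he h
        rw [mem_Om] at he
        rw [hz, he.2] at h
        rcases h with h | h
        · exact hxy h
        · exact hdxy h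
      rw [this]; simp
    · rw [if_neg hz, Finset.filter_or]
      have e1 := Finset.card_union_le ((Om x y).filter (fun e => e z = z))
        ((Om x y).filter (fun e => e z = d z))
      have e2 := hb z z hz
      have e3 := hb z (d z) hz
      calc _ ≤ (Fintype.card α - 1) * (((Om x y).filter (fun e => e z = z)).card +
            ((Om x y).filter (fun e => e z = d z)).card) := Nat.mul_le_mul_left _ e1
        _ ≤ _ := by rw [mul_add]; omega
  have h3 : (Fintype.card α - 1) * ∑ e ∈ Om x y, (hit d e).card ≤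
      (Fintype.card α - 1) * (2 * (Om x y).card) := by
    rw [h1, Finset.mul_sum]
    refine (Finset.sum_le_sum fun z _ => h2 z).trans (le_of_eq ?_)
    rw [Finset.sum_ite, Finset.sum_const_zero, zero_add, Finset.sum_const, smul_eq_mul]
    congr 1
    have : Finset.univ.filter (fun z => ¬ z = x) = Finset.univ.erase x := by
      ext z; simp
    rw [this, Finset.card_erase_of_mem (Finset.mem_univ _), Finset.card_univ]
  exact Nat.le_of_mul_le_mul_left h3 (by omega)

/-- The counting lemma. -/
theorem count_avoid (d : Perm α) {x y : α} (hxy : y ≠ x) (hdxy : y ≠ d x)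
    (hc : 4000 ≤ Fintype.card α) :
    (Om x y).card ≤ 13 * ((Om x y).filter (fun e => ∀ z, e z ≠ z ∧ e z ≠ d z)).card := by
  classical
  have hA0 : Ak d x y 0 = (Om x y).filter (fun e => ∀ z, e z ≠ z ∧ e z ≠ d z) := by
    unfold Ak
    apply Finset.filter_congr
    intro e _
    rw [Finset.card_eq_zero, Finset.eq_empty_iff_forall_notMem]
    simp only [mem_hit, not_or, ne_eq]
  rw [← hA0]
  have s1 := switch_step d hxy hdxy (k := 1) le_rfl (by omega)
  have s2 := switch_step d hxy hdxy (k := 2) (by omega) (by omega)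
  have s3 := switch_step d hxy hdxy (k := 3) (by omega) (by omega)
  simp only [show 1 - 1 = 0 from rfl, show 2 - 1 = 1 from rfl, show 3 - 1 = 2 from rfl] at s1 s2 s3
  have hsum := sum_hit_le d hxy hdxy (by omega)
  -- Markov
  have hpart : (Om x y).card ≤ (Ak d x y 0).card + (Ak d x y 1).card + (Ak d x y 2).card +
      (Ak d x y 3).card + ((Om x y).filter (fun e => 4 ≤ (hit d e).card)).card := by
    have : Om x y ⊆ ((((Ak d x y 0 ∪ Ak d x y 1) ∪ Ak d x y 2) ∪ Ak d x y 3) ∪
        (Om x y).filter (fun e => 4 ≤ (hit d e).card)) := by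
      intro e he
      simp only [Finset.mem_union, Ak, Finset.mem_filter, he, true_and]
      omega
    refine (Finset.card_le_card this).trans ?_
    refine (Finset.card_union_le _ _).trans ?_
    gcongr
    refine (Finset.card_union_le _ _).trans ?_
    gcongr
    refine (Finset.card_union_le _ _).trans ?_
    gcongr
    exact Finset.card_union_le _ _
  have hmark : 4 * ((Om x y).filter (fun e => 4 ≤ (hit d e).card)).card ≤
      ∑ e ∈ Om x y, (hit d e).card := by
    rw [mul_comm, ← smul_eq_mul, ← Finset.sum_const]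
    calc ∑ _e ∈ (Om x y).filter (fun e => 4 ≤ (hit d e).card), 4
        ≤ ∑ e ∈ (Om x y).filter (fun e => 4 ≤ (hit d e).card), (hit d e).card :=
          Finset.sum_le_sum fun e he => (Finset.mem_filter.1 he).2
      _ ≤ _ := Finset.sum_le_sum_of_subset (Finset.filter_subset _ _)
  -- real arithmetic
  have hn : (4000 : ℝ) ≤ Fintype.card α := by exact_mod_cast hc
  have r1 : ((Ak d x y 1).card : ℝ) * (1 * (((Fintype.card α : ℝ) - 10) * (Fintype.card α - 10)))
      ≤ (Ak d x y 0).card * (Fintype.card α * (Fintype.card α * 2)) := by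
    have : ((Fintype.card α - 10 : ℕ) : ℝ) = (Fintype.card α : ℝ) - 10 := by
      rw [Nat.cast_sub (by omega)]; simp
    rw [← this]
    exact_mod_cast s1
  have r2 : ((Ak d x y 2).card : ℝ) * (2 * (((Fintype.card α : ℝ) - 10) * (Fintype.card α - 10)))
      ≤ (Ak d x y 1).card * (Fintype.card α * (Fintype.card α * 2)) := by
    have : ((Fintype.card α - 10 : ℕ) : ℝ) = (Fintype.card α : ℝ) - 10 := by
      rw [Nat.cast_sub (by omega)]; simp
    rw [← this]
    exact_mod_cast s2
  have r3 : ((Ak d x y 3).card : ℝ) * (3 * (((Fintype.card α : ℝ) - 10) * (Fintype.card α - 10)))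
      ≤ (Ak d x y 2).card * (Fintype.card α * (Fintype.card α * 2)) := by
    have : ((Fintype.card α - 10 : ℕ) : ℝ) = (Fintype.card α : ℝ) - 10 := by
      rw [Nat.cast_sub (by omega)]; simp
    rw [← this]
    exact_mod_cast s3
  have r4 : ((Om x y).card : ℝ) ≤ (Ak d x y 0).card + (Ak d x y 1).card + (Ak d x y 2).card +
      (Ak d x y 3).card + ((Om x y).filter (fun e => 4 ≤ (hit d e).card)).card := by
    exact_mod_cast hpart
  have r5 : 4 * (((Om x y).filter (fun e => 4 ≤ (hit d e).card)).card : ℝ) ≤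
      2 * (Om x y).card := by
    exact_mod_cast hmark.trans hsum
  suffices h : ((Om x y).card : ℝ) ≤ 13 * (Ak d x y 0).card by exact_mod_cast h
  set n : ℝ := (Fintype.card α : ℝ) with hndef
  set a0 : ℝ := ((Ak d x y 0).card : ℝ) with ha0
  set a1 : ℝ := ((Ak d x y 1).card : ℝ) with ha1
  set a2 : ℝ := ((Ak d x y 2).card : ℝ) with ha2
  set a3 : ℝ := ((Ak d x y 3).card : ℝ) with ha3
  set v : ℝ := ((Om x y).card : ℝ) with hv
  have a0p : 0 ≤ a0 := by rw [ha0]; positivity
  have a1p : 0 ≤ a1 := by rw [ha1]; positivity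
  have a2p : 0 ≤ a2 := by rw [ha2]; positivity
  have a3p : 0 ≤ a3 := by rw [ha3]; positivity
  set m : ℝ := (n - 10) * (n - 10) with hm
  have hm0 : 0 < m := by rw [hm]; nlinarith
  have hnm : n * n ≤ 1.006 * m := by rw [hm]; nlinarith
  have q1 : a1 ≤ 2.012 * a0 := by
    have : a1 * m ≤ (2.012 * a0) * m := by nlinarith
    exact le_of_mul_le_mul_right this hm0
  have q2 : a2 ≤ 1.006 * a1 := by
    have : a2 * m ≤ (1.006 * a1) * m := by nlinarith
    exact le_of_mul_le_mul_right this hm0
  have q3 : a3 ≤ 0.6707 * a2 := by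
    have : a3 * m ≤ (0.6707 * a2) * m := by nlinarith
    exact le_of_mul_le_mul_right this hm0
  nlinarith

end Pool.Agent.Helper75.Ekr
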