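import Pool.Agent.Helper75.Ekr.Spectral
import Pool.Agent.Helper75.Ekr.Moments
import Pool.Agent.Helper75.Ekr.Switch

/-!
Decomposition of functions supported on the even permutations.
-/

namespace Pool.Agent.Helper75.Ekr

open Equiv Equiv.Perm

set_option linter.unusedSectionVars false
set_option linter.unusedSimpArgs false

variable {α : Type} [Fintype α] [DecidableEq α]

/-- Indicator function. -/
noncomputable def ind (S : Finset (Perm α)) : EE α :=
  WithLp.toLp 2 (fun σ => if σ ∈ S then 1 else 0)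

lemma ind_apply (S : Finset (Perm α)) (σ : Perm α) : ind S σ = if σ ∈ S then 1 else 0 := rfl

/-- The degree one function of the matrix `b`, supported on the even permutations. -/
noncomputable def Ub (b : α → α → ℝ) : EE α :=
  WithLp.toLp 2 (fun σ => if σ ∈ AA α then gF Finset.univ b σ else 0)

lemma Ub_apply (b : α → α → ℝ) (σ : Perm α) :
    Ub b σ = if σ ∈ AA α then gF Finset.univ b σ else 0 := rfl

/-- Sums over the even permutations with `σ x = y`. -/
noncomputable def cs (f : EE α) (x y : α) : ℝ := ∑ σ ∈ Om x y, f σ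

/-- Total sum over the even permutations. -/
noncomputable def tot (f : EE α) : ℝ := ∑ σ ∈ AA α, f σ

lemma sum_cs_right (f : EE α) (x : α) : ∑ y, cs f x y = tot f := by
  unfold cs tot Om
  exact Finset.sum_fiberwise (AA α) (fun σ : Perm α => σ x) (fun σ => f σ)

lemma sum_cs_left (f : EE α) (y : α) : ∑ x, cs f x y = tot f := by
  unfold cs tot Om
  simp only [Finset.sum_filter]
  rw [Finset.sum_comm]
  apply Finset.sum_congr rfl
  intro σ _
  rw [Finset.sum_eq_single (σ⁻¹ y)]
  · rw [if_pos (by simp)]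
  · intro x _ hx
    rw [if_neg]
    intro h
    apply hx
    rw [Perm.eq_inv_iff_eq, h]
  · intro h
    exact absurd (Finset.mem_univ _) h

lemma sum_cs_mul (f : EE α) (b : α → α → ℝ) :
    ∑ σ ∈ AA α, f σ * gF Finset.univ b σ = ∑ x, ∑ y, b x y * cs f x y := by
  unfold gF
  simp only [Finset.mul_sum]
  rw [Finset.sum_comm]
  apply Finset.sum_congr rfl
  intro x _
  rw [← Finset.sum_fiberwise (AA α) (fun σ : Perm α => σ x)]
  apply Finset.sum_congr rfl
  intro y _
  unfold cs Om
  rw [Finset.mul_sum]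
  apply Finset.sum_congr rfl
  intro σ hσ
  rw [(Finset.mem_filter.1 hσ).2]
  ring

lemma inner_Ub (f : EE α) (b : α → α → ℝ) :
    inner ℝ f (Ub b) = ∑ x, ∑ y, b x y * cs f x y := by
  rw [inner_eq, ← sum_cs_mul]
  simp only [Ub_apply, mul_ite, mul_zero]
  rw [← Finset.sum_filter]
  apply Finset.sum_congr _ (fun _ _ => rfl)
  ext σ; simp

lemma inner_ind (f : EE α) (S : Finset (Perm α)) : inner ℝ f (ind S) = ∑ σ ∈ S, f σ := by
  rw [inner_eq]
  simp only [ind_apply, mul_ite, mul_one, mul_zero]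
  rw [← Finset.sum_filter]
  apply Finset.sum_congr _ (fun _ _ => rfl)
  ext σ; simp

lemma cs_of_Zs {r : EE α} (hr : r ∈ Zs α) (x y : α) : cs r x y = 0 := by
  have h := hr x y 1
  unfold cs Om AA
  rw [Finset.filter_filter]
  rw [← h]
  apply Finset.sum_congr _ (fun _ _ => rfl)
  ext σ; simp [and_comm]

lemma inner_Zs_Ub {r : EE α} (hr : r ∈ Zs α) (b : α → α → ℝ) : inner ℝ r (Ub b) = 0 := by
  rw [inner_Ub]
  apply Finset.sum_eq_zero
  intro x _
  apply Finset.sum_eq_zero
  intro y _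
  rw [cs_of_Zs hr, mul_zero]

lemma inner_Zs_ind {r : EE α} (hr : r ∈ Zs α) [Nonempty α] : inner ℝ r (ind (AA α)) = 0 := by
  rw [inner_ind]
  have x : α := Classical.arbitrary α
  have := sum_cs_right r x
  unfold tot at this
  rw [← this]
  apply Finset.sum_eq_zero
  intro y _
  exact cs_of_Zs hr x y

lemma card_Om (hc : 3 ≤ Fintype.card α) (x y : α) :
    ((Om x y).card : ℝ) = (AA α).card / Fintype.card α := by
  have h := card_fiber (evStable_AA (α := α)) hc x y
  have hpos : (0 : ℝ) < Fintype.card α := by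
    have : 0 < Fintype.card α := by omega
    exact_mod_cast this
  rw [eq_div_iff hpos.ne', ← h, Om]
  push_cast
  ring

lemma cs_Ub (hc : 4 ≤ Fintype.card α) {b : α → α → ℝ} (hrow : ∀ x, ∑ y, b x y = 0)
    (hcol : ∀ y, ∑ x, b x y = 0) (x0 y0 : α) :
    cs (Ub b) x0 y0 = ((AA α).card / (Fintype.card α - 1)) * b x0 y0 := by
  have hn : (4 : ℝ) ≤ Fintype.card α := by exact_mod_cast hc
  unfold cs
  have h1 : ∀ σ ∈ Om x0 y0, Ub b σ = b x0 y0 + ∑ x ∈ Finset.univ.erase x0, b x (σ x) := by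
    intro σ hσ
    rw [mem_Om] at hσ
    rw [Ub_apply, if_pos (mem_AA.2 hσ.1)]
    unfold gF
    rw [← Finset.add_sum_erase Finset.univ _ (Finset.mem_univ x0), hσ.2]
  rw [Finset.sum_congr rfl h1, Finset.sum_add_distrib, Finset.sum_const, nsmul_eq_mul,
    card_Om (by omega), Finset.sum_comm]
  have h2 : ∀ x ∈ Finset.univ.erase x0, ∑ σ ∈ Om x0 y0, b x (σ x) =
      -(((AA α).card : ℝ) / (Fintype.card α * (Fintype.card α - 1))) * b x y0 := by
    intro x hx
    have := sum_two (evStable_AA (α := α)) hc (x := x0) (x' := x) (y := y0)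
      (Finset.ne_of_mem_erase hx) (fun w => b x w)
    rw [Om, this]
    have h3 := Finset.add_sum_erase Finset.univ (fun w => b x w) (Finset.mem_univ y0)
    rw [hrow x] at h3
    rw [eq_neg_of_add_eq_zero_right h3]
    ring
  rw [Finset.sum_congr rfl h2, ← Finset.mul_sum]
  have h4 := Finset.add_sum_erase Finset.univ (fun x => b x y0) (Finset.mem_univ x0)
  rw [hcol y0] at h4
  rw [eq_neg_of_add_eq_zero_right h4]
  have hn0 : (Fintype.card α : ℝ) ≠ 0 := by linarith
  have hn1 : (Fintype.card α : ℝ) - 1 ≠ 0 := by linarith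
  field_simp
  ring

/-- The matrix of the degree one part. -/
noncomputable def bm (f : EE α) (x y : α) : ℝ :=
  ((Fintype.card α - 1) / (AA α).card) * (cs f x y - tot f / Fintype.card α)

lemma bm_row (f : EE α) (hc : 1 ≤ Fintype.card α) (x : α) : ∑ y, bm f x y = 0 := by
  unfold bm
  rw [← Finset.mul_sum, Finset.sum_sub_distrib, sum_cs_right, Finset.sum_const,
    Finset.card_univ, nsmul_eq_mul]
  have : (Fintype.card α : ℝ) ≠ 0 := by
    have : 0 < Fintype.card α := by omega
    exact_mod_cast this.ne'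
  field_simp
  ring

lemma bm_col (f : EE α) (hc : 1 ≤ Fintype.card α) (y : α) : ∑ x, bm f x y = 0 := by
  unfold bm
  rw [← Finset.mul_sum, Finset.sum_sub_distrib, sum_cs_left, Finset.sum_const,
    Finset.card_univ, nsmul_eq_mul]
  have : (Fintype.card α : ℝ) ≠ 0 := by
    have : 0 < Fintype.card α := by omega
    exact_mod_cast this.ne'
  field_simp
  ring

lemma card_AA_pos : 0 < (AA α).card :=
  Finset.card_pos.2 ⟨1, by rw [mem_AA]; simp⟩

/-- The remainder of the decomposition. -/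
noncomputable def rem (f : EE α) : EE α :=
  f - (tot f / (AA α).card) • ind (AA α) - Ub (bm f)

lemma cs_sub (f h : EE α) (x y : α) : cs (f - h) x y = cs f x y - cs h x y := by
  unfold cs
  rw [← Finset.sum_sub_distrib]
  apply Finset.sum_congr rfl
  intro σ _
  simp

lemma cs_smul (c : ℝ) (f : EE α) (x y : α) : cs (c • f) x y = c * cs f x y := by
  unfold cs
  rw [Finset.mul_sum]
  apply Finset.sum_congr rfl
  intro σ _
  simp

lemma cs_ind_AA (x y : α) : cs (ind (AA α)) x y = (Om x y).card := by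
  unfold cs
  rw [Finset.sum_congr rfl (g := fun _ => (1 : ℝ)) (by
    intro σ hσ
    rw [mem_Om] at hσ
    rw [ind_apply, if_pos (mem_AA.2 hσ.1)])]
  simp

lemma rem_mem (hc : 4 ≤ Fintype.card α) {f : EE α} (hf : ∀ σ, σ ∉ AA α → f σ = 0) :
    rem f ∈ Zs α := by
  have hn : (4 : ℝ) ≤ Fintype.card α := by exact_mod_cast hc
  have hA : (0 : ℝ) < (AA α).card := by exact_mod_cast card_AA_pos (α := α)
  intro x y s
  rcases Int.units_eq_one_or s with rfl | rfl
  · have h1 : ∑ σ ∈ Finset.univ.filter (fun σ : Perm α => σ x = y ∧ sign σ = 1), rem f σ =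
        cs (rem f) x y := by
      unfold cs
      apply Finset.sum_congr _ (fun _ _ => rfl)
      ext σ
      simp only [Finset.mem_filter, Finset.mem_univ, true_and, mem_Om, and_comm]
    rw [h1, rem, cs_sub, cs_sub, cs_smul, cs_ind_AA, card_Om (by omega),
      cs_Ub hc (bm_row f (by omega)) (bm_col f (by omega))]
    unfold bm
    have hn0 : (Fintype.card α : ℝ) ≠ 0 := by linarith
    have hn1 : (Fintype.card α : ℝ) - 1 ≠ 0 := by linarith
    field_simp
    ring
  · apply Finset.sum_eq_zero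
    intro σ hσ
    simp only [Finset.mem_filter, Finset.mem_univ, true_and] at hσ
    have hσA : σ ∉ AA α := by
      rw [mem_AA, hσ.2]; decide
    simp [rem, hf σ hσA, ind_apply, Ub_apply, hσA]

lemma inner_ind_Ub (hc : 3 ≤ Fintype.card α) {b : α → α → ℝ} (hrow : ∀ x, ∑ y, b x y = 0) :
    inner ℝ (ind (AA α)) (Ub b) = 0 := by
  rw [inner_Ub]
  apply Finset.sum_eq_zero
  intro x _
  simp only [cs_ind_AA, card_Om hc]
  rw [← Finset.sum_mul, hrow x, zero_mul]

/-- Norm of the degree one part. -/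
lemma norm_Ub_bm (hc : 4 ≤ Fintype.card α) {f : EE α} (hf : ∀ σ, σ ∉ AA α → f σ = 0) :
    ‖Ub (bm f)‖ ^ 2 = inner ℝ f (Ub (bm f)) ∧
      ‖Ub (bm f)‖ ^ 2 = ((AA α).card / (Fintype.card α - 1)) * BB (bm f) := by
  have hn : (4 : ℝ) ≤ Fintype.card α := by exact_mod_cast hc
  have hA : (0 : ℝ) < (AA α).card := by exact_mod_cast card_AA_pos (α := α)
  have h1 : ‖Ub (bm f)‖ ^ 2 = inner ℝ f (Ub (bm f)) := by
    have h2 := inner_Zs_Ub (rem_mem hc hf) (bm f)
    rw [rem, inner_sub_left, inner_sub_left, inner_smul_left,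
      inner_ind_Ub (by omega) (bm_row f (by omega)), mul_zero, sub_zero,
      real_inner_self_eq_norm_sq] at h2
    linarith
  refine ⟨h1, ?_⟩
  rw [h1, inner_Ub]
  unfold BB
  rw [Finset.mul_sum]
  apply Finset.sum_congr rfl
  intro x _
  have h3 : ∀ y, cs f x y = ((AA α).card / (Fintype.card α - 1)) * bm f x y +
      tot f / Fintype.card α := by
    intro y
    unfold bm
    have hn1 : (Fintype.card α : ℝ) - 1 ≠ 0 := by linarith
    field_simp
    ring
  simp only [h3, mul_add, Finset.sum_add_distrib]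
  rw [← Finset.sum_mul, bm_row f (by omega) x, zero_mul, add_zero, Finset.mul_sum]
  apply Finset.sum_congr rfl
  intro y _
  ring

lemma f_eq (f : EE α) : f = (tot f / (AA α).card) • ind (AA α) + Ub (bm f) + rem f := by
  unfold rem; abel

/-- Norms of the parts. -/
lemma norm_rem_le (hc : 4 ≤ Fintype.card α) {f : EE α} (hf : ∀ σ, σ ∉ AA α → f σ = 0) :
    ‖rem f‖ ^ 2 ≤ ‖f‖ ^ 2 ∧ ‖Ub (bm f)‖ ^ 2 ≤ ‖f‖ ^ 2 := by
  have hne : Nonempty α := Fintype.card_pos_iff.1 (by omega)
  have hr := rem_mem hc hf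
  have h1 := inner_Zs_Ub hr (bm f)
  have h2 := inner_Zs_ind hr
  have h3 := inner_ind_Ub (α := α) (by omega) (bm_row f (by omega))
  set c := tot f / (AA α).card with hcdef
  have h4 : ‖f‖ ^ 2 = ‖c • ind (AA α)‖ ^ 2 + ‖Ub (bm f)‖ ^ 2 + ‖rem f‖ ^ 2 := by
    have e : f = c • ind (AA α) + Ub (bm f) + rem f := f_eq f
    conv_lhs => rw [e]
    rw [norm_add_sq_real, norm_add_sq_real]
    rw [inner_smul_left, h3, inner_add_left, inner_smul_left, real_inner_comm, h2,
      real_inner_comm (rem f) (Ub (bm f)), h1]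
    simp
  constructor <;> nlinarith [sq_nonneg ‖c • ind (AA α)‖, sq_nonneg ‖Ub (bm f)‖, sq_nonneg ‖rem f‖]

/-- `Top D` on the constant function. -/
lemma Top_ind_AA {D : Finset (Perm α)} (hD : D ⊆ AA α) :
    Top D (ind (AA α)) = (D.card : ℝ) • ind (AA α) := by
  ext σ
  rw [Top_apply, PiLp.smul_apply, smul_eq_mul]
  have : ∀ d ∈ D, ind (AA α) (σ * d) = ind (AA α) σ := by
    intro d hd
    have hd' := mem_AA.1 (hD hd)
    have hiff : σ * d ∈ AA α ↔ σ ∈ AA α := by rw [mem_AA, mem_AA, map_mul, hd', mul_one]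
    simp only [ind_apply, hiff]
  rw [Finset.sum_congr rfl this, Finset.sum_const, nsmul_eq_mul]

/-- `Top D` on a degree one function, when all `#{d ∈ D : d x = x'}`, `x ≠ x'`, are equal. -/
lemma Top_Ub {D : Finset (Perm α)} (hD : D ⊆ AA α) {L : ℕ}
    (hL : ∀ x x', (D.filter (fun d => d x = x')).card = if x = x' then 0 else L)
    {b : α → α → ℝ} (hrow : ∀ x, ∑ y, b x y = 0) :
    Top D (Ub b) = (-(L : ℝ)) • Ub b := by
  ext σ
  rw [Top_apply, PiLp.smul_apply, smul_eq_mul]
  by_cases hσ : σ ∈ AA α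
  · have h1 : ∀ d ∈ D, Ub b (σ * d) = ∑ x, b x (σ (d x)) := by
      intro d hd
      have hd' := mem_AA.1 (hD hd)
      rw [Ub_apply, if_pos]
      · rfl
      · rw [mem_AA, map_mul, hd', mul_one]
        exact mem_AA.1 hσ
    rw [Finset.sum_congr rfl h1, Finset.sum_comm, Ub_apply, if_pos hσ]
    unfold gF
    rw [Finset.mul_sum]
    apply Finset.sum_congr rfl
    intro x _
    rw [← Finset.sum_fiberwise D (fun d : Perm α => d x)]
    have h2 : ∀ x', ∑ d ∈ D.filter (fun d => d x = x'), b x (σ (d x)) =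
        if x = x' then 0 else (L : ℝ) * b x (σ x') := by
      intro x'
      rw [Finset.sum_congr rfl (g := fun _ => b x (σ x')) (by
        intro d hd
        rw [(Finset.mem_filter.1 hd).2]), Finset.sum_const, hL, nsmul_eq_mul]
      split_ifs <;> simp
    rw [Finset.sum_congr rfl (fun x' _ => h2 x')]
    have h3 : ∑ x', (if x = x' then 0 else (L : ℝ) * b x (σ x')) =
        ∑ x', (L : ℝ) * b x (σ x') - (L : ℝ) * b x (σ x) := by
      rw [← Finset.add_sum_erase Finset.univ _ (Finset.mem_univ x), if_pos rfl, zero_add,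
        ← Finset.add_sum_erase Finset.univ (fun x' => (L : ℝ) * b x (σ x')) (Finset.mem_univ x),
        add_sub_cancel_left]
      apply Finset.sum_congr rfl
      intro x' hx'
      rw [if_neg (Ne.symm (Finset.ne_of_mem_erase hx'))]
    rw [h3, ← Finset.mul_sum, Equiv.sum_comp σ (fun y => b x y), hrow x]
    ring
  · have h1 : ∀ d ∈ D, Ub b (σ * d) = 0 := by
      intro d hd
      have hd' := mem_AA.1 (hD hd)
      rw [Ub_apply, if_neg]
      rw [mem_AA, map_mul, hd', mul_one]
      exact fun h => hσ (mem_AA.2 h)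
    rw [Finset.sum_congr rfl h1, Finset.sum_const_zero, Ub_apply, if_neg hσ, mul_zero]

/-- Trivial norm bound. -/
lemma norm_Top_le (D : Finset (Perm α)) (f : EE α) : ‖Top D f‖ ≤ D.card * ‖f‖ := by
  rw [Top_apply']
  refine (norm_sum_le _ _).trans ?_
  have : ∀ d ∈ D, ‖Rr d f‖ = ‖f‖ := by
    intro d _
    have h := inner_Rr d f f
    rw [real_inner_self_eq_norm_sq, real_inner_self_eq_norm_sq] at h
    exact (sq_eq_sq₀ (norm_nonneg _) (norm_nonneg _)).1 h
  rw [Finset.sum_congr rfl this, Finset.sum_const, nsmul_eq_mul]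

lemma Top_sdiff {D D' : Finset (Perm α)} (h : D ⊆ D') (f : EE α) :
    Top (D' \ D) f = Top D' f - Top D f := by
  rw [Top_apply', Top_apply', Top_apply', eq_sub_iff_add_eq]
  exact Finset.sum_sdiff h

lemma norm_ind_sq (S : Finset (Perm α)) : ‖ind S‖ ^ 2 = S.card := by
  rw [← real_inner_self_eq_norm_sq, inner_ind]
  rw [Finset.sum_congr rfl (g := fun _ => (1 : ℝ)) (by
    intro σ hσ
    rw [ind_apply, if_pos hσ])]
  simp

end Pool.Agent.Helper75.Ekr
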