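import Pool.Agent.Helper75.Ekr.Main
import Pool.Agent.Helper75.EkrDefs

/-!
Transfer of the main theorem to the alternating group.
-/

namespace Pool.Agent.Helper75.Ekr

open Equiv Equiv.Perm

set_option linter.unusedSectionVars false
set_option linter.unusedSimpArgs false

/-- The finset of permutations underlying a set of elements of a subgroup. -/
noncomputable def under {n : ℕ} {G : Subgroup (Perm (Fin n))} (D : Set G) :
    Finset (Perm (Fin n)) := by
  classical
  exact Finset.univ.filter (fun σ => σ ∈ (Subtype.val '' D))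

lemma mem_under {n : ℕ} {G : Subgroup (Perm (Fin n))} {D : Set G} {σ : Perm (Fin n)} :
    σ ∈ under D ↔ ∃ g ∈ D, (g : Perm (Fin n)) = σ := by
  classical
  simp only [under, Finset.mem_filter, Finset.mem_univ, true_and]
  rfl

lemma numLabels_eq {n : ℕ} {G : Subgroup (Perm (Fin n))} (D : Set G) :
    EkrDefs.numLabels D = lab (under D) := by
  classical
  unfold EkrDefs.numLabels lab
  have hinj : Function.Injective (fun l : Set G => (Subtype.val '' l : Set (Perm (Fin n)))) :=
    Set.image_injective.2 Subtype.val_injective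
  rw [← Set.ncard_image_of_injective _ hinj]
  have hinj2 : Function.Injective (fun l : Finset (Perm (Fin n)) => (l : Set (Perm (Fin n)))) :=
    Finset.coe_injective
  rw [← Set.ncard_coe_finset, ← Set.ncard_image_of_injective _ hinj2]
  congr 1
  ext l
  simp only [Set.mem_image, Set.mem_ofPred_eq, Finset.coe_image]
  constructor
  · rintro ⟨_, ⟨d, hd, rfl⟩, rfl⟩
    refine ⟨{(d : Perm (Fin n)), (d : Perm (Fin n))⁻¹}, ⟨(d : Perm (Fin n)), ?_, rfl⟩, ?_⟩
    · rw [Finset.mem_coe, mem_under]
      exact ⟨d, hd, rfl⟩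
    · simp [Set.image_insert_eq, Set.image_singleton]
  · rintro ⟨_, ⟨σ, hσ, rfl⟩, rfl⟩
    rw [Finset.mem_coe, mem_under] at hσ
    obtain ⟨d, hd, rfl⟩ := hσ
    refine ⟨{d, d⁻¹}, ⟨d, hd, rfl⟩, ?_⟩
    simp [Set.image_insert_eq, Set.image_singleton]

theorem robust_alternating (n : ℕ) (hn : 1000000000000000 ≤ n) :
    EkrDefs.EKRRobust (alternatingGroup (Fin n)) := by
  classical
  intro D hD hinv hlab
  have hcard : Fintype.card (Fin n) = n := Fintype.card_fin n
  have hn0 : 0 < n := by omega
  -- transfer of the hypotheses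
  have hDer : under (EkrDefs.Der (alternatingGroup (Fin n))) = Der (Fin n) := by
    ext σ
    rw [mem_under, mem_Der]
    constructor
    · rintro ⟨g, hg, rfl⟩
      exact ⟨mem_alternatingGroup.1 g.2, hg⟩
    · rintro ⟨h1, h2⟩
      exact ⟨⟨σ, mem_alternatingGroup.2 h1⟩, h2, rfl⟩
  have hDer' : ∀ i j : Fin n, under (EkrDefs.DerTo (alternatingGroup (Fin n)) i j) =
      (Der (Fin n)).filter (fun d => d i = j) := by
    intro i j
    ext σ
    rw [mem_under, Finset.mem_filter, mem_Der]
    constructor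
    · rintro ⟨g, hg, rfl⟩
      exact ⟨⟨mem_alternatingGroup.1 g.2, hg.1⟩, hg.2⟩
    · rintro ⟨⟨h1, h2⟩, h3⟩
      exact ⟨⟨σ, mem_alternatingGroup.2 h1⟩, ⟨h2, h3⟩, rfl⟩
  have hD' : under D ⊆ Der (Fin n) := by
    rw [← hDer]
    intro σ hσ
    rw [mem_under] at hσ ⊢
    obtain ⟨g, hg, rfl⟩ := hσ
    exact ⟨g, hD hg, rfl⟩
  have hinv' : ∀ d ∈ under D, d⁻¹ ∈ under D := by
    intro d hd
    rw [mem_under] at hd ⊢
    obtain ⟨g, hg, rfl⟩ := hd
    exact ⟨g⁻¹, hinv g hg, rfl⟩
  have hlab' : ∀ i j : Fin n, i ≠ j →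
      lab (under D) < lab ((Der (Fin n)).filter (fun d => d i = j)) := by
    intro i j hij
    rw [← hDer', ← numLabels_eq, ← numLabels_eq]
    exact hlab.trans_le (Nat.sInf_le ⟨i, j, hij, rfl⟩)
  have hAcard : (AA (Fin n)).card = Nat.card (alternatingGroup (Fin n)) := by
    have : (AA (Fin n) : Set (Perm (Fin n))) = (alternatingGroup (Fin n) : Set (Perm (Fin n))) := by
      ext σ
      simp [mem_AA, mem_alternatingGroup]
    rw [← Set.ncard_coe_finset, this]
    rfl
  set Γ := EkrDefs.Cay (EkrDefs.Der (alternatingGroup (Fin n)) \ D) with hΓ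
  -- upper bound
  obtain ⟨s, hs⟩ := Γ.exists_isNIndepSet_indepNum
  have hupper : n * Γ.indepNum ≤ Nat.card (alternatingGroup (Fin n)) := by
    set I : Finset (Perm (Fin n)) := s.map ⟨Subtype.val, Subtype.val_injective⟩ with hI
    have hIc : I.card = Γ.indepNum := by
      rw [hI, Finset.card_map, hs.card_eq]
    have hIA : I ⊆ AA (Fin n) := by
      intro σ hσ
      rw [hI, Finset.mem_map] at hσ
      obtain ⟨g, _, rfl⟩ := hσ
      exact mem_AA.2 (mem_alternatingGroup.1 g.2)
    have hInd : Indep (Der (Fin n) \ under D) I := by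
      intro g hg h hh hC
      rw [hI, Finset.mem_map] at hg hh
      obtain ⟨g', hg', rfl⟩ := hg
      obtain ⟨h', hh', rfl⟩ := hh
      simp only [Function.Embedding.coeFn_mk] at hC
      rw [Finset.mem_sdiff, mem_Der] at hC
      have hne : g' ≠ h' := by
        rintro rfl
        rw [inv_mul_cancel] at hC
        exact hC.1.2 ⟨0, hn0⟩ rfl
      have hind := hs.isIndepSet hg' hh' hne
      apply hind
      rw [hΓ, EkrDefs.Cay, SimpleGraph.fromRel_adj]
      refine ⟨hne, Or.inl ⟨?_, ?_⟩⟩
      · exact hC.1.2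
      · intro hmem
        apply hC.2
        rw [mem_under]
        exact ⟨g'⁻¹ * h', hmem, rfl⟩
    have := main_perm (α := Fin n) (by rw [hcard]; exact hn) hD' hinv' hlab' hIA hInd
    rw [hcard, hIc, hAcard] at this
    exact this
  -- lower bound
  have hlower : Nat.card (alternatingGroup (Fin n)) ≤ n * Γ.indepNum := by
    set o : Fin n := ⟨0, hn0⟩ with ho
    set s : Finset (alternatingGroup (Fin n)) :=
      Finset.univ.filter (fun g => (g : Perm (Fin n)) o = o) with hsdef
    have hsI : Γ.IsIndepSet s := by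
      intro g hg h hh hne hadj
      rw [hΓ, EkrDefs.Cay, SimpleGraph.fromRel_adj] at hadj
      rw [hsdef] at hg hh
      simp only [Finset.coe_filter, Finset.mem_univ, true_and, Set.mem_ofPred_eq] at hg hh
      have hfix : ∀ a b : alternatingGroup (Fin n), (a : Perm (Fin n)) o = o →
          (b : Perm (Fin n)) o = o → a⁻¹ * b ∉ EkrDefs.Der (alternatingGroup (Fin n)) := by
        intro a b ha hb hmem
        apply hmem o
        show ((a : Perm (Fin n))⁻¹ * (b : Perm (Fin n))) o = o
        rw [Perm.mul_apply, hb, Perm.inv_eq_iff_eq, ha]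
      rcases hadj.2 with h1 | h1
      · exact hfix g h hg hh h1.1
      · exact hfix h g hh hg h1.1
    have h1 := hsI.card_le_indepNum
    have h2 : s.card = (Om o o).card := by
      have : s.map ⟨Subtype.val, Subtype.val_injective⟩ = Om o o := by
        ext σ
        rw [Finset.mem_map, mem_Om]
        constructor
        · rintro ⟨g, hg, rfl⟩
          rw [hsdef, Finset.mem_filter] at hg
          exact ⟨mem_alternatingGroup.1 g.2, hg.2⟩
        · rintro ⟨h1, h2⟩
          refine ⟨⟨σ, mem_alternatingGroup.2 h1⟩, ?_, rfl⟩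
          rw [hsdef, Finset.mem_filter]
          exact ⟨Finset.mem_univ _, h2⟩
      rw [← this, Finset.card_map]
    have h3 := card_fiber (evStable_AA (α := Fin n)) (by rw [hcard]; omega) o o
    rw [hcard] at h3
    rw [← hAcard, ← h3]
    apply Nat.mul_le_mul_left
    rw [h2] at h1
    exact h1
  have heq : n * Γ.indepNum = Nat.card (alternatingGroup (Fin n)) := le_antisymm hupper hlower
  have hnQ : (n : ℚ) ≠ 0 := by exact_mod_cast hn0.ne'
  rw [eq_div_iff hnQ, ← heq]
  push_cast
  ring

end Pool.Agent.Helper75.Ekr
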