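import Pool.Agent.Helper75.Ekr.Comb

/-!
Main theorem on the level of permutations.
-/

namespace Pool.Agent.Helper75.Ekr

open Equiv Equiv.Perm

set_option linter.unusedSectionVars false
set_option linter.unusedSimpArgs false

variable {α : Type} [Fintype α] [DecidableEq α]

lemma choose_two_lower {n : ℕ} (hn : 1000 ≤ n) :
    (n : ℝ) ^ 2 / 40 ≤ ((n / 4).choose 2 : ℝ) := by
  have h1 : (n : ℝ) / 4 - 1 ≤ ((n / 4 : ℕ) : ℝ) := by
    have : n ≤ 4 * (n / 4) + 3 := by omega
    have h2 : (n : ℝ) ≤ 4 * ((n / 4 : ℕ) : ℝ) + 3 := by exact_mod_cast this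
    linarith
  have hn' : (1000 : ℝ) ≤ n := by exact_mod_cast hn
  rw [Nat.cast_choose_two]
  nlinarith

/-- The analytic hypotheses hold. -/
lemma ana_holds (hc : 1000000000000000 ≤ Fintype.card α) {L : ℕ}
    (hL : ∀ x x' : α, ((Der α).filter (fun d => d x = x')).card = if x = x' then 0 else L)
    {D : Finset (Perm α)} (hD : D ⊆ Der α) (hDinv : ∀ d ∈ D, d⁻¹ ∈ D) (hDc : D.card ≤ 2 * L) :
    Ana (Der α \ D) L (5 / 1000000) := by
  have hn : (1000000000000000 : ℝ) ≤ Fintype.card α := by exact_mod_cast hc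
  have hAp : (0 : ℝ) < (AA α).card := by exact_mod_cast card_AA_pos (α := α)
  obtain ⟨hV, hLV⟩ := Lam_bounds (by omega) hL
  have hLpos : (0 : ℝ) < L := by
    have : 0 < ((AA α).card : ℝ) / Fintype.card α := by positivity
    linarith
  obtain ⟨B⟩ := exists_blocks (α := α) (Fintype.card α / 4) (by omega)
  have hch := choose_two_lower (n := Fintype.card α) (by omega)
  have hDr : (D.card : ℝ) ≤ 2 * L := by exact_mod_cast hDc
  have hDer := card_Der (α := α) (by omega) hL
  have hP := card_AA (α := α) (by omega)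
  have hPr : (Fintype.card (Perm α) : ℝ) = 2 * (AA α).card := by exact_mod_cast hP
  obtain ⟨n, hndef⟩ : ∃ n : ℝ, n = (Fintype.card α : ℝ) := ⟨_, rfl⟩
  obtain ⟨a, hadef⟩ : ∃ a : ℝ, a = ((AA α).card : ℝ) := ⟨_, rfl⟩
  obtain ⟨c2, hc2⟩ : ∃ c2 : ℝ, c2 = ((Fintype.card α / 4).choose 2 : ℝ) := ⟨_, rfl⟩
  obtain ⟨l, hl⟩ : ∃ l : ℝ, l = (L : ℝ) := ⟨_, rfl⟩
  rw [← hndef] at hn hch hV hDer
  rw [← hadef] at hAp hV hPr
  rw [← hc2] at hch
  rw [← hl] at hV hLpos hDr hDer
  have hn0 : 0 < n := by linarith
  have haV : a ≤ 13 * l * n := by rwa [div_le_iff₀ hn0] at hV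
  have hc2p : 0 < c2 := lt_of_lt_of_le (by positivity) hch
  refine ⟨(Finset.sdiff_subset).trans Der_sub, ?_, ?_, by norm_num, ?_, ?_⟩
  · intro c hc'
    rw [Finset.mem_sdiff] at hc' ⊢
    refine ⟨Der_inv hc'.1, fun h => hc'.2 ?_⟩
    have := hDinv _ h
    rwa [inv_inv] at this
  · rw [← hl]; exact hLpos
  · intro r hr
    rw [Top_sdiff hD, ← hl]
    have b1 := norm_bound_one D hDinv B (by omega) (by omega) hr
    have b2 := norm_bound_two (Der α) (fun d hd => Der_inv hd) (fun g d hd => Der_conj g hd) B
      (by omega) (by omega) hr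
    rw [hPr, ← hc2] at b1 b2
    rw [hDer] at b2
    -- `‖Top D r‖ ≤ (2.5e-6) l ‖r‖`
    have e1 : ‖Top D r‖ ≤ (25 / 10000000) * l * ‖r‖ := by
      refine (sq_le_sq₀ (norm_nonneg _) (by positivity)).1 ?_
      refine b1.trans ?_
      rw [mul_pow]
      apply mul_le_mul_of_nonneg_right _ (sq_nonneg _)
      rw [div_le_iff₀ hc2p]
      have f1 : 2 * a * D.card ≤ 2 * (13 * l * n) * (2 * l) := by
        apply mul_le_mul (by linarith) hDr (by positivity) (by positivity)
      refine f1.trans ?_
      have f2 : (25 / 10000000 * l) ^ 2 * (n ^ 2 / 40) ≤ (25 / 10000000 * l) ^ 2 * c2 :=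
        mul_le_mul_of_nonneg_left hch (sq_nonneg _)
      refine le_trans ?_ f2
      have f3 : 0 ≤ l ^ 2 * n := by positivity
      nlinarith
    have e2 : ‖Top (Der α) r‖ ≤ (25 / 10000000) * l * ‖r‖ := by
      refine (sq_le_sq₀ (norm_nonneg _) (by positivity)).1 ?_
      refine b2.trans ?_
      rw [mul_pow]
      apply mul_le_mul_of_nonneg_right _ (sq_nonneg _)
      rw [div_le_iff₀ (by positivity)]
      have f1 : 2 * a * ((n - 1) * l) ≤ 2 * (13 * l * n) * (n * l) := by
        apply mul_le_mul (by linarith) _ (mul_nonneg (by linarith) hLpos.le) (by positivity)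
        apply mul_le_mul_of_nonneg_right (by linarith) hLpos.le
      refine f1.trans ?_
      have g1 : (n ^ 2 / 40) ^ 2 ≤ c2 ^ 2 := pow_le_pow_left₀ (by positivity) hch 2
      have f2 : (25 / 10000000 * l) ^ 2 * (n ^ 2 / 40) ^ 2 ≤ (25 / 10000000 * l) ^ 2 * c2 ^ 2 :=
        mul_le_mul_of_nonneg_left g1 (sq_nonneg _)
      refine le_trans ?_ f2
      have f4 : (26 : ℝ) ≤ (25 / 10000000) ^ 2 * n ^ 2 / 1600 := by nlinarith
      have f5 : 0 ≤ l ^ 2 * n ^ 2 := by positivity
      calc 2 * (13 * l * n) * (n * l) = 26 * (l ^ 2 * n ^ 2) := by ring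
        _ ≤ ((25 / 10000000) ^ 2 * n ^ 2 / 1600) * (l ^ 2 * n ^ 2) :=
            mul_le_mul_of_nonneg_right f4 f5
        _ = _ := by ring
    calc ‖Top (Der α) r - Top D r‖ ≤ ‖Top (Der α) r‖ + ‖Top D r‖ := norm_sub_le _ _
      _ ≤ (25 / 10000000) * l * ‖r‖ + (25 / 10000000) * l * ‖r‖ := add_le_add e2 e1
      _ = _ := by ring
  · intro b hb
    rw [Top_sdiff hD, ← hl]
    have e1 : ‖Top (Der α) (Ub b)‖ = l * ‖Ub b‖ := by
      rw [Top_Ub Der_sub hL hb, norm_smul, norm_neg, ← hl, Real.norm_eq_abs,
        abs_of_pos hLpos]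
    have e2 : ‖Top D (Ub b)‖ ≤ 2 * l * ‖Ub b‖ :=
      (norm_Top_le D _).trans (mul_le_mul_of_nonneg_right hDr (norm_nonneg _))
    calc ‖Top (Der α) (Ub b) - Top D (Ub b)‖ ≤ ‖Top (Der α) (Ub b)‖ + ‖Top D (Ub b)‖ :=
          norm_sub_le _ _
      _ ≤ l * ‖Ub b‖ + 2 * l * ‖Ub b‖ := by rw [e1]; linarith
      _ = _ := by ring

/-- The main theorem on the level of permutations. -/
theorem main_perm (hc : 1000000000000000 ≤ Fintype.card α)
    {D : Finset (Perm α)} (hD : D ⊆ Der α) (hDinv : ∀ d ∈ D, d⁻¹ ∈ D)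
    (hlab : ∀ i j : α, i ≠ j → lab D < lab ((Der α).filter (fun d => d i = j)))
    {I : Finset (Perm α)} (hIA : I ⊆ AA α) (hI : Indep (Der α \ D) I) :
    Fintype.card α * I.card ≤ (AA α).card := by
  classical
  have hn : (1000000000000000 : ℝ) ≤ Fintype.card α := by exact_mod_cast hc
  have hAp : (0 : ℝ) < (AA α).card := by exact_mod_cast card_AA_pos (α := α)
  obtain ⟨L, hL⟩ := exists_Lam (α := α) (by omega)
  obtain ⟨hV, hLV⟩ := Lam_bounds (by omega) hL
  obtain ⟨p0, q0, hpq0⟩ := Fintype.exists_pair_of_one_lt_card (show 1 < Fintype.card α by omega)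
  have hlabL : lab D < L := by
    refine (hlab p0 q0 hpq0).trans_le ((lab_le _).trans (le_of_eq ?_))
    rw [hL, if_neg hpq0]
  have hDc : D.card ≤ 2 * L := (card_le_two_lab D).trans (by omega)
  have hA := ana_holds hc hL hD hDinv hDc
  have hex : ∀ i j : α, i ≠ j → ∃ d ∈ Der α \ D, d i = j := by
    intro i j hij
    by_contra hcon
    push Not at hcon
    have hsub : (Der α).filter (fun d => d i = j) ⊆ D := by
      intro d hd
      rw [Finset.mem_filter] at hd
      by_contra hdD
      exact hcon d (Finset.mem_sdiff.2 ⟨hd.1, hdD⟩) hd.2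
    exact absurd (lab_mono hsub) (not_le.2 (hlab i j hij))
  -- by contradiction
  by_contra hcon
  push Not at hcon
  set C := Der α \ D with hC
  have hCA : C ⊆ AA α := hA.hC
  have hVS : ((AA α).card : ℝ) / Fintype.card α < I.card := by
    rw [div_lt_iff₀ (by linarith)]
    have : ((AA α).card : ℝ) < Fintype.card α * I.card := by exact_mod_cast hcon
    linarith
  have hCc : ((Fintype.card α : ℝ) - 3) * L ≤ C.card := by
    have h1 := card_Der (α := α) (by omega) hL
    have h2 : (C.card : ℝ) = (Der α).card - D.card := by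
      rw [hC, Finset.card_sdiff_of_subset hD, Nat.cast_sub (Finset.card_le_card hD)]
    rw [h2, h1]
    have : (D.card : ℝ) ≤ 2 * L := by exact_mod_cast hDc
    linarith
  obtain ⟨x0, y0, hbig⟩ := stepA hA (by omega) (by norm_num) hCc hIA hI hVS.le
  set J := I.filter (fun σ => σ x0 = y0) with hJ
  have hJO : J ⊆ Om x0 y0 := by
    intro σ hσ
    rw [hJ, Finset.mem_filter] at hσ
    rw [mem_Om]
    exact ⟨mem_AA.1 (hIA hσ.1), hσ.2⟩
  -- real abbreviations
  obtain ⟨n, hndef⟩ : ∃ n : ℝ, n = (Fintype.card α : ℝ) := ⟨_, rfl⟩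
  obtain ⟨V, hVdef⟩ : ∃ V : ℝ, V = ((AA α).card : ℝ) / Fintype.card α := ⟨_, rfl⟩
  have hVp : 0 < V := by rw [hVdef]; positivity
  have hOm : ∀ x y : α, ((Om x y).card : ℝ) = V := fun x y => by
    rw [hVdef]; exact card_Om (by omega) x y
  rw [← hVdef] at hV hLV hVS hbig
  have hJpos : 0 < J.card := by
    have : (0 : ℝ) < J.card := lt_of_lt_of_le (by positivity) hbig
    exact_mod_cast this
  -- number of available elements of `C` in a direction
  have hdir : ∀ x x' : α, x ≠ x' →
      ((C.filter (fun c => c x = x')).card : ℝ) = L - (D.filter (fun c => c x = x')).card := by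
    intro x x' hxx
    have h1 : C.filter (fun c => c x = x') =
        (Der α).filter (fun c => c x = x') \ D.filter (fun c => c x = x') := by
      ext c
      simp only [hC, Finset.mem_filter, Finset.mem_sdiff]
      tauto
    have h2 : D.filter (fun c => c x = x') ⊆ (Der α).filter (fun c => c x = x') :=
      Finset.filter_subset_filter _ hD
    rw [h1, Finset.card_sdiff_of_subset h2, Nat.cast_sub (Finset.card_le_card h2), hL,
      if_neg hxx]
  -- the sets `{c ∈ C : s c ∈ Om x0 y0}`
  have hset : ∀ s ∈ I, ∀ x : α, C.filter (fun c => s * c ∈ Om x y0) =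
      C.filter (fun c => c x = s⁻¹ y0) := by
    intro s hs x
    apply Finset.filter_congr
    intro c hcC
    rw [mem_Om, Perm.mul_apply, map_mul, mem_AA.1 (hIA hs), mem_AA.1 (hCA hcC), mul_one,
      Perm.eq_inv_iff_eq]
    simp
  -- Step B in the form needed
  have hB : ∀ K ⊆ I, (∀ s ∈ K, (1 / 100 : ℝ) * L ≤
      ((C.filter (fun c => c x0 = s⁻¹ y0)).card : ℝ)) → (K.card : ℝ) ≤ V / 2000 := by
    intro K hK hKc
    have h1 := stepB hA (by omega) hIA hI (x0 := x0) (y0 := y0) hK (c' := 1 / 100) (by norm_num)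
      (by
        intro s hs
        rw [hset s (hK hs) x0]
        exact hKc s hs) hJpos
    rw [hOm, ← hndef] at h1
    rw [← hJ] at h1
    have hsq : √(8 / n) ≤ 1 / 1000000 := by
      rw [Real.sqrt_le_left (by norm_num)]
      rw [div_le_iff₀ (by linarith)]
      nlinarith
    have hδ : (3 * √(8 / n) + 5 / 1000000) ^ 2 ≤ (8 / 1000000) ^ 2 := by
      apply pow_le_pow_left₀ (by positivity)
      linarith
    have h2 : (1 / 100 : ℝ) ^ 2 * (V / 60) * K.card ≤ (8 / 1000000) ^ 2 * V ^ 2 := by
      calc (1 / 100 : ℝ) ^ 2 * (V / 60) * K.card ≤ (1 / 100) ^ 2 * J.card * K.card := by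
            apply mul_le_mul_of_nonneg_right _ (by positivity)
            exact mul_le_mul_of_nonneg_left hbig (by norm_num)
        _ ≤ _ := h1
        _ ≤ _ := mul_le_mul_of_nonneg_right hδ (sq_nonneg _)
    have h3 : ((K.card : ℝ)) * V ≤ (V / 2000) * V := by nlinarith
    exact le_of_mul_le_mul_right h3 hVp
  -- small terms
  have hsmall : 5 * (V / (n - 1)) ≤ V / 100000 := by
    rw [← mul_div_assoc, div_le_div_iff₀ (by linarith) (by norm_num)]
    nlinarith
  have hlabR : (lab D : ℝ) ≤ L := by exact_mod_cast hlabL.le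
  have hLp : (0 : ℝ) < L := by linarith
  by_cases hcase : ∀ x', x' ≠ x0 → ((D.filter (fun c => c x0 = x')).card : ℝ) ≤ (99 / 100) * L
  · -- Case 1
    set K := I.filter (fun σ => ¬ σ x0 = y0) with hK
    have hsplit : (I.card : ℝ) = J.card + K.card := by
      have := Finset.card_filter_add_card_filter_not (s := I) (fun σ : Perm α => σ x0 = y0)
      rw [hJ, hK]
      exact_mod_cast this.symm
    have hKc : ∀ s ∈ K, (1 / 100 : ℝ) * L ≤ ((C.filter (fun c => c x0 = s⁻¹ y0)).card : ℝ) := by
      intro s hs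
      rw [hK, Finset.mem_filter] at hs
      have hne : s⁻¹ y0 ≠ x0 := by
        intro h
        apply hs.2
        rw [← h]; simp
      rw [hdir x0 _ hne.symm]
      have := hcase _ hne
      linarith
    have hKB := hB K (Finset.filter_subset _ _) hKc
    rcases Finset.eq_empty_or_nonempty K with hKe | ⟨s, hs⟩
    · rw [hKe] at hsplit
      simp only [Finset.card_empty, Nat.cast_zero, add_zero] at hsplit
      have : (J.card : ℝ) ≤ V := by
        rw [← hOm x0 y0]
        exact_mod_cast Finset.card_le_card hJO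
      linarith
    · have hsI : s ∈ I := (Finset.mem_filter.1 hs).1
      -- the translates `s c` are not in `J`
      have himg : ((C.filter (fun c => s * c ∈ Om x0 y0)).image (fun c => s * c)) ⊆
          Om x0 y0 \ J := by
        intro g hg
        rw [Finset.mem_image] at hg
        obtain ⟨c, hcm, rfl⟩ := hg
        rw [Finset.mem_filter] at hcm
        rw [Finset.mem_sdiff]
        refine ⟨hcm.2, fun hJm => ?_⟩
        have := hI s hsI (s * c) (Finset.mem_filter.1 hJm).1
        rw [inv_mul_cancel_left] at this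
        exact this hcm.1
      have h1 := Finset.card_le_card himg
      rw [Finset.card_image_of_injective _ (mul_right_injective s),
        Finset.card_sdiff_of_subset hJO, hset s hsI x0] at h1
      have h2 : ((C.filter (fun c => c x0 = s⁻¹ y0)).card : ℝ) ≤ V - J.card := by
        rw [← hOm x0 y0, ← Nat.cast_sub (Finset.card_le_card hJO)]
        exact_mod_cast h1
      have h3 := hKc s hs
      have : V / 1300 ≤ (1 / 100) * L := by linarith
      linarith
  · -- Case 2
    push Not at hcase
    obtain ⟨x1, hx1, hfull⟩ := hcase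
    have hcap : ∀ z x', (z = x0 ∨ z = x1) → x' ≠ x0 → x' ≠ x1 →
        ((D.filter (fun c => c z = x')).card : ℝ) ≤ (1 / 100) * L + V / 100000 := by
      intro z x' hz hx'0 hx'1
      have hzx : z ≠ x' := by
        rcases hz with rfl | rfl
        · exact hx'0.symm
        · exact hx'1.symm
      have h1 := two_dirs (α := α) (by omega) (hD.trans Der_sub) (p := x0) (q := x1) (r := z)
        (s := x') hx1.symm hzx (Or.inr hx'1.symm) (Or.inl hx'0.symm)
      rw [← hVdef, ← hndef] at h1
      linarith
    set K := I.filter (fun σ => ¬ σ x0 = y0 ∧ ¬ σ x1 = y0) with hK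
    set J1 := I.filter (fun σ => σ x1 = y0) with hJ1
    have hJ1O : J1 ⊆ Om x1 y0 := by
      intro σ hσ
      rw [hJ1, Finset.mem_filter] at hσ
      rw [mem_Om]
      exact ⟨mem_AA.1 (hIA hσ.1), hσ.2⟩
    have hsplit : (I.card : ℝ) ≤ J.card + J1.card + K.card := by
      have h1 : I ⊆ (J ∪ J1) ∪ K := by
        intro σ hσ
        simp only [hJ, hJ1, hK, Finset.mem_union, Finset.mem_filter, hσ, true_and]
        tauto
      have h2 := (Finset.card_le_card h1).trans (Finset.card_union_le _ _)
      have h3 := Finset.card_union_le J J1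
      have h4 : I.card ≤ J.card + J1.card + K.card := by omega
      exact_mod_cast h4
    have hKx : ∀ s ∈ K, s⁻¹ y0 ≠ x0 ∧ s⁻¹ y0 ≠ x1 := by
      intro s hs
      rw [hK, Finset.mem_filter] at hs
      constructor
      · intro h
        apply hs.2.1
        rw [← h]; simp
      · intro h
        apply hs.2.2
        rw [← h]; simp
    have hKc : ∀ s ∈ K, (1 / 100 : ℝ) * L ≤ ((C.filter (fun c => c x0 = s⁻¹ y0)).card : ℝ) := by
      intro s hs
      obtain ⟨h0, h1⟩ := hKx s hs
      rw [hdir x0 _ h0.symm]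
      have := hcap x0 _ (Or.inl rfl) h0 h1
      linarith
    have hKB := hB K (Finset.filter_subset _ _) hKc
    -- the matching element
    obtain ⟨d, hdC, hd⟩ := hex x1 x0 hx1
    have hdA : sign d = 1 := mem_AA.1 (hCA hdC)
    -- translate `J1` into `Om x0 y0`
    set J1' := J1.image (fun h => h * d⁻¹) with hJ1'
    have hJ1'O : J1' ⊆ Om x0 y0 := by
      intro g hg
      rw [hJ1', Finset.mem_image] at hg
      obtain ⟨h, hh, rfl⟩ := hg
      have h1 := mem_Om.1 (hJ1O hh)
      rw [mem_Om]
      refine ⟨by rw [map_mul, map_inv, h1.1, hdA]; simp, ?_⟩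
      rw [Perm.mul_apply]
      have : d⁻¹ x0 = x1 := by rw [Perm.inv_eq_iff_eq, hd]
      rw [this, h1.2]
    have hcJ1' : J1'.card = J1.card :=
      Finset.card_image_of_injective _ (mul_left_injective _)
    have hdisj1 : Disjoint J J1' := by
      rw [Finset.disjoint_left]
      intro g hg hg'
      rw [hJ1', Finset.mem_image] at hg'
      obtain ⟨h, hh, rfl⟩ := hg'
      have h1 := hI _ (Finset.mem_filter.1 hg).1 h (Finset.mem_filter.1 hh).1
      apply h1
      have : (h * d⁻¹)⁻¹ * h = d := by group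
      rw [this]
      exact hdC
    rcases Finset.eq_empty_or_nonempty K with hKe | ⟨s, hs⟩
    · rw [hKe] at hsplit
      simp only [Finset.card_empty, Nat.cast_zero, add_zero] at hsplit
      have h1 : (J ∪ J1').card ≤ (Om x0 y0).card :=
        Finset.card_le_card (Finset.union_subset hJO hJ1'O)
      rw [Finset.card_union_of_disjoint hdisj1, hcJ1'] at h1
      have : (J.card : ℝ) + J1.card ≤ V := by
        rw [← hOm x0 y0]
        exact_mod_cast h1
      linarith
    · have hsI : s ∈ I := (Finset.mem_filter.1 hs).1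
      obtain ⟨hsx0, hsx1⟩ := hKx s hs
      set x' := s⁻¹ y0 with hx'
      -- good elements
      set G := C.filter (fun c => c x0 = x' ∧ c * d ∈ C) with hG
      have hdinv0 : d⁻¹ x0 = x1 := by rw [Perm.inv_eq_iff_eq, hd]
      have hcount := count_avoid (α := α) d⁻¹ (x := x0) (y := x') hsx0
        (by rw [hdinv0]; exact hsx1) (by omega)
      have hcover : (Om x0 x').filter (fun e => ∀ z, e z ≠ z ∧ e z ≠ d⁻¹ z) ⊆
          (G ∪ D.filter (fun c => c x0 = x')) ∪
            (D.filter (fun c => c x1 = x')).image (fun c => c * d⁻¹) := by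
        intro e he
        rw [Finset.mem_filter, mem_Om] at he
        have heD : e ∈ Der α := mem_Der.2 ⟨he.1.1, fun z => (he.2 z).1⟩
        have hedD : e * d ∈ Der α := by
          rw [mem_Der]
          refine ⟨by rw [map_mul, he.1.1, hdA, mul_one], ?_⟩
          intro z hz
          rw [Perm.mul_apply] at hz
          have := (he.2 (d z)).2
          apply this
          rw [hz]; simp
        by_cases h1 : e ∈ D
        · rw [Finset.mem_union, Finset.mem_union]
          left; right
          rw [Finset.mem_filter]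
          exact ⟨h1, he.1.2⟩
        by_cases h2 : e * d ∈ D
        · rw [Finset.mem_union]
          right
          rw [Finset.mem_image]
          refine ⟨e * d, ?_, by group⟩
          rw [Finset.mem_filter]
          refine ⟨h2, ?_⟩
          rw [Perm.mul_apply, hd, he.1.2]
        · rw [Finset.mem_union, Finset.mem_union]
          left; left
          rw [hG, Finset.mem_filter, hC, Finset.mem_sdiff, Finset.mem_sdiff]
          exact ⟨⟨heD, h1⟩, he.1.2, ⟨hedD, h2⟩⟩
      have h1 := Finset.card_le_card hcover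
      have h2 := h1.trans (Finset.card_union_le _ _)
      have h3 := Finset.card_union_le G (D.filter (fun c => c x0 = x'))
      have h4 : ((D.filter (fun c => c x1 = x')).image (fun c => c * d⁻¹)).card ≤
          (D.filter (fun c => c x1 = x')).card := Finset.card_image_le
      have h5 : ((Om x0 x').card : ℝ) ≤ 13 * (G.card + (D.filter (fun c => c x0 = x')).card +
          (D.filter (fun c => c x1 = x')).card) := by
        have : (Om x0 x').card ≤ 13 * (G.card + (D.filter (fun c => c x0 = x')).card +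
          (D.filter (fun c => c x1 = x')).card) := by omega
        exact_mod_cast this
      rw [hOm] at h5
      have h6 := hcap x0 x' (Or.inl rfl) hsx0 hsx1
      have h7 := hcap x1 x' (Or.inr rfl) hsx0 hsx1
      have hGbig : V / 26 ≤ G.card := by linarith
      -- the set `s G` is disjoint from `J` and `J1'`
      set sG := G.image (fun c => s * c) with hsG
      have hsGc : sG.card = G.card := Finset.card_image_of_injective _ (mul_right_injective s)
      have hsGO : sG ⊆ Om x0 y0 := by
        intro g hg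
        rw [hsG, Finset.mem_image] at hg
        obtain ⟨c, hcm, rfl⟩ := hg
        rw [hG, Finset.mem_filter] at hcm
        rw [mem_Om]
        refine ⟨by rw [map_mul, mem_AA.1 (hIA hsI), mem_AA.1 (hCA hcm.1), mul_one], ?_⟩
        rw [Perm.mul_apply, hcm.2.1, hx']
        simp
      have hdisj2 : Disjoint (J ∪ J1') sG := by
        rw [Finset.disjoint_left]
        intro g hg hg'
        rw [hsG, Finset.mem_image] at hg'
        obtain ⟨c, hcm, rfl⟩ := hg'
        rw [hG, Finset.mem_filter] at hcm
        rw [Finset.mem_union] at hg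
        rcases hg with hg | hg
        · have h1 := hI s hsI _ (Finset.mem_filter.1 hg).1
          apply h1
          rw [inv_mul_cancel_left]
          exact hcm.1
        · rw [hJ1', Finset.mem_image] at hg
          obtain ⟨h, hh, he⟩ := hg
          have h1 := hI s hsI h (Finset.mem_filter.1 hh).1
          apply h1
          have : h = s * c * d := by rw [← he]; group
          rw [this, mul_assoc, inv_mul_cancel_left]
          exact hcm.2.2
      have h8 : ((J ∪ J1') ∪ sG).card ≤ (Om x0 y0).card :=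
        Finset.card_le_card (Finset.union_subset (Finset.union_subset hJO hJ1'O) hsGO)
      rw [Finset.card_union_of_disjoint hdisj2, Finset.card_union_of_disjoint hdisj1, hcJ1',
        hsGc] at h8
      have h9 : (J.card : ℝ) + J1.card + G.card ≤ V := by
        rw [← hOm x0 y0]
        exact_mod_cast h8
      linarith

end Pool.Agent.Helper75.Ekr
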