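import Pool.Agent.Helper75.Ekr.Blocks

/-!
Norm bounds for the convolution operators on the orthogonal complement of the (twisted)
permutation module.
-/

namespace Pool.Agent.Helper75.Ekr

open Equiv Equiv.Perm

set_option linter.unusedSectionVars false
set_option linter.unusedSimpArgs false

variable {α : Type} [Fintype α] [DecidableEq α]

/-- Functions on the symmetric group with the usual inner product. -/
abbrev EE (α : Type) [Fintype α] [DecidableEq α] := EuclideanSpace ℝ (Perm α)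

/-- Left translations. -/
noncomputable def Lr : Perm α →* (EE α →ₗ[ℝ] EE α) where
  toFun g :=
    { toFun := fun f => WithLp.toLp 2 (fun σ => f (g⁻¹ * σ))
      map_add' := by intro f h; ext σ; simp
      map_smul' := by intro c f; ext σ; simp }
  map_one' := by ext f σ; simp
  map_mul' := by
    intro g h
    ext f σ
    simp [mul_assoc]

/-- Right translations. -/
noncomputable def Rr : Perm α →* (EE α →ₗ[ℝ] EE α) where
  toFun g :=
    { toFun := fun f => WithLp.toLp 2 (fun σ => f (σ * g))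
      map_add' := by intro f h; ext σ; simp
      map_smul' := by intro c f; ext σ; simp }
  map_one' := by ext f σ; simp
  map_mul' := by
    intro g h
    ext f σ
    simp [mul_assoc]

@[simp] lemma Lr_apply (g : Perm α) (f : EE α) (σ : Perm α) : Lr g f σ = f (g⁻¹ * σ) := rfl

@[simp] lemma Rr_apply (g : Perm α) (f : EE α) (σ : Perm α) : Rr g f σ = f (σ * g) := rfl

lemma Lr_Rr (g h : Perm α) (f : EE α) : Lr g (Rr h f) = Rr h (Lr g f) := by
  ext σ
  simp [mul_assoc]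

lemma inner_eq (f h : EE α) : inner ℝ f h = ∑ σ, f σ * h σ := by
  rw [PiLp.inner_apply]
  apply Finset.sum_congr rfl
  intro σ _
  simp [mul_comm]

lemma inner_Lr (g : Perm α) (f h : EE α) : inner ℝ (Lr g f) (Lr g h) = inner ℝ f h := by
  rw [inner_eq, inner_eq]
  exact Fintype.sum_equiv (Equiv.mulLeft g⁻¹) _ _ (fun σ => by simp)

lemma inner_Rr (g : Perm α) (f h : EE α) : inner ℝ (Rr g f) (Rr g h) = inner ℝ f h := by
  rw [inner_eq, inner_eq]
  exact Fintype.sum_equiv (Equiv.mulRight g) _ _ (fun σ => by simp)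

/-- The convolution operator `(T f)(σ) = ∑_{d ∈ D} f(σ d)`. -/
noncomputable def Top (D : Finset (Perm α)) : EE α →ₗ[ℝ] EE α := ∑ d ∈ D, Rr d

lemma Top_apply' (D : Finset (Perm α)) (f : EE α) : Top D f = ∑ d ∈ D, Rr d f := by
  rw [Top, LinearMap.sum_apply]

lemma Top_apply (D : Finset (Perm α)) (f : EE α) (σ : Perm α) :
    Top D f σ = ∑ d ∈ D, f (σ * d) := by
  rw [Top_apply']
  simp [WithLp.ofLp_sum, Finset.sum_apply]

lemma Top_Lr (D : Finset (Perm α)) (g : Perm α) (f : EE α) :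
    Top D (Lr g f) = Lr g (Top D f) := by
  ext σ
  rw [Top_apply, Lr_apply, Top_apply]
  simp [mul_assoc]

lemma Top_Rr (D : Finset (Perm α)) (hD : ∀ g, ∀ d ∈ D, g * d * g⁻¹ ∈ D) (g : Perm α)
    (f : EE α) : Top D (Rr g f) = Rr g (Top D f) := by
  ext σ
  rw [Top_apply, Rr_apply, Top_apply]
  apply Finset.sum_bij' (fun d _ => g⁻¹ * d * g) (fun d _ => g * d * g⁻¹)
  · intro d hd
    have := hD g⁻¹ d hd
    simpa using this
  · intro d hd
    exact hD g d hd
  · intro d _; group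
  · intro d _; group
  · intro d _
    rw [Rr_apply, show σ * g * (g⁻¹ * d * g) = σ * d * g by group]

lemma Top_symm (D : Finset (Perm α)) (hD : ∀ d ∈ D, d⁻¹ ∈ D) : (Top D).IsSymmetric := by
  intro f h
  rw [inner_eq, inner_eq]
  simp only [Top_apply, Finset.sum_mul, Finset.mul_sum]
  rw [Finset.sum_comm, Finset.sum_comm (s := Finset.univ) (t := D)]
  refine Finset.sum_bij' (fun d _ => d⁻¹) (fun d _ => d⁻¹) (fun d hd => hD d hd)
    (fun d hd => hD d hd) (fun d _ => by simp) (fun d _ => by simp) ?_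
  intro d _
  exact Fintype.sum_equiv (Equiv.mulRight d) (fun σ => f (σ * d) * h σ)
    (fun σ => f σ * h (σ * d⁻¹)) (fun σ => by simp)

/-- The orthogonal complement of the span of the indicator functions of
`{σ : σ x = y, sign σ = s}`. -/
noncomputable def Zs (α : Type) [Fintype α] [DecidableEq α] : Submodule ℝ (EE α) where
  carrier := {r | ∀ x y : α, ∀ s : ℤˣ,
    ∑ σ ∈ Finset.univ.filter (fun σ : Perm α => σ x = y ∧ sign σ = s), r σ = 0}
  add_mem' := by
    intro a b ha hb x y s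
    simp only [PiLp.add_apply, Finset.sum_add_distrib]
    rw [ha x y s, hb x y s, add_zero]
  zero_mem' := by intro x y s; simp
  smul_mem' := by
    intro c a ha x y s
    simp only [PiLp.smul_apply, smul_eq_mul, ← Finset.mul_sum]
    rw [ha x y s, mul_zero]

lemma Zs_Lr (g : Perm α) {r : EE α} (hr : r ∈ Zs α) : Lr g r ∈ Zs α := by
  intro x y s
  have h := hr x (g⁻¹ y) (sign g * s)
  rw [← h]
  apply Finset.sum_bij' (fun σ _ => g⁻¹ * σ) (fun σ _ => g * σ)
  · intro σ hσ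
    simp only [Finset.mem_filter, Finset.mem_univ, true_and] at hσ ⊢
    refine ⟨by rw [Perm.mul_apply, hσ.1], ?_⟩
    rw [map_mul, map_inv, hσ.2]
    simp
  · intro σ hσ
    simp only [Finset.mem_filter, Finset.mem_univ, true_and] at hσ ⊢
    refine ⟨by rw [Perm.mul_apply, hσ.1]; simp, ?_⟩
    rw [map_mul, hσ.2, ← mul_assoc, Int.units_mul_self, one_mul]
  · intro σ _; group
  · intro σ _; group
  · intro σ _; rfl

lemma Zs_Rr (g : Perm α) {r : EE α} (hr : r ∈ Zs α) : Rr g r ∈ Zs α := by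
  intro x y s
  have h := hr (g⁻¹ x) y (s * sign g)
  rw [← h]
  apply Finset.sum_bij' (fun σ _ => σ * g) (fun σ _ => σ * g⁻¹)
  · intro σ hσ
    simp only [Finset.mem_filter, Finset.mem_univ, true_and] at hσ ⊢
    refine ⟨by simp [hσ.1], ?_⟩
    rw [map_mul, hσ.2]
  · intro σ hσ
    simp only [Finset.mem_filter, Finset.mem_univ, true_and] at hσ ⊢
    refine ⟨by rw [Perm.mul_apply, hσ.1], ?_⟩
    rw [map_mul, hσ.2, map_inv, mul_assoc]
    simp
  · intro σ _; group
  · intro σ _; group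
  · intro σ _; rfl

lemma Zs_Top (D : Finset (Perm α)) {r : EE α} (hr : r ∈ Zs α) : Top D r ∈ Zs α := by
  rw [Top_apply']
  exact Submodule.sum_mem _ fun d _ => Zs_Rr d hr

lemma const_zero {r : EE α} (hr : r ∈ Zs α) {x y : α} {s : ℤˣ} {σ : Perm α} (hσ : σ x = y)
    (hs : sign σ = s) (hc : ∀ τ : Perm α, τ x = y → sign τ = s → r τ = r σ) : r σ = 0 := by
  have h := hr x y s
  have h2 : ∑ τ ∈ Finset.univ.filter (fun τ : Perm α => τ x = y ∧ sign τ = s), r τ =
      ∑ τ ∈ Finset.univ.filter (fun τ : Perm α => τ x = y ∧ sign τ = s), r σ := by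
    apply Finset.sum_congr rfl
    intro τ hτ
    simp only [Finset.mem_filter, Finset.mem_univ, true_and] at hτ
    exact hc τ hτ.1 hτ.2
  rw [h2, Finset.sum_const, nsmul_eq_mul] at h
  rcases mul_eq_zero.1 h with h | h
  · exfalso
    have : 0 < (Finset.univ.filter (fun τ : Perm α => τ x = y ∧ sign τ = s)).card :=
      Finset.card_pos.2 ⟨σ, by simp [hσ, hs]⟩
    have h' : (Finset.univ.filter (fun τ : Perm α => τ x = y ∧ sign τ = s)).card = 0 := by
      exact_mod_cast h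
    omega
  · exact h

lemma good_Lr {W : Submodule ℝ (EE α)} (hW : W ≤ Zs α) (hinv : ∀ g, ∀ v ∈ W, Lr g v ∈ W) :
    Good Lr W where
  inv := hinv
  fix := by
    intro z v hv hfix
    ext σ
    refine const_zero (hW hv) (x := σ⁻¹ z) (y := z) (s := sign σ) (σ := σ) (by simp) rfl ?_
    intro τ hτ hs
    have hz : (σ * τ⁻¹) z = z := by
      rw [Perm.mul_apply]
      have : τ⁻¹ z = σ⁻¹ z := by rw [Perm.inv_eq_iff_eq, hτ]
      rw [this]; simp
    have hsg : sign (σ * τ⁻¹) = 1 := by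
      rw [map_mul, map_inv, hs]; simp
    have h := hfix (σ * τ⁻¹) hsg hz
    have h2 := congrArg (fun f : EE α => f σ) h
    simp only [Lr_apply] at h2
    rw [← h2, show (σ * τ⁻¹)⁻¹ * σ = τ by group]

lemma good_Rr {W : Submodule ℝ (EE α)} (hW : W ≤ Zs α) (hinv : ∀ g, ∀ v ∈ W, Rr g v ∈ W) :
    Good Rr W where
  inv := hinv
  fix := by
    intro z v hv hfix
    ext σ
    refine const_zero (hW hv) (x := z) (y := σ z) (s := sign σ) (σ := σ) rfl rfl ?_
    intro τ hτ hs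
    have hz : (σ⁻¹ * τ) z = z := by
      rw [Perm.mul_apply, hτ]; simp
    have hsg : sign (σ⁻¹ * τ) = 1 := by
      rw [map_mul, map_inv, hs]; simp
    have h := hfix (σ⁻¹ * τ) hsg hz
    have h2 := congrArg (fun f : EE α => f σ) h
    simp only [Rr_apply] at h2
    rw [← h2, show σ * (σ⁻¹ * τ) = τ by group]

/-- Hilbert–Schmidt bound: an orthogonal family of eigenvectors of equal norm. -/
lemma hs_bound (D : Finset (Perm α)) {ι : Type} [DecidableEq ι] (s : Finset ι) (v : ι → EE α)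
    (c : ℝ) (hc : 0 < c) (hnorm : ∀ i ∈ s, inner ℝ (v i) (v i) = c)
    (horth : ∀ i ∈ s, ∀ j ∈ s, i ≠ j → inner ℝ (v i) (v j) = 0) (lam : ℝ)
    (hT : ∀ i ∈ s, Top D (v i) = lam • v i) :
    (s.card : ℝ) * lam ^ 2 ≤ (Fintype.card (Perm α) : ℝ) * D.card := by
  classical
  -- normalized vectors
  have hsq : 0 < √c := Real.sqrt_pos.2 hc
  let e : s → EE α := fun i => (√c)⁻¹ • v i
  have horn : Orthonormal ℝ e := by
    rw [orthonormal_iff_ite]
    intro i j
    simp only [e]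
    rw [inner_smul_left, inner_smul_right]
    by_cases hij : i = j
    · subst hij
      rw [if_pos rfl, hnorm i i.2]
      simp only [conj_trivial]
      rw [← mul_assoc, ← mul_inv, Real.mul_self_sqrt hc.le, inv_mul_cancel₀ hc.ne']
    · rw [if_neg hij, horth i i.2 j j.2 (fun h => hij (Subtype.ext h))]
      simp
  have heT : ∀ i : s, Top D (e i) = lam • e i := by
    intro i
    simp only [e]
    rw [map_smul, hT i i.2, smul_comm]
  -- rows
  let row : Perm α → EE α := fun σ => WithLp.toLp 2 (fun τ => if σ⁻¹ * τ ∈ D then 1 else 0)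
  have hrow : ∀ σ (f : EE α), inner ℝ f (row σ) = Top D f σ := by
    intro σ f
    rw [inner_eq, Top_apply]
    simp only [row, mul_ite, mul_one, mul_zero]
    rw [← Finset.sum_filter]
    apply Finset.sum_bij' (fun τ _ => σ⁻¹ * τ) (fun d _ => σ * d)
    · intro τ hτ
      simpa using hτ
    · intro d hd
      simpa using hd
    · intro τ _; group
    · intro d _; group
    · intro τ _; rw [show σ * (σ⁻¹ * τ) = τ by group]
  have hrownorm : ∀ σ, ‖row σ‖ ^ 2 = D.card := by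
    intro σ
    rw [← real_inner_self_eq_norm_sq, inner_eq]
    simp only [row, mul_ite, mul_one, mul_zero]
    have : ∀ τ : Perm α, (if σ⁻¹ * τ ∈ D then (if σ⁻¹ * τ ∈ D then (1 : ℝ) else 0) else 0) =
        if σ⁻¹ * τ ∈ D then 1 else 0 := by
      intro τ; split_ifs <;> rfl
    rw [Finset.sum_congr rfl (fun τ _ => this τ), ← Finset.sum_filter, Finset.sum_const,
      nsmul_eq_mul, mul_one]
    congr 1
    apply Finset.card_bij' (fun τ _ => σ⁻¹ * τ) (fun d _ => σ * d)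
    · intro τ hτ
      simpa using hτ
    · intro d hd
      simpa using hd
    · intro τ _; group
    · intro d _; group
  have h1 : ∀ i : s, ∑ σ, (Top D (e i) σ) ^ 2 = lam ^ 2 := by
    intro i
    rw [heT i]
    have : inner ℝ (e i) (e i) = 1 := by
      rw [real_inner_self_eq_norm_sq, horn.1 i, one_pow]
    rw [inner_eq] at this
    simp only [PiLp.smul_apply, smul_eq_mul, mul_pow]
    rw [← Finset.mul_sum]
    simp only [pow_two] at this ⊢
    rw [this, mul_one]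
  calc (s.card : ℝ) * lam ^ 2 = ∑ i : s, ∑ σ, (Top D (e i) σ) ^ 2 := by
        rw [Finset.sum_congr rfl (fun i _ => h1 i), Finset.sum_const, nsmul_eq_mul,
          Finset.card_univ, Fintype.card_coe]
    _ = ∑ σ, ∑ i : s, (Top D (e i) σ) ^ 2 := Finset.sum_comm
    _ ≤ ∑ σ : Perm α, (D.card : ℝ) := by
        apply Finset.sum_le_sum
        intro σ _
        have := horn.sum_inner_products_le (s := Finset.univ) (x := row σ)
        rw [hrownorm σ] at this
        refine le_trans (le_of_eq ?_) this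
        apply Finset.sum_congr rfl
        intro i _
        rw [hrow σ (e i), Real.norm_eq_abs, sq_abs]
    _ = (Fintype.card (Perm α) : ℝ) * D.card := by
        rw [Finset.sum_const, nsmul_eq_mul, Finset.card_univ]

/-- Spectral theorem reduction. -/
lemma norm_bound_of_eigen {E : Type} [NormedAddCommGroup E] [InnerProductSpace ℝ E]
    [FiniteDimensional ℝ E] (T : E →ₗ[ℝ] E) (hT : T.IsSymmetric) (Z : Submodule ℝ E)
    (hZ : ∀ v ∈ Z, T v ∈ Z) (K : ℝ)
    (hK : ∀ (lam : ℝ) (v : E), v ∈ Z → v ≠ 0 → T v = lam • v → lam ^ 2 ≤ K) :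
    ∀ r ∈ Z, ‖T r‖ ^ 2 ≤ K * ‖r‖ ^ 2 := by
  intro r hr
  have hT' := hT.restrict_invariant hZ
  let b := hT'.eigenvectorBasis (n := Module.finrank ℝ Z) rfl
  let mu := hT'.eigenvalues (n := Module.finrank ℝ Z) rfl
  have hb : ∀ i, (T.restrict hZ) (b i) = mu i • b i := by
    intro i
    exact hT'.apply_eigenvectorBasis rfl i
  have hmu : ∀ i, mu i ^ 2 ≤ K := by
    intro i
    apply hK (mu i) (b i : E) (b i).2
    · have := b.orthonormal.ne_zero i
      intro h
      exact this (Subtype.ext h)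
    · have := congrArg Subtype.val (hb i)
      simpa using this
  have h1 : ‖T r‖ ^ 2 = ‖(T.restrict hZ) ⟨r, hr⟩‖ ^ 2 := rfl
  have h2 : ‖r‖ ^ 2 = ‖(⟨r, hr⟩ : Z)‖ ^ 2 := rfl
  rw [h1, h2, ← b.sum_sq_norm_inner_right, ← b.sum_sq_norm_inner_right, Finset.mul_sum]
  apply Finset.sum_le_sum
  intro i _
  have : inner ℝ (b i) ((T.restrict hZ) ⟨r, hr⟩) = mu i * inner ℝ (b i) (⟨r, hr⟩ : Z) := by
    rw [← hT', hb i, inner_smul_left]
    simp
  rw [this, norm_mul, mul_pow, Real.norm_eq_abs (mu i), sq_abs]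
  exact mul_le_mul_of_nonneg_right (hmu i) (by positivity)

/-- `w` has sign `-1` at the blocks `i0`, `i1` and sign `1` at the other blocks. -/
structure SignVec {V : Type} [AddCommGroup V] [Module ℝ V] {k : ℕ}
    (ρ : Perm α →* (V →ₗ[ℝ] V)) (B : BlockFam α k) (i0 i1 : Fin k)
    (w : V) : Prop where
  h0 : ρ (tb B i0) w = -w
  h1 : ρ (tb B i1) w = -w
  h2 : ∀ i, i ≠ i0 → i ≠ i1 → ρ (tb B i) w = w

lemma exists_block_perm {k : ℕ} (B : BlockFam α k) (τ : Perm (Fin k)) :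
    ∃ g : Perm α, ∀ i, g * tb B i * g⁻¹ = tb B (τ i) := by
  obtain ⟨g, hg⟩ := Equiv.Perm.exists_extending_pair
    (fun p : Fin k × Fin 4 => B.pt p.1 p.2) (fun p : Fin k × Fin 4 => B.pt (τ p.1) p.2)
    (by
      intro p q h
      obtain ⟨h1, h2⟩ := B.inj _ _ _ _ h
      exact Prod.ext h1 h2)
    (by
      intro p q h
      obtain ⟨h1, h2⟩ := B.inj _ _ _ _ h
      exact Prod.ext (τ.injective h1) h2)
  refine ⟨g, fun i => ?_⟩
  unfold tb
  rw [dt_conj]
  have h0 := hg (i, 0)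
  have h1 := hg (i, 1)
  have h2 := hg (i, 2)
  have h3 := hg (i, 3)
  simp only at h0 h1 h2 h3
  rw [h0, h1, h2, h3]

lemma exists_translate {k : ℕ} (B : BlockFam α k) {i0 i1 : Fin k} (h01 : i0 ≠ i1)
    (s : Finset (Fin k)) (hs : s.card = 2) :
    ∃ g : Perm α, ∀ {V : Type} [AddCommGroup V] [Module ℝ V] (ρ : Perm α →* (V →ₗ[ℝ] V)) (w : V),
      SignVec ρ B i0 i1 w → ∀ l, (l ∈ s → ρ (tb B l) (ρ g w) = -(ρ g w)) ∧
        (l ∉ s → ρ (tb B l) (ρ g w) = ρ g w) := by
  obtain ⟨i, j, hij, rfl⟩ := Finset.card_eq_two.1 hs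
  obtain ⟨τ, hτ⟩ := exists_map_list [i0, i1] [i, j] (by simp [h01]) (by simp [hij]) rfl
  simp only [List.map_cons, List.map_nil, List.cons.injEq, and_true] at hτ
  obtain ⟨g, hg⟩ := exists_block_perm B τ
  refine ⟨g, ?_⟩
  intro V _ _ ρ w hw l
  have hl : tb B l * g = g * tb B (τ⁻¹ l) := by
    have := hg (τ⁻¹ l)
    rw [show τ (τ⁻¹ l) = l by simp] at this
    rw [← this]
    group
  have e0 : τ⁻¹ l = i0 ↔ l = i := by
    rw [Perm.inv_eq_iff_eq, hτ.1]
  have e1 : τ⁻¹ l = i1 ↔ l = j := by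
    rw [Perm.inv_eq_iff_eq, hτ.2]
  constructor
  · intro hls
    rw [← rho_mul, hl, rho_mul]
    simp only [Finset.mem_insert, Finset.mem_singleton] at hls
    rcases hls with hls | hls
    · rw [e0.2 hls, hw.h0, map_neg]
    · rw [e1.2 hls, hw.h1, map_neg]
  · intro hls
    rw [← rho_mul, hl, rho_mul]
    simp only [Finset.mem_insert, Finset.mem_singleton, not_or] at hls
    rw [hw.h2 _ (fun h => hls.1 (e0.1 h)) (fun h => hls.2 (e1.1 h))]

lemma orth_of_sign (ρ : Perm α →* (EE α →ₗ[ℝ] EE α))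
    (hρ : ∀ g f h, inner ℝ (ρ g f) (ρ g h) = inner ℝ f h) (t : Perm α) {u u' : EE α}
    (hu : ρ t u = -u) (hu' : ρ t u' = u') : inner ℝ u u' = 0 := by
  have h := hρ t u u'
  rw [hu, hu', inner_neg_left] at h
  linarith

lemma exists_sep {k : ℕ} {s s' : Finset (Fin k)} (hs : s.card = 2) (hs' : s'.card = 2)
    (hne : s ≠ s') : ∃ l, l ∈ s ∧ l ∉ s' := by
  by_contra h
  push Not at h
  apply hne
  apply Finset.eq_of_subset_of_card_le h
  rw [hs, hs']

/-- Orthogonality of translates of sign vectors. -/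
lemma translate_orth {k : ℕ} (ρ : Perm α →* (EE α →ₗ[ℝ] EE α))
    (hρ : ∀ g f h, inner ℝ (ρ g f) (ρ g h) = inner ℝ f h) (B : BlockFam α k)
    {s s' : Finset (Fin k)} (hs : s.card = 2) (hs' : s'.card = 2) (hne : s ≠ s')
    {u u' : EE α} (hu : ∀ l ∈ s, ρ (tb B l) u = -u) (hu' : ∀ l, l ∉ s' → ρ (tb B l) u' = u') :
    inner ℝ u u' = 0 := by
  obtain ⟨l, hl, hl'⟩ := exists_sep hs hs' hne
  exact orth_of_sign ρ hρ (tb B l) (hu l hl) (hu' l hl')

/-- One-sided eigenvalue bound. -/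
theorem eig_bound_one {k : ℕ} (D : Finset (Perm α)) (B : BlockFam α k) {i0 i1 : Fin k}
    (h01 : i0 ≠ i1) (hcard : 10 ≤ Fintype.card α) {lam : ℝ} {v : EE α} (hv : v ∈ Zs α)
    (hv0 : v ≠ 0) (hT : Top D v = lam • v) :
    (k.choose 2 : ℝ) * lam ^ 2 ≤ (Fintype.card (Perm α) : ℝ) * D.card := by
  classical
  let W : Submodule ℝ (EE α) :=
    { carrier := {w | w ∈ Zs α ∧ Top D w = lam • w}
      add_mem' := by
        rintro a b ⟨ha, ha'⟩ ⟨hb, hb'⟩
        exact ⟨(Zs α).add_mem ha hb, by rw [map_add, ha', hb', smul_add]⟩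
      zero_mem' := ⟨(Zs α).zero_mem, by simp⟩
      smul_mem' := by
        rintro c a ⟨ha, ha'⟩
        exact ⟨(Zs α).smul_mem c ha, by rw [map_smul, ha', smul_comm]⟩ }
  have hWZ : W ≤ Zs α := fun w hw => hw.1
  have hinv : ∀ g, ∀ w ∈ W, Lr g w ∈ W := by
    rintro g w ⟨h1, h2⟩
    exact ⟨Zs_Lr g h1, by rw [Top_Lr, h2, map_smul]⟩
  have hG := good_Lr hWZ hinv
  obtain ⟨w, hwW, hw0, hs0, hs1, hs2⟩ :=
    exists_block_vector hG hcard (v := v) ⟨hv, hT⟩ hv0 B h01
  have hsv : SignVec Lr B i0 i1 w := ⟨hs0, hs1, hs2⟩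
  have hex : ∀ s : Finset (Fin k), ∃ g : Perm α, s.card = 2 →
      ∀ l, (l ∈ s → Lr (tb B l) (Lr g w) = -(Lr g w)) ∧
        (l ∉ s → Lr (tb B l) (Lr g w) = Lr g w) := by
    intro s
    by_cases hs : s.card = 2
    · obtain ⟨g, hg⟩ := exists_translate B h01 s hs
      exact ⟨g, fun _ => hg Lr w hsv⟩
    · exact ⟨1, fun h => absurd h hs⟩
  choose g hg using hex
  have hc : 0 < inner ℝ w w := real_inner_self_pos.2 hw0
  have := hs_bound D (Finset.powersetCard 2 (Finset.univ : Finset (Fin k)))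
    (fun s => Lr (g s) w) (inner ℝ w w) hc (fun s _ => inner_Lr _ _ _) (by
      intro s hs s' hs' hne
      rw [Finset.mem_powersetCard] at hs hs'
      exact translate_orth Lr inner_Lr B hs.2 hs'.2 hne (fun l hl => (hg s hs.2 l).1 hl)
        (fun l hl => (hg s' hs'.2 l).2 hl)) lam (by
      intro s _
      rw [Top_Lr, hwW.2, map_smul])
  rwa [Finset.card_powersetCard, Finset.card_univ, Fintype.card_fin] at this

/-- Two-sided eigenvalue bound for conjugation invariant sets. -/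
theorem eig_bound_two {k : ℕ} (D : Finset (Perm α)) (hD : ∀ g, ∀ d ∈ D, g * d * g⁻¹ ∈ D)
    (B : BlockFam α k) {i0 i1 : Fin k}
    (h01 : i0 ≠ i1) (hcard : 10 ≤ Fintype.card α) {lam : ℝ} {v : EE α} (hv : v ∈ Zs α)
    (hv0 : v ≠ 0) (hT : Top D v = lam • v) :
    (k.choose 2 : ℝ) ^ 2 * lam ^ 2 ≤ (Fintype.card (Perm α) : ℝ) * D.card := by
  classical
  let W : Submodule ℝ (EE α) :=
    { carrier := {w | w ∈ Zs α ∧ Top D w = lam • w}
      add_mem' := by
        rintro a b ⟨ha, ha'⟩ ⟨hb, hb'⟩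
        exact ⟨(Zs α).add_mem ha hb, by rw [map_add, ha', hb', smul_add]⟩
      zero_mem' := ⟨(Zs α).zero_mem, by simp⟩
      smul_mem' := by
        rintro c a ⟨ha, ha'⟩
        exact ⟨(Zs α).smul_mem c ha, by rw [map_smul, ha', smul_comm]⟩ }
  have hWZ : W ≤ Zs α := fun w hw => hw.1
  have hinv : ∀ g, ∀ w ∈ W, Lr g w ∈ W := by
    rintro g w ⟨h1, h2⟩
    exact ⟨Zs_Lr g h1, by rw [Top_Lr, h2, map_smul]⟩
  have hG := good_Lr hWZ hinv
  obtain ⟨w, hwW, hw0, hs0, hs1, hs2⟩ :=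
    exists_block_vector hG hcard (v := v) ⟨hv, hT⟩ hv0 B h01
  -- second step
  let W2 : Submodule ℝ (EE α) :=
    { carrier := {w | w ∈ Zs α ∧ Top D w = lam • w ∧ SignVec Lr B i0 i1 w}
      add_mem' := by
        rintro a b ⟨ha, ha', ha''⟩ ⟨hb, hb', hb''⟩
        refine ⟨(Zs α).add_mem ha hb, by rw [map_add, ha', hb', smul_add], ?_, ?_, ?_⟩
        · rw [map_add, ha''.h0, hb''.h0]; abel
        · rw [map_add, ha''.h1, hb''.h1]; abel
        · intro i h0 h1
          rw [map_add, ha''.h2 i h0 h1, hb''.h2 i h0 h1]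
      zero_mem' := by
        refine ⟨(Zs α).zero_mem, by simp, ?_, ?_, ?_⟩
        · simp
        · simp
        · intro i _ _; simp
      smul_mem' := by
        rintro c a ⟨ha, ha', ha''⟩
        refine ⟨(Zs α).smul_mem c ha, by rw [map_smul, ha', smul_comm], ?_, ?_, ?_⟩
        · rw [map_smul, ha''.h0, smul_neg]
        · rw [map_smul, ha''.h1, smul_neg]
        · intro i h0 h1
          rw [map_smul, ha''.h2 i h0 h1] }
  have hW2Z : W2 ≤ Zs α := fun w hw => hw.1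
  have hinv2 : ∀ g, ∀ w ∈ W2, Rr g w ∈ W2 := by
    rintro g w ⟨h1, h2, h3⟩
    refine ⟨Zs_Rr g h1, by rw [Top_Rr D hD, h2, map_smul], ?_, ?_, ?_⟩
    · rw [Lr_Rr, h3.h0, map_neg]
    · rw [Lr_Rr, h3.h1, map_neg]
    · intro i h0 h1
      rw [Lr_Rr, h3.h2 i h0 h1]
  have hG2 := good_Rr hW2Z hinv2
  obtain ⟨u, huW, hu0, hr0, hr1, hr2⟩ :=
    exists_block_vector hG2 hcard (v := w) ⟨hwW.1, hwW.2, hs0, hs1, hs2⟩ hw0 B h01
  have hsL : SignVec Lr B i0 i1 u := huW.2.2
  have hsR : SignVec Rr B i0 i1 u := ⟨hr0, hr1, hr2⟩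
  have hexL : ∀ s : Finset (Fin k), ∃ g : Perm α, s.card = 2 →
      (∀ l, (l ∈ s → Lr (tb B l) (Lr g u) = -(Lr g u)) ∧
        (l ∉ s → Lr (tb B l) (Lr g u) = Lr g u)) ∧
      (∀ l, (l ∈ s → Rr (tb B l) (Rr g u) = -(Rr g u)) ∧
        (l ∉ s → Rr (tb B l) (Rr g u) = Rr g u)) := by
    intro s
    by_cases hs : s.card = 2
    · obtain ⟨g, hg⟩ := exists_translate B h01 s hs
      exact ⟨g, fun _ => ⟨hg Lr u hsL, hg Rr u hsR⟩⟩
    · exact ⟨1, fun h => absurd h hs⟩
  choose g hg using hexL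
  have hc : 0 < inner ℝ u u := real_inner_self_pos.2 hu0
  set P := Finset.powersetCard 2 (Finset.univ : Finset (Fin k)) with hP
  have hfam : ∀ s ∈ P, ∀ s' ∈ P,
      (∀ l, (l ∈ s → Lr (tb B l) (Lr (g s) (Rr (g s') u)) = -(Lr (g s) (Rr (g s') u))) ∧
        (l ∉ s → Lr (tb B l) (Lr (g s) (Rr (g s') u)) = (Lr (g s) (Rr (g s') u)))) ∧
      (∀ l, (l ∈ s' → Rr (tb B l) (Lr (g s) (Rr (g s') u)) = -(Lr (g s) (Rr (g s') u))) ∧
        (l ∉ s' → Rr (tb B l) (Lr (g s) (Rr (g s') u)) = (Lr (g s) (Rr (g s') u)))) := by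
    intro s hs s' hs'
    rw [hP, Finset.mem_powersetCard] at hs hs'
    have h1 := (hg s hs.2).1
    have h2 := (hg s' hs'.2).2
    refine ⟨fun l => ⟨fun hl => ?_, fun hl => ?_⟩, fun l => ⟨fun hl => ?_, fun hl => ?_⟩⟩
    · rw [Lr_Rr, Lr_Rr, (h1 l).1 hl, map_neg]
    · rw [Lr_Rr, Lr_Rr, (h1 l).2 hl]
    · rw [← Lr_Rr, (h2 l).1 hl, map_neg]
    · rw [← Lr_Rr, (h2 l).2 hl]
  have := hs_bound D (P ×ˢ P)
    (fun p => Lr (g p.1) (Rr (g p.2) u)) (inner ℝ u u) hc
    (fun p _ => by rw [inner_Lr, inner_Rr]) (by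
      rintro ⟨s, s'⟩ hs ⟨q, q'⟩ hq hne
      rw [Finset.mem_product] at hs hq
      have hs1 : s.card = 2 := (Finset.mem_powersetCard.1 hs.1).2
      have hs2 : s'.card = 2 := (Finset.mem_powersetCard.1 hs.2).2
      have hq1 : q.card = 2 := (Finset.mem_powersetCard.1 hq.1).2
      have hq2 : q'.card = 2 := (Finset.mem_powersetCard.1 hq.2).2
      by_cases h : s = q
      · have h' : s' ≠ q' := fun h' => hne (by rw [h, h'])
        exact translate_orth Rr inner_Rr B hs2 hq2 h'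
          (fun l hl => ((hfam s hs.1 s' hs.2).2 l).1 hl)
          (fun l hl => ((hfam q hq.1 q' hq.2).2 l).2 hl)
      · exact translate_orth Lr inner_Lr B hs1 hq1 h
          (fun l hl => ((hfam s hs.1 s' hs.2).1 l).1 hl)
          (fun l hl => ((hfam q hq.1 q' hq.2).1 l).2 hl)) lam (by
      rintro ⟨s, s'⟩ _
      show Top D (Lr (g s) (Rr (g s') u)) = lam • (Lr (g s) (Rr (g s') u))
      rw [Top_Lr, Top_Rr D hD, huW.2.1, map_smul, map_smul])
  rw [Finset.card_product, hP, Finset.card_powersetCard, Finset.card_univ,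
    Fintype.card_fin] at this
  push_cast at this
  rw [pow_two]
  exact this

/-- Norm bound, one-sided. -/
theorem norm_bound_one {k : ℕ} (D : Finset (Perm α)) (hD : ∀ d ∈ D, d⁻¹ ∈ D)
    (B : BlockFam α k) (hk : 2 ≤ k) (hcard : 10 ≤ Fintype.card α) {r : EE α} (hr : r ∈ Zs α) :
    ‖Top D r‖ ^ 2 ≤
      ((Fintype.card (Perm α) : ℝ) * D.card / (k.choose 2 : ℝ)) * ‖r‖ ^ 2 := by
  have hc : (0 : ℝ) < (k.choose 2 : ℝ) := by
    exact_mod_cast Nat.choose_pos hk
  apply norm_bound_of_eigen (Top D) (Top_symm D hD) (Zs α) (fun v hv => Zs_Top D hv) _ _ r hr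
  intro lam v hv hv0 hT
  rw [le_div_iff₀ hc]
  have h01 : (⟨0, by omega⟩ : Fin k) ≠ ⟨1, by omega⟩ := by
    intro h; simp at h
  have := eig_bound_one D B h01 hcard hv hv0 hT
  linarith

/-- Norm bound, two-sided. -/
theorem norm_bound_two {k : ℕ} (D : Finset (Perm α)) (hD : ∀ d ∈ D, d⁻¹ ∈ D)
    (hD' : ∀ g, ∀ d ∈ D, g * d * g⁻¹ ∈ D)
    (B : BlockFam α k) (hk : 2 ≤ k) (hcard : 10 ≤ Fintype.card α) {r : EE α} (hr : r ∈ Zs α) :
    ‖Top D r‖ ^ 2 ≤
      ((Fintype.card (Perm α) : ℝ) * D.card / (k.choose 2 : ℝ) ^ 2) * ‖r‖ ^ 2 := by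
  have hc : (0 : ℝ) < (k.choose 2 : ℝ) := by
    exact_mod_cast Nat.choose_pos hk
  apply norm_bound_of_eigen (Top D) (Top_symm D hD) (Zs α) (fun v hv => Zs_Top D hv) _ _ r hr
  intro lam v hv hv0 hT
  rw [le_div_iff₀ (by positivity)]
  have h01 : (⟨0, by omega⟩ : Fin k) ≠ ⟨1, by omega⟩ := by
    intro h; simp at h
  have := eig_bound_two D hD' B h01 hcard hv hv0 hT
  linarith

end Pool.Agent.Helper75.Ekr
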