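import Pool.Agent.Helper75.Ekr.Degree1

/-!
The two analytic steps.
-/

namespace Pool.Agent.Helper75.Ekr

open Equiv Equiv.Perm

set_option linter.unusedSectionVars false
set_option linter.unusedSimpArgs false

variable {α : Type} [Fintype α] [DecidableEq α]

/-- Analytic hypotheses on the connection set `C` (with `L` the common size of the sets
`{d ∈ Der : d x = x'}`). -/
structure Ana (C : Finset (Perm α)) (L ε : ℝ) : Prop where
  hC : C ⊆ AA α
  hinv : ∀ c ∈ C, c⁻¹ ∈ C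
  hL : 0 < L
  hε : 0 ≤ ε
  hZ : ∀ r ∈ Zs α, ‖Top C r‖ ≤ ε * L * ‖r‖
  hU : ∀ b : α → α → ℝ, (∀ x, ∑ y, b x y = 0) → ‖Top C (Ub b)‖ ≤ 3 * L * ‖Ub b‖

/-- Independence. -/
def Indep (C I : Finset (Perm α)) : Prop := ∀ g ∈ I, ∀ h ∈ I, g⁻¹ * h ∉ C

lemma inner_ind_Top (K : Finset (Perm α)) (C J : Finset (Perm α)) :
    inner ℝ (ind K) (Top C (ind J)) = ∑ s ∈ K, ((C.filter (fun c => s * c ∈ J)).card : ℝ) := by
  rw [real_inner_comm, inner_ind]
  apply Finset.sum_congr rfl
  intro s _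
  rw [Top_apply]
  simp only [ind_apply]
  rw [← Finset.sum_filter]
  simp

lemma inner_indep {C I J K : Finset (Perm α)} (hI : Indep C I) (hJ : J ⊆ I) (hK : K ⊆ I) :
    inner ℝ (ind K) (Top C (ind J)) = 0 := by
  rw [inner_ind_Top]
  apply Finset.sum_eq_zero
  intro s hs
  rw [Nat.cast_eq_zero, Finset.card_eq_zero, Finset.filter_eq_empty_iff]
  intro c hc hsc
  apply hI s (hK hs) (s * c) (hJ hsc)
  rwa [inv_mul_cancel_left]

/-- Step B. -/
theorem stepB {C : Finset (Perm α)} {L ε : ℝ} (hA : Ana C L ε) (hc : 4 ≤ Fintype.card α)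
    {I : Finset (Perm α)} (hIA : I ⊆ AA α) (hI : Indep C I) {x0 y0 : α}
    {K : Finset (Perm α)} (hK : K ⊆ I) {c' : ℝ} (hc' : 0 ≤ c')
    (hKc : ∀ s ∈ K, c' * L ≤ ((C.filter (fun c => s * c ∈ Om x0 y0)).card : ℝ))
    (hJ : 0 < (I.filter (fun σ => σ x0 = y0)).card) :
    c' ^ 2 * (I.filter (fun σ => σ x0 = y0)).card * K.card ≤
      (3 * √(8 / Fintype.card α) + ε) ^ 2 * (Om x0 y0).card ^ 2 := by
  classical
  have hne : Nonempty α := ⟨x0⟩
  have hn : (4 : ℝ) ≤ Fintype.card α := by exact_mod_cast hc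
  have hAp : (0 : ℝ) < (AA α).card := by exact_mod_cast card_AA_pos (α := α)
  set J := I.filter (fun σ => σ x0 = y0) with hJdef
  have hJI : J ⊆ I := Finset.filter_subset _ _
  have hJO : J ⊆ Om x0 y0 := by
    intro σ hσ
    rw [hJdef, Finset.mem_filter] at hσ
    rw [mem_Om]
    exact ⟨mem_AA.1 (hIA hσ.1), hσ.2⟩
  have hOA : Om x0 y0 ⊆ AA α := Finset.filter_subset _ _
  set n : ℝ := (Fintype.card α : ℝ) with hndef
  set V : ℝ := ((Om x0 y0).card : ℝ) with hV
  have hVeq : V = (AA α).card / n := card_Om (by omega) x0 y0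
  have hV0 : 0 < V := by rw [hVeq]; positivity
  set j : ℝ := (J.card : ℝ) with hj
  have hj0 : 0 < j := by rw [hj]; exact_mod_cast hJ
  have hjV : j ≤ V := by rw [hj, hV]; exact_mod_cast Finset.card_le_card hJO
  set k : ℝ := (K.card : ℝ) with hk
  have hk0 : 0 ≤ k := by rw [hk]; positivity
  obtain ⟨h, hh⟩ : ∃ h : EE α, h = ind J - (j / V) • ind (Om x0 y0) := ⟨_, rfl⟩
  have happ : ∀ σ, h σ = (if σ ∈ J then 1 else 0) - (j / V) * (if σ ∈ Om x0 y0 then 1 else 0) := by
    intro σ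
    simp [hh, ind_apply]
  have hsupp : ∀ σ, σ ∉ Om x0 y0 → h σ = 0 := by
    intro σ hσ
    rw [happ, if_neg hσ, if_neg (fun h => hσ (hJO h))]
    ring
  have hsuppA : ∀ σ, σ ∉ AA α → h σ = 0 := fun σ hσ => hsupp σ (fun h => hσ (hOA h))
  -- sums
  have hcs : ∀ x y, (x = x0 ∨ y = y0) → cs h x y = 0 := by
    intro x y hxy
    by_cases hb : x = x0 ∧ y = y0
    · rw [hb.1, hb.2]
      unfold cs
      have : ∀ σ ∈ Om x0 y0, h σ = (if σ ∈ J then 1 else 0) - j / V := by
        intro σ hσ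
        rw [happ, if_pos hσ, mul_one]
      rw [Finset.sum_congr rfl this, Finset.sum_sub_distrib, ← Finset.sum_filter,
        Finset.sum_const, Finset.sum_const, nsmul_eq_mul, nsmul_eq_mul, mul_one]
      have e1 : (Om x0 y0).filter (fun σ => σ ∈ J) = J := by
        ext σ
        rw [Finset.mem_filter]
        exact ⟨fun h => h.2, fun h => ⟨hJO h, h⟩⟩
      rw [e1, ← hj, ← hV]
      field_simp
      ring
    · unfold cs
      apply Finset.sum_eq_zero
      intro σ hσ
      apply hsupp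
      intro hσ'
      rw [mem_Om] at hσ hσ'
      apply hb
      rcases hxy with rfl | rfl
      · exact ⟨rfl, by rw [← hσ.2, hσ'.2]⟩
      · exact ⟨σ.injective (by rw [hσ.2, hσ'.2]), rfl⟩
  have htot : tot h = 0 := by
    rw [← sum_cs_right h x0]
    exact Finset.sum_eq_zero fun y _ => hcs x0 y (Or.inl rfl)
  have hbm : ∀ x y, bm h x y = ((n - 1) / (AA α).card) * cs h x y := by
    intro x y
    unfold bm
    rw [htot, zero_div, sub_zero]
  have hb1 : ∀ y, bm h x0 y = 0 := fun y => by rw [hbm, hcs x0 y (Or.inl rfl), mul_zero]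
  have hb2 : ∀ x, bm h x y0 = 0 := fun x => by rw [hbm, hcs x y0 (Or.inr rfl), mul_zero]
  have hrow := bm_row h (by omega)
  have hcol := bm_col h (by omega)
  obtain ⟨hu1, hu2⟩ := norm_Ub_bm hc hsuppA
  set u := Ub (bm h) with hu
  -- the degree one part of `h` is small
  have hsec := second_moment_coset hrow hcol hc hb1 hb2
  have husmall : ‖u‖ ^ 2 ≤ (8 / n) * ‖h‖ ^ 2 := by
    have e1 : inner ℝ h u = ∑ σ ∈ Om x0 y0, h σ * u σ := by
      rw [inner_eq]
      symm
      apply Finset.sum_subset (Finset.subset_univ _)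
      intro σ _ hσ
      rw [hsupp σ hσ, zero_mul]
    have e2 : (∑ σ ∈ Om x0 y0, h σ * u σ) ^ 2 ≤
        (∑ σ ∈ Om x0 y0, (h σ) ^ 2) * ∑ σ ∈ Om x0 y0, (u σ) ^ 2 :=
      Finset.sum_mul_sq_le_sq_mul_sq _ _ _
    have e3 : ∑ σ ∈ Om x0 y0, (h σ) ^ 2 ≤ ‖h‖ ^ 2 := by
      rw [← real_inner_self_eq_norm_sq, inner_eq]
      simp only [← pow_two]
      exact Finset.sum_le_sum_of_subset_of_nonneg (Finset.subset_univ _)
        (fun _ _ _ => sq_nonneg _)
    have e4 : ∑ σ ∈ Om x0 y0, (u σ) ^ 2 ≤ (8 / n) * ‖u‖ ^ 2 := by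
      calc ∑ σ ∈ Om x0 y0, (u σ) ^ 2
          = ∑ σ ∈ Om x0 y0, (gF Finset.univ (bm h) σ) ^ 2 := by
            apply Finset.sum_congr rfl
            intro σ hσ
            rw [hu, Ub_apply, if_pos (hOA hσ)]
        _ ≤ ∑ σ ∈ Finset.univ.filter (fun σ : Perm α => σ x0 = y0),
            (gF Finset.univ (bm h) σ) ^ 2 := by
            apply Finset.sum_le_sum_of_subset_of_nonneg
            · intro σ hσ
              rw [mem_Om] at hσ
              simp [hσ.2]
            · intro _ _ _; exact sq_nonneg _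
        _ ≤ _ := hsec
        _ = (8 / n) * ‖u‖ ^ 2 := by
            rw [hu2, card_AA (α := α) (by omega)]
            push_cast
            have h1 : n ≠ 0 := by linarith
            have h2 : n - 1 ≠ 0 := by linarith
            field_simp
            ring
    have e5 : (‖u‖ ^ 2) ^ 2 ≤ ‖h‖ ^ 2 * ((8 / n) * ‖u‖ ^ 2) := by
      rw [hu1] at *
      calc (inner ℝ h u) ^ 2 = (∑ σ ∈ Om x0 y0, h σ * u σ) ^ 2 := by rw [e1]
        _ ≤ _ := e2
        _ ≤ ‖h‖ ^ 2 * ∑ σ ∈ Om x0 y0, (u σ) ^ 2 :=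
            mul_le_mul_of_nonneg_right e3 (Finset.sum_nonneg fun _ _ => sq_nonneg _)
        _ ≤ _ := mul_le_mul_of_nonneg_left e4 (sq_nonneg _)
    by_cases hz : ‖u‖ ^ 2 = 0
    · rw [hz]; positivity
    · have hpos : 0 < ‖u‖ ^ 2 := lt_of_le_of_ne (sq_nonneg _) (Ne.symm hz)
      have e6 : ‖u‖ ^ 2 * ‖u‖ ^ 2 ≤ ((8 / n) * ‖h‖ ^ 2) * ‖u‖ ^ 2 := by
        calc ‖u‖ ^ 2 * ‖u‖ ^ 2 = (‖u‖ ^ 2) ^ 2 := by ring
          _ ≤ _ := e5
          _ = _ := by ring
      exact le_of_mul_le_mul_right e6 hpos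
  have hun : ‖u‖ ≤ √(8 / n) * ‖h‖ := by
    have : √(8 / n) * ‖h‖ = √((8 / n) * ‖h‖ ^ 2) := by
      rw [Real.sqrt_mul (by positivity), Real.sqrt_sq (norm_nonneg _)]
    rw [this]
    exact Real.le_sqrt_of_sq_le husmall
  -- norm of h
  have hhn : ‖h‖ ^ 2 ≤ j := by
    have e1 : inner ℝ (ind J) (ind (Om x0 y0)) = j := by
      rw [inner_ind]
      simp only [ind_apply]
      rw [← Finset.sum_filter]
      have e1 : (Om x0 y0).filter (fun σ => σ ∈ J) = J := by
        ext σ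
        rw [Finset.mem_filter]
        exact ⟨fun h => h.2, fun h => ⟨hJO h, h⟩⟩
      rw [e1]
      simp [hj]
    rw [hh, norm_sub_sq_real, norm_ind_sq, inner_smul_right, e1, norm_smul, mul_pow,
      norm_ind_sq, Real.norm_eq_abs, sq_abs, ← hj, ← hV]
    have : j - 2 * (j / V * j) + (j / V) ^ 2 * V = j - j ^ 2 / V := by
      field_simp
      ring
    rw [this]
    have : 0 ≤ j ^ 2 / V := by positivity
    linarith
  have hhn' : ‖h‖ ≤ √j := Real.le_sqrt_of_sq_le hhn
  -- bound for `Top C h`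
  have hTh : ‖Top C h‖ ≤ (3 * √(8 / n) + ε) * L * √j := by
    have e0 : h = u + rem h := by
      have := f_eq h
      rw [htot, zero_div, zero_smul, zero_add] at this
      exact this
    have e1 : Top C h = Top C u + Top C (rem h) := by
      conv_lhs => rw [e0]
      rw [map_add]
    have e2 := hA.hU (bm h) hrow
    have e3 := hA.hZ (rem h) (rem_mem hc hsuppA)
    have e4 : ‖rem h‖ ≤ ‖h‖ := by
      have := (norm_rem_le hc hsuppA).1
      exact (sq_le_sq₀ (norm_nonneg _) (norm_nonneg _)).1 this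
    rw [e1]
    refine (norm_add_le _ _).trans ?_
    have hL := hA.hL
    have hε := hA.hε
    have h8 : 0 ≤ √(8 / n) := Real.sqrt_nonneg _
    calc ‖Top C u‖ + ‖Top C (rem h)‖ ≤ 3 * L * (√(8 / n) * ‖h‖) + ε * L * ‖h‖ := by
          apply add_le_add
          · exact e2.trans (mul_le_mul_of_nonneg_left hun (by positivity))
          · exact e3.trans (mul_le_mul_of_nonneg_left e4 (by positivity))
      _ = (3 * √(8 / n) + ε) * L * ‖h‖ := by ring
      _ ≤ _ := mul_le_mul_of_nonneg_left hhn' (by positivity)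
  -- main inequality
  have m1 : inner ℝ (ind K) (Top C (ind J)) = 0 := inner_indep hI hJI hK
  have m2 : c' * L * k ≤ inner ℝ (ind K) (Top C (ind (Om x0 y0))) := by
    rw [inner_ind_Top]
    calc c' * L * k = ∑ _s ∈ K, c' * L := by
          rw [Finset.sum_const, nsmul_eq_mul, hk]; ring
      _ ≤ _ := Finset.sum_le_sum hKc
  have m1' : (j / V) * inner ℝ (ind K) (Top C (ind (Om x0 y0))) +
      inner ℝ (ind K) (Top C h) = 0 := by
    rw [← m1, hh, map_sub, map_smul, inner_sub_right, inner_smul_right]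
    ring
  have m4 : (j / V) * (c' * L * k) ≤ √k * ((3 * √(8 / n) + ε) * L * √j) := by
    have e1 : (j / V) * (c' * L * k) ≤ (j / V) * inner ℝ (ind K) (Top C (ind (Om x0 y0))) :=
      mul_le_mul_of_nonneg_left m2 (by positivity)
    have e2 : (j / V) * inner ℝ (ind K) (Top C (ind (Om x0 y0))) =
        - inner ℝ (ind K) (Top C h) := by linarith [m1']
    have e3 : - inner ℝ (ind K) (Top C h) ≤ ‖ind K‖ * ‖Top C h‖ := by
      have := abs_real_inner_le_norm (ind K) (Top C h)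
      exact (neg_le_abs _).trans this
    have e4 : ‖ind K‖ = √k := by
      rw [hk, ← norm_ind_sq, Real.sqrt_sq (norm_nonneg _)]
    rw [e4] at e3
    refine (e1.trans (le_of_eq e2)).trans (e3.trans ?_)
    exact mul_le_mul_of_nonneg_left hTh (Real.sqrt_nonneg _)
  -- clean up
  set δ := 3 * √(8 / n) + ε with hδ
  have hL := hA.hL
  have hδ0 : 0 ≤ δ := by
    have := hA.hε
    positivity
  have m5 : j * c' * k ≤ √k * (δ * √j) * V := by
    have e1 : (j / V) * (c' * L * k) = (j * c' * k) * L / V := by ring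
    rw [e1, div_le_iff₀ hV0] at m4
    have e2 : (j * c' * k) * L ≤ (√k * (δ * √j) * V) * L := by
      refine m4.trans (le_of_eq ?_)
      ring
    exact le_of_mul_le_mul_right e2 hL
  have m6 : (j * c' * k) ^ 2 ≤ (√k * (δ * √j) * V) ^ 2 :=
    pow_le_pow_left₀ (by positivity) m5 2
  have m7 : (√k * (δ * √j) * V) ^ 2 = k * j * (δ ^ 2 * V ^ 2) := by
    have e1 : √k ^ 2 = k := Real.sq_sqrt hk0
    have e2 : √j ^ 2 = j := Real.sq_sqrt hj0.le
    calc (√k * (δ * √j) * V) ^ 2 = √k ^ 2 * √j ^ 2 * (δ ^ 2 * V ^ 2) := by ring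
      _ = _ := by rw [e1, e2]
  rw [m7] at m6
  by_cases hkz : k = 0
  · rw [hkz, mul_zero]; positivity
  · have hkp : 0 < k := lt_of_le_of_ne hk0 (Ne.symm hkz)
    have e1 : (c' ^ 2 * j * k) * (k * j) ≤ (δ ^ 2 * V ^ 2) * (k * j) := by
      calc (c' ^ 2 * j * k) * (k * j) = (j * c' * k) ^ 2 := by ring
        _ ≤ _ := m6
        _ = _ := by ring
    exact le_of_mul_le_mul_right e1 (mul_pos hkp hj0)

lemma cs_ind {I : Finset (Perm α)} (hIA : I ⊆ AA α) (x y : α) :
    cs (ind I) x y = ((I.filter (fun σ => σ x = y)).card : ℝ) := by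
  unfold cs
  simp only [ind_apply]
  rw [← Finset.sum_filter, Finset.sum_const, nsmul_eq_mul, mul_one]
  congr 2
  ext σ
  rw [Finset.mem_filter, Finset.mem_filter, mem_Om]
  constructor
  · rintro ⟨h1, h2⟩
    exact ⟨h2, h1.2⟩
  · rintro ⟨h1, h2⟩
    exact ⟨⟨mem_AA.1 (hIA h1), h2⟩, h1⟩

/-- The quadratic inequality of step A. -/
lemma stepA_quad {C : Finset (Perm α)} {L ε : ℝ} (hA : Ana C L ε) (hc : 4 ≤ Fintype.card α)
    {I : Finset (Perm α)} (hIA : I ⊆ AA α) (hI : Indep C I) :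
    ((I.card : ℝ) / (AA α).card) ^ 2 * C.card * (AA α).card ≤
      3 * L * ‖Ub (bm (ind I))‖ ^ 2 + ε * L * I.card := by
  classical
  have hne : Nonempty α := Fintype.card_pos_iff.1 (by omega)
  have hAp : (0 : ℝ) < (AA α).card := by exact_mod_cast card_AA_pos (α := α)
  have hsuppA : ∀ σ, σ ∉ AA α → ind I σ = 0 := fun σ hσ => by
    rw [ind_apply, if_neg (fun h => hσ (hIA h))]
  have htot : tot (ind I) = I.card := by
    unfold tot
    simp only [ind_apply]
    rw [← Finset.sum_filter, Finset.sum_const, nsmul_eq_mul, mul_one]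
    congr 2
    ext σ
    rw [Finset.mem_filter]
    exact ⟨fun h => h.2, fun h => ⟨hIA h, h⟩⟩
  have hrow := bm_row (ind I) (by omega)
  have hdec := f_eq (ind I)
  have hrZ := rem_mem hc hsuppA
  have hnorm := norm_rem_le hc hsuppA
  rw [norm_ind_sq] at hnorm
  have h0 := inner_indep hI (Finset.Subset.refl I) (Finset.Subset.refl I)
  rw [htot] at hdec
  obtain ⟨u, hu⟩ : ∃ u, u = Ub (bm (ind I)) := ⟨_, rfl⟩
  obtain ⟨r, hr⟩ : ∃ r, r = rem (ind I) := ⟨_, rfl⟩
  have hTu := hA.hU (bm (ind I)) hrow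
  rw [← hu] at hdec hTu hnorm ⊢
  rw [← hr] at hdec hrZ hnorm
  have hTr := hA.hZ r hrZ
  have hsym := Top_symm C hA.hinv
  have hTone := Top_ind_AA hA.hC
  have i1 : inner ℝ (ind (AA α)) u = 0 := by rw [hu]; exact inner_ind_Ub (by omega) hrow
  have i2 : inner ℝ r (ind (AA α)) = 0 := inner_Zs_ind hrZ
  have i3 : inner ℝ (Top C r) u = 0 := by rw [hu]; exact inner_Zs_Ub (Zs_Top C hrZ) _
  have i4 : inner ℝ (Top C r) (ind (AA α)) = 0 := inner_Zs_ind (Zs_Top C hrZ)
  have i5 : inner ℝ (ind (AA α)) (Top C u) = 0 := by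
    rw [← hsym, hTone, inner_smul_left, i1, mul_zero]
  have i6 : inner ℝ (ind (AA α)) (ind (AA α)) = ((AA α).card : ℝ) := by
    rw [real_inner_self_eq_norm_sq, norm_ind_sq]
  obtain ⟨c, hcd⟩ : ∃ c : ℝ, c = (I.card : ℝ) / (AA α).card := ⟨_, rfl⟩
  rw [← hcd] at hdec ⊢
  rw [hdec] at h0
  simp only [map_add, map_smul, inner_add_left, inner_add_right, inner_smul_left,
    inner_smul_right, hTone, conj_trivial] at h0
  have j1 : inner ℝ u (ind (AA α)) = 0 := by rw [real_inner_comm]; exact i1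
  have j2 : inner ℝ (ind (AA α)) (Top C r) = 0 := by rw [real_inner_comm]; exact i4
  have j3 : inner ℝ u (Top C r) = 0 := by rw [real_inner_comm]; exact i3
  have j4 : inner ℝ r (Top C u) = 0 := by rw [← hsym]; exact i3
  rw [i6, i5, j1, i2, j2, j3, j4] at h0
  have k1 := abs_real_inner_le_norm u (Top C u)
  have k2 := abs_real_inner_le_norm r (Top C r)
  have k3 := neg_le_abs (inner ℝ u (Top C u))
  have k4 := neg_le_abs (inner ℝ r (Top C r))
  have k5 : ‖u‖ * ‖Top C u‖ ≤ 3 * L * ‖u‖ ^ 2 := by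
    have := mul_le_mul_of_nonneg_left hTu (norm_nonneg u)
    refine this.trans (le_of_eq ?_)
    ring
  have k6 : ‖r‖ * ‖Top C r‖ ≤ ε * L * ‖r‖ ^ 2 := by
    have := mul_le_mul_of_nonneg_left hTr (norm_nonneg r)
    refine this.trans (le_of_eq ?_)
    ring
  have k7 : ε * L * ‖r‖ ^ 2 ≤ ε * L * I.card :=
    mul_le_mul_of_nonneg_left hnorm.1 (mul_nonneg hA.hε hA.hL.le)
  have k8 : c ^ 2 * C.card * (AA α).card = c * (c * (C.card * (AA α).card)) := by ring
  rw [k8]
  linarith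

/-- Step A. -/
theorem stepA {C : Finset (Perm α)} {L ε : ℝ} (hA : Ana C L ε)
    (hc : 200000 ≤ Fintype.card α) (hε : ε ≤ 1 / 100)
    (hCc : ((Fintype.card α : ℝ) - 3) * L ≤ C.card)
    {I : Finset (Perm α)} (hIA : I ⊆ AA α) (hI : Indep C I)
    (hbig : ((AA α).card : ℝ) / Fintype.card α ≤ I.card) :
    ∃ x y, ((AA α).card : ℝ) / Fintype.card α / 60 ≤
      ((I.filter (fun σ => σ x = y)).card : ℝ) := by
  classical
  by_contra hcon
  push Not at hcon
  have hne : Nonempty α := Fintype.card_pos_iff.1 (by omega)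
  have hn : (200000 : ℝ) ≤ Fintype.card α := by exact_mod_cast hc
  have hAp : (0 : ℝ) < (AA α).card := by exact_mod_cast card_AA_pos (α := α)
  have hsuppA : ∀ σ, σ ∉ AA α → ind I σ = 0 := fun σ hσ => by
    rw [ind_apply, if_neg (fun h => hσ (hIA h))]
  have htot : tot (ind I) = I.card := by
    unfold tot
    simp only [ind_apply]
    rw [← Finset.sum_filter, Finset.sum_const, nsmul_eq_mul, mul_one]
    congr 2
    ext σ
    rw [Finset.mem_filter]
    exact ⟨fun h => h.2, fun h => ⟨hIA h, h⟩⟩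
  have hquad := stepA_quad hA (by omega) hIA hI
  have hnorm := norm_rem_le (by omega) hsuppA
  rw [norm_ind_sq] at hnorm
  obtain ⟨hu1, hu2⟩ := norm_Ub_bm (by omega) hsuppA
  have hrow := bm_row (ind I) (by omega)
  have hcol := bm_col (ind I) (by omega)
  have hL := hA.hL
  have hε0 := hA.hε
  obtain ⟨n, hndef⟩ : ∃ n : ℝ, n = (Fintype.card α : ℝ) := ⟨_, rfl⟩
  obtain ⟨a, hadef⟩ : ∃ a : ℝ, a = ((AA α).card : ℝ) := ⟨_, rfl⟩
  obtain ⟨S, hSdef⟩ : ∃ S : ℝ, S = (I.card : ℝ) := ⟨_, rfl⟩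
  obtain ⟨X, hXdef⟩ : ∃ X : ℝ, X = ‖Ub (bm (ind I))‖ ^ 2 := ⟨_, rfl⟩
  have hXi : X = ∑ σ ∈ I, Ub (bm (ind I)) σ := by
    rw [hXdef, hu1, real_inner_comm, inner_ind]
  have hfour := fourth_moment hrow hcol (by omega) (β := 1 / 60) (by
    intro x y
    have h1 := hcon x y
    have h2 := cs_ind hIA x y
    unfold bm
    rw [h2, htot, ← hndef, ← hadef, ← hSdef]
    rw [← hndef, ← hadef] at h1
    -- need `S ≤ 4 a / n`
    have hV0 : 0 < a / n := by
      rw [hadef, hndef]; positivity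
    have hS4 : S ≤ 4 * (a / n) := by
      rw [← hadef, ← hSdef, ← hXdef] at hquad
      rw [← hSdef, ← hXdef] at hnorm
      have hXS := hnorm.2
      rw [← hndef] at hCc
      have e1 : (S / a) ^ 2 * ((n - 3) * L) * a ≤ (3 + ε) * L * S := by
        have e0 : (S / a) ^ 2 * ((n - 3) * L) * a ≤ (S / a) ^ 2 * C.card * a := by
          apply mul_le_mul_of_nonneg_right _ (by rw [hadef]; exact hAp.le)
          exact mul_le_mul_of_nonneg_left hCc (sq_nonneg _)
        refine e0.trans (hquad.trans ?_)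
        have : 3 * L * X ≤ 3 * L * S := mul_le_mul_of_nonneg_left hXS (by linarith)
        linarith
      have hap : 0 < a := by rw [hadef]; exact hAp
      have e2 : (S / a) ^ 2 * ((n - 3) * L) * a = (S ^ 2 * (n - 3) / a) * L := by
        field_simp
      rw [e2] at e1
      have e3 : (S ^ 2 * (n - 3) / a) * L ≤ ((3 + ε) * S) * L := by linarith
      have e4 := le_of_mul_le_mul_right e3 hL
      rw [div_le_iff₀ hap] at e4
      have hSp : 0 < S := by
        rw [← hadef, ← hndef, ← hSdef] at hbig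
        linarith
      have e5 : (S * (n - 3)) * S ≤ ((3 + ε) * a) * S := by nlinarith
      have e6 := le_of_mul_le_mul_right e5 hSp
      have hn' : 200000 ≤ n := by rw [hndef]; exact hn
      rw [← mul_div_assoc, le_div_iff₀ (by linarith)]
      nlinarith
    have hn' : 200000 ≤ n := by rw [hndef]; exact hn
    have hS0 : 0 ≤ S := by rw [hSdef]; positivity
    have hk0 : (0 : ℝ) ≤ ((I.filter (fun σ => σ x = y)).card : ℝ) := by positivity
    have hap : 0 < a := by rw [hadef]; exact hAp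
    have b1 : |((I.filter (fun σ => σ x = y)).card : ℝ) - S / n| ≤ a / n / 60 := by
      rw [abs_le]
      constructor
      · have : S / n ≤ a / n / 60 := by
          rw [div_le_iff₀ (by linarith)]
          have : a / n / 60 * n = a / 60 := by field_simp
          rw [this]
          have : 4 * (a / n) ≤ a / 60 := by
            rw [← mul_div_assoc, div_le_iff₀ (by linarith)]
            nlinarith
          linarith
        linarith
      · have : 0 ≤ S / n := by positivity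
        linarith
    have b2 : |(n - 1) / a * (((I.filter (fun σ => σ x = y)).card : ℝ) - S / n)| ≤ 1 / 60 := by
      rw [abs_mul, abs_of_nonneg (div_nonneg (by linarith) hap.le)]
      calc (n - 1) / a * |((I.filter (fun σ => σ x = y)).card : ℝ) - S / n|
          ≤ (n - 1) / a * (a / n / 60) :=
            mul_le_mul_of_nonneg_left b1 (div_nonneg (by linarith) hap.le)
        _ = ((n - 1) / n) / 60 := by field_simp
        _ ≤ 1 / 60 := by
            apply div_le_div_of_nonneg_right _ (by norm_num)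
            rw [div_le_one (by linarith)]
            linarith
    exact sq_le_sq' (by linarith [neg_le_of_abs_le b2]) (le_of_abs_le b2))
  -- from here on only real arithmetic
  have hVS : a / n ≤ S := by rw [hadef, hndef, hSdef]; exact hbig
  have hn' : 200000 ≤ n := by rw [hndef]; exact hn
  have hap : 0 < a := by rw [hadef]; exact hAp
  have hSp : 0 < S := lt_of_lt_of_le (by positivity) hVS
  rw [← hadef, ← hSdef, ← hXdef] at hquad
  rw [← hSdef, ← hXdef] at hnorm
  rw [← hndef] at hCc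
  have hXS := hnorm.2
  have e1 : (S / a) ^ 2 * ((n - 3) * L) * a ≤ 3 * L * X + ε * L * S := by
    have e0 : (S / a) ^ 2 * ((n - 3) * L) * a ≤ (S / a) ^ 2 * C.card * a := by
      apply mul_le_mul_of_nonneg_right _ hap.le
      exact mul_le_mul_of_nonneg_left hCc (sq_nonneg _)
    exact e0.trans hquad
  have e2 : (S / a) ^ 2 * ((n - 3) * L) * a = (S ^ 2 * (n - 3) / a) * L := by
    field_simp
  rw [e2] at e1
  have e3 : (S ^ 2 * (n - 3) / a) * L ≤ (3 * X + ε * S) * L := by linarith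
  have e4 := le_of_mul_le_mul_right e3 hL
  -- `X ≥ 0.32 S`
  have hXlow : 0.32 * S ≤ X := by
    have e5 : S * (n - 3) / n ≤ S ^ 2 * (n - 3) / a := by
      rw [div_le_div_iff₀ (by linarith) hap]
      have : a ≤ S * n := by rwa [div_le_iff₀ (by linarith)] at hVS
      have h3 : 0 ≤ S * (n - 3) := mul_nonneg hSp.le (by linarith)
      nlinarith
    have e6 : 0.9999 * S ≤ S * (n - 3) / n := by
      rw [le_div_iff₀ (by linarith)]
      nlinarith
    nlinarith
  -- `S ≤ 4 a / n`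
  have hS4 : S * n ≤ 4 * a := by
    rw [div_le_iff₀ hap] at e4
    have e5 : (S * (n - 3)) * S ≤ ((3 + ε) * a) * S := by nlinarith
    have e6 := le_of_mul_le_mul_right e5 hSp
    nlinarith
  -- power mean
  have p1 : X ^ 4 ≤ S ^ 3 * ∑ σ ∈ I, (Ub (bm (ind I)) σ) ^ 4 := by
    have q1 : (∑ σ ∈ I, Ub (bm (ind I)) σ) ^ 2 ≤ I.card * ∑ σ ∈ I, (Ub (bm (ind I)) σ) ^ 2 :=
      sq_sum_le_card_mul_sum_sq
    have q2 : (∑ σ ∈ I, (Ub (bm (ind I)) σ) ^ 2) ^ 2 ≤
        I.card * ∑ σ ∈ I, ((Ub (bm (ind I)) σ) ^ 2) ^ 2 := sq_sum_le_card_mul_sum_sq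
    rw [← hXi, ← hSdef] at q1
    rw [← hSdef] at q2
    have q3 : 0 ≤ ∑ σ ∈ I, (Ub (bm (ind I)) σ) ^ 2 := Finset.sum_nonneg fun _ _ => sq_nonneg _
    have q4 : ∑ σ ∈ I, ((Ub (bm (ind I)) σ) ^ 2) ^ 2 = ∑ σ ∈ I, (Ub (bm (ind I)) σ) ^ 4 :=
      Finset.sum_congr rfl fun σ _ => by ring
    rw [q4] at q2
    have q5 : (X ^ 2) ^ 2 ≤ (S * ∑ σ ∈ I, (Ub (bm (ind I)) σ) ^ 2) ^ 2 :=
      pow_le_pow_left₀ (sq_nonneg _) q1 2
    calc X ^ 4 = (X ^ 2) ^ 2 := by ring
      _ ≤ _ := q5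
      _ = S ^ 2 * (∑ σ ∈ I, (Ub (bm (ind I)) σ) ^ 2) ^ 2 := by ring
      _ ≤ S ^ 2 * (S * ∑ σ ∈ I, (Ub (bm (ind I)) σ) ^ 4) :=
          mul_le_mul_of_nonneg_left q2 (sq_nonneg _)
      _ = _ := by ring
  have p2 : ∑ σ ∈ I, (Ub (bm (ind I)) σ) ^ 4 ≤
      ∑ σ : Perm α, (gF Finset.univ (bm (ind I)) σ) ^ 4 := by
    calc ∑ σ ∈ I, (Ub (bm (ind I)) σ) ^ 4
        = ∑ σ ∈ I, (gF Finset.univ (bm (ind I)) σ) ^ 4 := by
          apply Finset.sum_congr rfl
          intro σ hσ
          rw [Ub_apply, if_pos (hIA hσ)]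
      _ ≤ _ := Finset.sum_le_sum_of_subset_of_nonneg (Finset.subset_univ _)
          (fun _ _ _ => by positivity)
  have hB : BB (bm (ind I)) = (n - 1) * X / a := by
    rw [hXdef, hu2, ← hadef, ← hndef]
    have : n - 1 ≠ 0 := by linarith
    field_simp
  rw [hB, ← hndef, card_AA (α := α) (by omega)] at hfour
  push_cast at hfour
  rw [← hadef] at hfour
  have hX0 : 0 < X := lt_of_lt_of_le (by positivity) hXlow
  -- `W ≤ X / a`
  have hW : (n - 1) * X / a / n ≤ X / a := by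
    rw [div_le_iff₀ (by linarith)]
    have : X / a * n = n * X / a := by ring
    rw [this]
    apply div_le_div_of_nonneg_right _ hap.le
    nlinarith
  have hW0 : 0 ≤ (n - 1) * X / a / n := by
    apply div_nonneg (div_nonneg (mul_nonneg (by linarith) hX0.le) hap.le) (by linarith)
  have p3 : 2 * a * (120 * ((n - 1) * X / a / n) ^ 2 + 36 * ((1 / 60) ^ 2 * ((n - 1) * X / a / n)))
      ≤ 240 * X ^ 2 / a + 0.02 * X := by
    have q1 : ((n - 1) * X / a / n) ^ 2 ≤ (X / a) ^ 2 := pow_le_pow_left₀ hW0 hW 2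
    have q2 : 2 * a * (120 * ((n - 1) * X / a / n) ^ 2 +
        36 * ((1 / 60) ^ 2 * ((n - 1) * X / a / n))) ≤
        2 * a * (120 * (X / a) ^ 2 + 36 * ((1 / 60) ^ 2 * (X / a))) := by
      apply mul_le_mul_of_nonneg_left _ (by linarith)
      linarith
    refine q2.trans (le_of_eq ?_)
    field_simp
    ring
  have p4 : X ^ 4 ≤ S ^ 3 * (240 * X ^ 2 / a + 0.02 * X) := by
    refine p1.trans ?_
    apply mul_le_mul_of_nonneg_left _ (by positivity)
    exact p2.trans (hfour.trans p3)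
  have p5 : 240 * X ^ 2 / a ≤ 0.0048 * X := by
    rw [div_le_iff₀ hap]
    have h1 : X * n ≤ 4 * a := by nlinarith
    have h2 : 200000 * X ≤ 4 * a := by nlinarith
    nlinarith
  have p6 : X ^ 3 * X ≤ (S ^ 3 * 0.0248) * X := by
    calc X ^ 3 * X = X ^ 4 := by ring
      _ ≤ _ := p4
      _ ≤ S ^ 3 * (0.0048 * X + 0.02 * X) := by
          apply mul_le_mul_of_nonneg_left _ (by positivity)
          linarith
      _ = _ := by ring
  have p7 := le_of_mul_le_mul_right p6 hX0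
  have p8 : (0.32 * S) ^ 3 ≤ X ^ 3 := pow_le_pow_left₀ (by positivity) hXlow 3
  have p9 : 0 < S ^ 3 := by positivity
  nlinarith

end Pool.Agent.Helper75.Ekr
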