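import Pool.Agent.Helper75.Ekr.ThreeCycles

/-!
Structure lemma for representations of the symmetric group without vectors fixed by the even part
of a point stabilizer.
-/

namespace Pool.Agent.Helper75.Ekr

open Equiv Equiv.Perm

set_option linter.unusedSectionVars false


variable {α : Type} [Fintype α] [DecidableEq α] {V : Type} [AddCommGroup V] [Module ℝ V]

/-- `W` is invariant and has no nonzero vector fixed by the even part of a point stabilizer. -/
structure Good (ρ : Perm α →* (V →ₗ[ℝ] V)) (W : Submodule ℝ V) : Prop where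
  inv : ∀ g, ∀ v ∈ W, ρ g v ∈ W
  fix : ∀ z : α, ∀ v ∈ W, (∀ h : Perm α, sign h = 1 → h z = z → ρ h v = v) → v = 0

/-- The stabilizer of a vector. -/
def stab (ρ : Perm α →* (V →ₗ[ℝ] V)) (v : V) : Subgroup (Perm α) where
  carrier := {g | ρ g v = v}
  one_mem' := by simp
  mul_mem' := by
    intro a b ha hb
    simp only [Set.mem_ofPred_eq] at *
    rw [map_mul, Module.End.mul_apply, hb, ha]
  inv_mem' := by
    intro a ha
    simp only [Set.mem_ofPred_eq] at *
    calc ρ a⁻¹ v = ρ a⁻¹ (ρ a v) := by rw [ha]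
      _ = v := by rw [← Module.End.mul_apply, ← map_mul, inv_mul_cancel, map_one]; rfl

lemma mem_stab {ρ : Perm α →* (V →ₗ[ℝ] V)} {v : V} {g : Perm α} : g ∈ stab ρ v ↔ ρ g v = v :=
  Iff.rfl

lemma rho_mul (ρ : Perm α →* (V →ₗ[ℝ] V)) (g h : Perm α) (v : V) :
    ρ (g * h) v = ρ g (ρ h v) := by
  rw [map_mul, Module.End.mul_apply]

/-- All three-cycles on `S` fix `v`. -/
def FixVec (ρ : Perm α →* (V →ₗ[ℝ] V)) (S : Set α) (v : V) : Prop :=
  ∀ a b c, a ∈ S → b ∈ S → c ∈ S → [a, b, c].Nodup → c3 a b c ∈ stab ρ v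

lemma FixVec.mono {ρ : Perm α →* (V →ₗ[ℝ] V)} {S T : Set α} {v : V} (h : FixVec ρ T v)
    (hST : S ⊆ T) : FixVec ρ S v :=
  fun a b c ha hb hc hn => h a b c (hST ha) (hST hb) (hST hc) hn

lemma FixVec.union {ρ : Perm α →* (V →ₗ[ℝ] V)} {S T : Set α} {v : V} {p q : α} (hpq : p ≠ q)
    (hpS : p ∈ S) (hqS : q ∈ S) (hpT : p ∈ T) (hqT : q ∈ T)
    (hS : FixVec ρ S v) (hT : FixVec ρ T v) : FixVec ρ (S ∪ T) v :=
  c3_mem_union _ S T hpq hpS hqS hpT hqT hS hT

lemma FixVec.even {ρ : Perm α →* (V →ₗ[ℝ] V)} {S : Set α} {v : V} (h : FixVec ρ S v)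
    {g : Perm α} (hg : sign g = 1) (hs : ∀ x, x ∉ S → g x = x) : ρ g v = v := by
  classical
  exact even_mem_of_c3 (stab ρ v) S h g hg hs

lemma FixVec.sub {ρ : Perm α →* (V →ₗ[ℝ] V)} {S : Set α} {v w : V} (h : FixVec ρ S v)
    (h' : FixVec ρ S w) : FixVec ρ S (v - w) := by
  intro a b c ha hb hc hn
  have h1 := h a b c ha hb hc hn
  have h2 := h' a b c ha hb hc hn
  rw [mem_stab] at *
  rw [map_sub, h1, h2]

/-- Translates of fixed vectors. -/
lemma FixVec.translate {ρ : Perm α →* (V →ₗ[ℝ] V)} {S T : Set α} {v : V} (h : FixVec ρ S v)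
    (g : Perm α) (hT : ∀ x ∈ T, g⁻¹ x ∈ S) : FixVec ρ T (ρ g v) := by
  intro a b c ha hb hc hn
  have h1 := h (g⁻¹ a) (g⁻¹ b) (g⁻¹ c) (hT _ ha) (hT _ hb) (hT _ hc) (by
    have : [g⁻¹ a, g⁻¹ b, g⁻¹ c] = [a, b, c].map (g⁻¹ : Perm α) := rfl
    rw [this]
    exact hn.map (g⁻¹ : Perm α).injective)
  rw [mem_stab] at *
  rw [← c3_conj, inv_inv] at h1
  rw [rho_mul, rho_mul] at h1
  have h2 := congrArg (ρ g) h1
  rw [← rho_mul, mul_inv_cancel, map_one, Module.End.one_apply] at h2
  exact h2

omit [Fintype α] [DecidableEq α] in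
lemma inv_app (g : Perm α) (x : α) : g⁻¹ (g x) = x := by simp

/-- The three-cycle condition. -/
def H3 (ρ : Perm α →* (V →ₗ[ℝ] V)) (W : Submodule ℝ V) : Prop :=
  ∀ w ∈ W, ∀ x y z, [x, y, z].Nodup → FixVec ρ ({x, y, z}ᶜ) (w - ρ (c3 x y z) w)

section StepOne

variable {ρ : Perm α →* (V →ₗ[ℝ] V)} {W : Submodule ℝ V}

/-- A function on ordered pairs with vanishing row and column sums and with `ω a b - ω a d`
independent of `a` vanishes. -/
lemma omega_zero (hcard : 4 ≤ Fintype.card α) (ω : α → α → V)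
    (hrel : ∀ a a' b d, a ≠ b → a ≠ d → a' ≠ b → a' ≠ d → b ≠ d →
      ω a b - ω a d = ω a' b - ω a' d)
    (hcol : ∀ b, ∑ a ∈ Finset.univ.erase b, ω a b = 0)
    (hrow : ∀ a, ∑ b ∈ Finset.univ.erase a, ω a b = 0) (a b : α) (hab : a ≠ b) : ω a b = 0 := by
  have hcol' : ∀ b d, b ≠ d → ∑ a ∈ (Finset.univ.erase b).erase d, ω a b = - ω d b := by
    intro b d hbd
    have := Finset.add_sum_erase (Finset.univ.erase b) (fun a => ω a b)
      (show d ∈ Finset.univ.erase b by simp [hbd.symm])
    rw [hcol b] at this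
    exact eq_neg_of_add_eq_zero_right this
  have hrow' : ∀ a d, a ≠ d → ∑ b ∈ (Finset.univ.erase a).erase d, ω a b = - ω a d := by
    intro a d had
    have := Finset.add_sum_erase (Finset.univ.erase a) (fun b => ω a b)
      (show d ∈ Finset.univ.erase a by simp [had.symm])
    rw [hrow a] at this
    exact eq_neg_of_add_eq_zero_right this
  have hc2 : ∀ b d : α, b ≠ d →
      (((Finset.univ.erase b).erase d).card : ℝ) = (Fintype.card α : ℝ) - 2 := by
    intro b d hbd
    rw [Finset.card_erase_of_mem (by simp [hbd.symm]), Finset.card_erase_of_mem (by simp),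
      Finset.card_univ]
    have : 2 ≤ Fintype.card α := by omega
    rw [Nat.sub_sub]
    push_cast [Nat.cast_sub this]
    ring
  set N : ℝ := (Fintype.card α : ℝ) with hN
  have hN4 : (4 : ℝ) ≤ N := by rw [hN]; exact_mod_cast hcard
  have E1 : ∀ a b d, a ≠ b → a ≠ d → b ≠ d →
      (N - 2) • (ω a b - ω a d) = ω b d - ω d b := by
    intro a b d hab had hbd
    have h1 : ∑ a' ∈ (Finset.univ.erase b).erase d, (ω a' b - ω a' d) =
        ∑ a' ∈ (Finset.univ.erase b).erase d, (ω a b - ω a d) := by
      apply Finset.sum_congr rfl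
      intro a' ha'
      simp only [Finset.mem_erase, Finset.mem_univ, and_true] at ha'
      exact (hrel a a' b d hab had ha'.2 ha'.1 hbd).symm
    rw [Finset.sum_const, Finset.sum_sub_distrib, hcol' b d hbd] at h1
    rw [Finset.erase_right_comm, hcol' d b hbd.symm, ← Nat.cast_smul_eq_nsmul ℝ,
      Finset.erase_right_comm, hc2 b d hbd] at h1
    rw [← h1]
    abel
  have E2 : ∀ a b, a ≠ b → ((N - 2) * (N - 1)) • ω a b = ω a b - ω b a := by
    intro a b hab
    have h1 : ∑ d ∈ (Finset.univ.erase a).erase b, (N - 2) • (ω a b - ω a d) =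
        ∑ d ∈ (Finset.univ.erase a).erase b, (ω b d - ω d b) := by
      apply Finset.sum_congr rfl
      intro d hd
      simp only [Finset.mem_erase, Finset.mem_univ, and_true] at hd
      exact E1 a b d hab hd.2.symm hd.1.symm
    rw [← Finset.smul_sum, Finset.sum_sub_distrib, Finset.sum_sub_distrib, Finset.sum_const,
      hrow' a b hab, ← Nat.cast_smul_eq_nsmul ℝ, hc2 a b hab, Finset.erase_right_comm,
      hrow' b a hab.symm, hcol' b a hab.symm] at h1
    have h2 : ((N - 2) * (N - 1)) • ω a b = (N - 2) • ((N - 2) • ω a b - -ω a b) := by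
      module
    rw [h2, h1]
    abel
  have e1 := E2 a b hab
  have e2 := E2 b a hab.symm
  have h3 : ((N - 2) * (N - 1)) • (ω a b + ω b a) = 0 := by
    rw [smul_add, e1, e2]; abel
  have hne : (N - 2) * (N - 1) ≠ 0 := by nlinarith
  have h4 : ω a b + ω b a = 0 := (smul_eq_zero.1 h3).resolve_left hne
  have h5 : ω b a = - ω a b := eq_neg_of_add_eq_zero_right h4
  rw [h5] at e1
  have h6 : ((N - 2) * (N - 1) - 2) • ω a b = 0 := by
    rw [sub_smul, e1]
    module
  have hne' : (N - 2) * (N - 1) - 2 ≠ 0 := by nlinarith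
  exact (smul_eq_zero.1 h6).resolve_left hne'

lemma fixVec_pair_zero (hG : Good ρ W) (h3 : H3 ρ W) (hcard : 7 ≤ Fintype.card α)
    {p q : α} (hpq : p ≠ q) {v : V} (hv : v ∈ W) (hf : FixVec ρ ({p, q}ᶜ) v) : v = 0 := by
  classical
  -- the value of `ρ g v` depends only on `g p` and `g q`
  have hfe : ∀ g : Perm α, sign g = 1 → g p = p → g q = q → ρ g v = v := by
    intro g hg hp hq
    apply hf.even hg
    intro x hx
    simp only [Set.mem_compl_iff, Set.mem_insert_iff, Set.mem_singleton_iff, not_not] at hx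
    rcases hx with rfl | rfl
    · exact hp
    · exact hq
  let ω : α → α → V := fun a b =>
    if h : ∃ g : Perm α, sign g = 1 ∧ g p = a ∧ g q = b then ρ h.choose v else 0
  have hω : ∀ g : Perm α, sign g = 1 → ρ g v = ω (g p) (g q) := by
    intro g hg
    have h : ∃ g' : Perm α, sign g' = 1 ∧ g' p = g p ∧ g' q = g q := ⟨g, hg, rfl, rfl⟩
    have h1 := h.choose_spec
    simp only [ω, dif_pos h]
    set g' := h.choose
    have h2 : ρ (g⁻¹ * g') v = v := by
      apply hfe
      · rw [map_mul, map_inv, hg, h1.1]; rfl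
      · rw [Perm.mul_apply, h1.2.1, inv_app]
      · rw [Perm.mul_apply, h1.2.2, inv_app]
    calc ρ g v = ρ g (ρ (g⁻¹ * g') v) := by rw [h2]
      _ = ρ g' v := by rw [← rho_mul, mul_inv_cancel_left]
  have hex : ∀ a b, a ≠ b → ∃ g : Perm α, sign g = 1 ∧ g p = a ∧ g q = b := by
    intro a b hab
    obtain ⟨g, hg, hm⟩ := exists_even_map_list [p, q] [a, b] (by simp [hpq]) (by simp [hab]) rfl
      (by simp; omega)
    simp only [List.map_cons, List.map_nil, List.cons.injEq, and_true] at hm
    exact ⟨g, hg, hm.1, hm.2⟩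
  have hωW : ∀ a b, a ≠ b → ω a b ∈ W := by
    intro a b hab
    obtain ⟨g, hg, rfl, rfl⟩ := hex a b hab
    rw [← hω g hg]
    exact hG.inv g v hv
  have htr : ∀ h : Perm α, sign h = 1 → ∀ a b, a ≠ b → ρ h (ω a b) = ω (h a) (h b) := by
    intro h hh a b hab
    obtain ⟨g, hg, rfl, rfl⟩ := hex a b hab
    rw [← hω g hg, ← rho_mul, hω (h * g) (by rw [map_mul, hh, hg]; rfl)]
    rfl
  have hmem : ∀ {h : Perm α} {b : α}, h b = b → ∀ a, a ∈ Finset.univ.erase b ↔
      h a ∈ Finset.univ.erase b := by
    intro h b hb a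
    simp only [Finset.mem_erase, Finset.mem_univ, and_true]
    rw [not_iff_not]
    constructor
    · rintro rfl; exact hb
    · intro h'; rw [← hb] at h'; exact h.injective h'
  have hcol : ∀ b, ∑ a ∈ Finset.univ.erase b, ω a b = 0 := by
    intro b
    apply hG.fix b
    · apply Submodule.sum_mem
      intro a ha
      exact hωW a b (by simpa using ha)
    · intro h hh hb
      rw [map_sum]
      have : ∀ a ∈ Finset.univ.erase b, ρ h (ω a b) = ω (h a) b := by
        intro a ha
        rw [htr h hh a b (by simpa using ha), hb]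
      rw [Finset.sum_congr rfl this]
      exact Finset.sum_equiv h (hmem hb) (fun _ _ => rfl)
  have hrow : ∀ a, ∑ b ∈ Finset.univ.erase a, ω a b = 0 := by
    intro a
    apply hG.fix a
    · apply Submodule.sum_mem
      intro b hb
      exact hωW a b (by simpa [eq_comm] using hb)
    · intro h hh ha
      rw [map_sum]
      have : ∀ b ∈ Finset.univ.erase a, ρ h (ω a b) = ω a (h b) := by
        intro b hb
        rw [htr h hh a b (by simpa [eq_comm] using hb), ha]
      rw [Finset.sum_congr rfl this]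
      exact Finset.sum_equiv h (hmem ha) (fun _ _ => rfl)
  -- the relation
  obtain ⟨r, hr⟩ := exists_notMem_list [p, q] (by simp; omega)
  obtain ⟨s, hs⟩ := exists_notMem_list [p, q, r] (by simp; omega)
  obtain ⟨e, he⟩ := exists_notMem_list [p, q, r, s] (by simp; omega)
  obtain ⟨e', he'⟩ := exists_notMem_list [p, q, r, s, e] (by simp; omega)
  simp only [List.mem_cons, List.not_mem_nil, or_false, not_or] at hr hs he he'
  have hqrs : [q, r, s].Nodup := by
    simp only [List.nodup_cons, List.mem_cons, List.not_mem_nil, or_false, not_or,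
      not_false_eq_true, List.nodup_nil, and_true]
    exact ⟨⟨Ne.symm hr.2, Ne.symm hs.2.1⟩, Ne.symm hs.2.2⟩
  set c := c3 q r s with hc
  have hcsign : sign c = 1 := sign_c3 hqrs
  have hcp : c p = p := c3_apply_of_ne hpq (Ne.symm hr.1) (Ne.symm hs.1)
  have hcq : c q = r := c3_apply_left (Ne.symm hr.2) (Ne.symm hs.2.1)
  have hcinvr : c⁻¹ r = q := by rw [← hcq, inv_app]
  have hcinvp : c⁻¹ p = p := by rw [Perm.inv_eq_iff_eq, hcp]
  set v' := v - ρ c v with hv'
  have hF1 : FixVec ρ ({q, r, s}ᶜ) v' := h3 v hv q r s hqrs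
  have hF2 : FixVec ρ ({p, q, r}ᶜ) v' := by
    apply FixVec.sub
    · apply hf.mono
      intro x hx
      simp only [Set.mem_compl_iff, Set.mem_insert_iff, Set.mem_singleton_iff, not_or] at hx ⊢
      exact ⟨hx.1, hx.2.1⟩
    · apply hf.translate
      intro x hx
      simp only [Set.mem_compl_iff, Set.mem_insert_iff, Set.mem_singleton_iff, not_or] at hx ⊢
      constructor
      · intro h; apply hx.1; rw [← hcinvp] at h; exact (c⁻¹).injective h
      · intro h; apply hx.2.2; rw [← hcinvr] at h; exact (c⁻¹).injective h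
  have hF3 : FixVec ρ ({q, r}ᶜ) v' := by
    have := hF1.union (p := e) (q := e') (Ne.symm he'.2.2.2.2) (by
        simp only [Set.mem_compl_iff, Set.mem_insert_iff, Set.mem_singleton_iff, not_or]
        exact ⟨he.2.1, he.2.2.1, he.2.2.2⟩) (by
        simp only [Set.mem_compl_iff, Set.mem_insert_iff, Set.mem_singleton_iff, not_or]
        exact ⟨he'.2.1, he'.2.2.1, he'.2.2.2.1⟩) (by
        simp only [Set.mem_compl_iff, Set.mem_insert_iff, Set.mem_singleton_iff, not_or]
        exact ⟨he.1, he.2.1, he.2.2.1⟩) (by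
        simp only [Set.mem_compl_iff, Set.mem_insert_iff, Set.mem_singleton_iff, not_or]
        exact ⟨he'.1, he'.2.1, he'.2.2.1⟩) hF2
    apply this.mono
    intro x hx
    simp only [Set.mem_compl_iff, Set.mem_insert_iff, Set.mem_singleton_iff, not_or,
      Set.mem_union] at hx ⊢
    by_cases hxp : x = p
    · left
      subst hxp
      exact ⟨hx.1, hx.2, Ne.symm hs.1⟩
    · right
      exact ⟨hxp, hx.1, hx.2⟩
  have hv'fix : ∀ g : Perm α, sign g = 1 → g q = q → g r = r → ρ g v' = v' := by
    intro g hg hq' hr'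
    apply hF3.even hg
    intro x hx
    simp only [Set.mem_compl_iff, Set.mem_insert_iff, Set.mem_singleton_iff, not_not] at hx
    rcases hx with rfl | rfl
    · exact hq'
    · exact hr'
  have hv'ω : ∀ g : Perm α, sign g = 1 → ρ g v' = ω (g p) (g q) - ω (g p) (g r) := by
    intro g hg
    rw [hv', map_sub, hω g hg, ← rho_mul, hω (g * c) (by rw [map_mul, hg, hcsign]; rfl),
      Perm.mul_apply, Perm.mul_apply, hcp, hcq]
  have hrel : ∀ a a' b d, a ≠ b → a ≠ d → a' ≠ b → a' ≠ d → b ≠ d →
      ω a b - ω a d = ω a' b - ω a' d := by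
    intro a a' b d h1 h2 h3 h4 h5
    have hpqr : [p, q, r].Nodup := by
      simp only [List.nodup_cons, List.mem_cons, List.not_mem_nil, or_false, not_or,
        not_false_eq_true, List.nodup_nil, and_true]
      exact ⟨⟨hpq, Ne.symm hr.1⟩, Ne.symm hr.2⟩
    obtain ⟨g, hg, hm⟩ := exists_even_map_list [p, q, r] [a, b, d] hpqr
      (by simp [h1, h2, h5]) rfl (by simp; omega)
    obtain ⟨g', hg', hm'⟩ := exists_even_map_list [p, q, r] [a', b, d] hpqr
      (by simp [h3, h4, h5]) rfl (by simp; omega)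
    simp only [List.map_cons, List.map_nil, List.cons.injEq, and_true] at hm hm'
    have h6 := hv'ω g hg
    have h7 := hv'ω g' hg'
    rw [hm.1, hm.2.1, hm.2.2] at h6
    rw [hm'.1, hm'.2.1, hm'.2.2] at h7
    rw [← h6, ← h7]
    have h8 : ρ (g⁻¹ * g') v' = v' := by
      apply hv'fix
      · rw [map_mul, map_inv, hg, hg']; rfl
      · rw [Perm.mul_apply, hm'.2.1, ← hm.2.1, inv_app]
      · rw [Perm.mul_apply, hm'.2.2, ← hm.2.2, inv_app]
    calc ρ g v' = ρ g (ρ (g⁻¹ * g') v') := by rw [h8]
      _ = ρ g' v' := by rw [← rho_mul, mul_inv_cancel_left]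
  have h0 := omega_zero (by omega) ω hrel hcol hrow p q hpq
  have h1 := hω 1 (by simp)
  rw [map_one, Module.End.one_apply] at h1
  rw [h1]
  exact h0

lemma fixVec_triple_zero (hG : Good ρ W) (h3 : H3 ρ W) (hcard : 7 ≤ Fintype.card α)
    {p q r : α} (hn : [p, q, r].Nodup) {v : V} (hv : v ∈ W) (hf : FixVec ρ ({p, q, r}ᶜ) v) :
    v = 0 := by
  have hpq : p ≠ q := by grind
  have hpr : p ≠ r := by grind
  have hqr : q ≠ r := by grind
  -- `v` is fixed by all `[r x y]`, `x, y ∉ {p, q, r}`
  have key : ∀ x y, [p, q, r, x, y].Nodup → c3 r x y ∈ stab ρ v := by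
    intro x y hxy
    have hrxy : [r, x, y].Nodup := by grind
    have hrx : r ≠ x := by grind
    have hry : r ≠ y := by grind
    have hF1 := h3 v hv r x y hrxy
    have hF2 : FixVec ρ ({p, q, r, x}ᶜ) (v - ρ (c3 r x y) v) := by
      apply FixVec.sub
      · apply hf.mono
        intro z hz
        simp only [Set.mem_compl_iff, Set.mem_insert_iff, Set.mem_singleton_iff, not_or] at hz ⊢
        exact ⟨hz.1, hz.2.1, hz.2.2.1⟩
      · apply hf.translate
        intro z hz
        simp only [Set.mem_compl_iff, Set.mem_insert_iff, Set.mem_singleton_iff, not_or] at hz ⊢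
        have hp : c3 r x y p = p := c3_apply_of_ne hpr (by grind) (by grind)
        have hq : c3 r x y q = q := c3_apply_of_ne hqr (by grind) (by grind)
        have hr : c3 r x y r = x := c3_apply_left hrx hry
        refine ⟨?_, ?_, ?_⟩
        · intro h
          apply hz.1
          rw [← inv_app (c3 r x y) p, hp] at h
          exact (c3 r x y)⁻¹.injective h
        · intro h
          apply hz.2.1
          rw [← inv_app (c3 r x y) q, hq] at h
          exact (c3 r x y)⁻¹.injective h
        · intro h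
          apply hz.2.2.2
          have h' := congrArg (c3 r x y) h
          rw [hr] at h'
          simpa using h'
    obtain ⟨e, he⟩ := exists_notMem_list [p, q, r, x, y] (by simp; omega)
    obtain ⟨e', he'⟩ := exists_notMem_list [p, q, r, x, y, e] (by simp; omega)
    simp only [List.mem_cons, List.not_mem_nil, or_false, not_or] at he he'
    have hF3 : FixVec ρ ({r, x}ᶜ) (v - ρ (c3 r x y) v) := by
      have := hF1.union (p := e) (q := e') (Ne.symm he'.2.2.2.2.2) (by
          simp only [Set.mem_compl_iff, Set.mem_insert_iff, Set.mem_singleton_iff, not_or]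
          exact ⟨he.2.2.1, he.2.2.2.1, he.2.2.2.2⟩) (by
          simp only [Set.mem_compl_iff, Set.mem_insert_iff, Set.mem_singleton_iff, not_or]
          exact ⟨he'.2.2.1, he'.2.2.2.1, he'.2.2.2.2.1⟩) (by
          simp only [Set.mem_compl_iff, Set.mem_insert_iff, Set.mem_singleton_iff, not_or]
          exact ⟨he.1, he.2.1, he.2.2.1, he.2.2.2.1⟩) (by
          simp only [Set.mem_compl_iff, Set.mem_insert_iff, Set.mem_singleton_iff, not_or]
          exact ⟨he'.1, he'.2.1, he'.2.2.1, he'.2.2.2.1⟩) hF2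
      apply this.mono
      intro z hz
      simp only [Set.mem_compl_iff, Set.mem_insert_iff, Set.mem_singleton_iff, not_or,
        Set.mem_union] at hz ⊢
      by_cases hzp : z = p
      · left
        subst hzp
        exact ⟨hz.1, hz.2, by grind⟩
      by_cases hzq : z = q
      · left
        subst hzq
        exact ⟨hz.1, hz.2, by grind⟩
      · right
        exact ⟨hzp, hzq, hz.1, hz.2⟩
    have h0 := fixVec_pair_zero hG h3 hcard hrx (W.sub_mem hv (hG.inv _ v hv)) hF3
    rw [mem_stab]
    exact (sub_eq_zero.1 h0).symm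
  -- hence by all three-cycles off `{p, q}`
  obtain ⟨x, hx⟩ := exists_notMem_list [p, q, r] (by simp; omega)
  obtain ⟨y, hy⟩ := exists_notMem_list [p, q, r, x] (by simp; omega)
  simp only [List.mem_cons, List.not_mem_nil, or_false, not_or] at hx hy
  apply fixVec_pair_zero hG h3 hcard hpq hv
  have hF4 : FixVec ρ ({r, x, y} : Set α) v := by
    have hxy := key x y (by grind)
    have hrx : r ≠ x := by grind
    have hry : r ≠ y := by grind
    have hxy' : x ≠ y := by grind
    intro a b c ha hb hc hn'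
    simp only [Set.mem_insert_iff, Set.mem_singleton_iff] at ha hb hc
    have hinv : c3 r y x ∈ stab ρ v := by
      rw [← c3_inv hrx hry hxy']
      exact Subgroup.inv_mem _ hxy
    have e1 : c3 x y r ∈ stab ρ v := by rw [← c3_rot hrx hry hxy']; exact hxy
    have e2 : c3 y r x ∈ stab ρ v := by
      rw [← c3_rot hxy' hrx.symm hry.symm]; exact e1
    have e3 : c3 y x r ∈ stab ρ v := by rw [← c3_rot hry hrx hxy'.symm]; exact hinv
    have e4 : c3 x r y ∈ stab ρ v := by
      rw [← c3_rot hxy'.symm hry.symm hrx.symm]; exact e3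
    rcases ha with rfl | rfl | rfl <;> rcases hb with rfl | rfl | rfl <;>
      rcases hc with rfl | rfl | rfl <;> first | assumption | (exfalso; grind)
  have := hf.union (p := x) (q := y) (by grind) (by
      simp only [Set.mem_compl_iff, Set.mem_insert_iff, Set.mem_singleton_iff, not_or]
      exact hx) (by
      simp only [Set.mem_compl_iff, Set.mem_insert_iff, Set.mem_singleton_iff, not_or]
      exact ⟨hy.1, hy.2.1, hy.2.2.1⟩) (by simp) (by simp) hF4
  apply this.mono
  intro z hz
  simp only [Set.mem_compl_iff, Set.mem_insert_iff, Set.mem_singleton_iff, not_or,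
    Set.mem_union] at hz ⊢
  by_cases hzr : z = r
  · right; left; exact hzr
  · left; exact ⟨hz.1, hz.2, hzr⟩

/-- Under the three-cycle condition a good representation is zero. -/
lemma good_H3_zero (hG : Good ρ W) (h3 : H3 ρ W) (hcard : 7 ≤ Fintype.card α) {v : V}
    (hv : v ∈ W) : v = 0 := by
  have key : ∀ x y z, [x, y, z].Nodup → c3 x y z ∈ stab ρ v := by
    intro x y z hn
    have h0 := fixVec_triple_zero hG h3 hcard hn (W.sub_mem hv (hG.inv _ v hv))
      (h3 v hv x y z hn)
    rw [mem_stab]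
    exact (sub_eq_zero.1 h0).symm
  obtain ⟨z, -⟩ := exists_notMem_list ([] : List α) (by simp; omega)
  apply hG.fix z v hv
  intro h hh _
  have hF : FixVec ρ Set.univ v := fun a b c _ _ _ hn => key a b c hn
  exact hF.even hh (fun x hx => absurd (Set.mem_univ x) hx)

/-- `dt a b c d = (a b)(c d)`. -/
def dt (a b c d : α) : Perm α := swap a b * swap c d

lemma dt_conj (g : Perm α) (a b c d : α) :
    g * dt a b c d * g⁻¹ = dt (g a) (g b) (g c) (g d) := by
  unfold dt
  rw [Equiv.swap_apply_apply, Equiv.swap_apply_apply]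
  group

/-- The eight point condition. -/
def H8 (ρ : Perm α →* (V →ₗ[ℝ] V)) (W : Submodule ℝ V) (a b c d a' b' c' d' : α) : Prop :=
  ∀ w ∈ W, (w - ρ (dt a' b' c' d') w) - ρ (dt a b c d) (w - ρ (dt a' b' c' d') w) = 0

lemma H8.transfer (hG : Good ρ W) {a b c d a' b' c' d' : α} (h : H8 ρ W a b c d a' b' c' d')
    (g : Perm α) : H8 ρ W (g a) (g b) (g c) (g d) (g a') (g b') (g c') (g d') := by
  intro w hw
  have h1 := h (ρ g⁻¹ w) (hG.inv _ w hw)
  have h2 := congrArg (ρ g) h1
  rw [← dt_conj, ← dt_conj]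
  rw [map_zero, map_sub, map_sub, map_sub, map_sub] at h2
  simp only [← rho_mul, mul_inv_cancel, map_one, Module.End.one_apply] at h2
  have e1 : g * dt a b c d * g⁻¹ * (g * dt a' b' c' d' * g⁻¹) =
      g * (dt a b c d * (dt a' b' c' d' * g⁻¹)) := by group
  have e2 : g * dt a b c d * g⁻¹ = g * (dt a b c d * g⁻¹) := by group
  have e3 : g * dt a' b' c' d' * g⁻¹ = g * (dt a' b' c' d' * g⁻¹) := by group
  simp only [map_sub, ← rho_mul]
  rw [e1, e2, e3]
  exact h2

lemma H8.any (hG : Good ρ W) {a b c d a' b' c' d' : α} (h : H8 ρ W a b c d a' b' c' d')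
    (hn : [a, b, c, d, a', b', c', d'].Nodup) (x1 x2 x3 x4 y1 y2 y3 y4 : α)
    (hn' : [x1, x2, x3, x4, y1, y2, y3, y4].Nodup) : H8 ρ W x1 x2 x3 x4 y1 y2 y3 y4 := by
  obtain ⟨g, hg⟩ := exists_map_list _ _ hn hn' rfl
  simp only [List.map_cons, List.map_nil, List.cons.injEq, and_true] at hg
  obtain ⟨rfl, rfl, rfl, rfl, rfl, rfl, rfl, rfl⟩ := hg
  exact h.transfer hG g

lemma dt_commute {a b c d a' b' c' d' : α} (hn : [a, b, c, d, a', b', c', d'].Nodup) :
    dt a b c d * dt a' b' c' d' = dt a' b' c' d' * dt a b c d := by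
  have h := dt_conj (dt a' b' c' d') a b c d
  have e : ∀ x, x ≠ a' → x ≠ b' → x ≠ c' → x ≠ d' → dt a' b' c' d' x = x := by
    intro x h1 h2 h3 h4
    rw [dt, Perm.mul_apply, swap_apply_of_ne_of_ne h3 h4, swap_apply_of_ne_of_ne h1 h2]
  rw [e a (by (simp only [List.nodup_cons, List.mem_cons, List.not_mem_nil, or_false, not_or, not_false_eq_true, List.nodup_nil, and_true, ne_eq] at hn ⊢; grind)) (by (simp only [List.nodup_cons, List.mem_cons, List.not_mem_nil, or_false, not_or, not_false_eq_true, List.nodup_nil, and_true, ne_eq] at hn ⊢; grind)) (by (simp only [List.nodup_cons, List.mem_cons, List.not_mem_nil, or_false, not_or, not_false_eq_true, List.nodup_nil, and_true, ne_eq] at hn ⊢; grind)) (by (simp only [List.nodup_cons, List.mem_cons, List.not_mem_nil, or_false, not_or, not_false_eq_true, List.nodup_nil, and_true, ne_eq] at hn ⊢; grind)), e b (by (simp only [List.nodup_cons, List.mem_cons, List.not_mem_nil, or_false, not_or, not_false_eq_true, List.nodup_nil, and_true, ne_eq] at hn ⊢;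 grind)) (by (simp only [List.nodup_cons, List.mem_cons, List.not_mem_nil, or_false, not_or, not_false_eq_true, List.nodup_nil, and_true, ne_eq] at hn ⊢; grind)) (by (simp only [List.nodup_cons, List.mem_cons, List.not_mem_nil, or_false, not_or, not_false_eq_true, List.nodup_nil, and_true, ne_eq] at hn ⊢; grind))
    (by (simp only [List.nodup_cons, List.mem_cons, List.not_mem_nil, or_false, not_or, not_false_eq_true, List.nodup_nil, and_true, ne_eq] at hn ⊢; grind)), e c (by (simp only [List.nodup_cons, List.mem_cons, List.not_mem_nil, or_false, not_or, not_false_eq_true, List.nodup_nil, and_true, ne_eq] at hn ⊢; grind)) (by (simp only [List.nodup_cons, List.mem_cons, List.not_mem_nil, or_false, not_or, not_false_eq_true, List.nodup_nil, and_true, ne_eq] at hn ⊢; grind)) (by (simp only [List.nodup_cons, List.mem_cons, List.not_mem_nil, or_false, not_or, not_false_eq_true, List.nodup_nil, and_true, ne_eq] at hn ⊢; grind)) (by (simp only [List.nodup_cons, List.mem_cons, List.not_mem_nil, or_false,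 not_or, not_false_eq_true, List.nodup_nil, and_true, ne_eq] at hn ⊢; grind)), e d (by (simp only [List.nodup_cons, List.mem_cons, List.not_mem_nil, or_false, not_or, not_false_eq_true, List.nodup_nil, and_true, ne_eq] at hn ⊢; grind)) (by (simp only [List.nodup_cons, List.mem_cons, List.not_mem_nil, or_false, not_or, not_false_eq_true, List.nodup_nil, and_true, ne_eq] at hn ⊢; grind))
    (by (simp only [List.nodup_cons, List.mem_cons, List.not_mem_nil, or_false, not_or, not_false_eq_true, List.nodup_nil, and_true, ne_eq] at hn ⊢; grind)) (by (simp only [List.nodup_cons, List.mem_cons, List.not_mem_nil, or_false, not_or, not_false_eq_true, List.nodup_nil, and_true, ne_eq] at hn ⊢; grind))] at h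
  rw [mul_inv_eq_iff_eq_mul] at h
  exact h.symm

/-- The eight point condition implies the three-cycle condition. -/
lemma H3_of_H8 (hG : Good ρ W) (hcard : 10 ≤ Fintype.card α)
    {a b c d a' b' c' d' : α} (h : H8 ρ W a b c d a' b' c' d')
    (hn : [a, b, c, d, a', b', c', d'].Nodup) : H3 ρ W := by
  intro w hw x y z hxyz x' y' z' hx' hy' hz' hxyz'
  simp only [Set.mem_compl_iff, Set.mem_insert_iff, Set.mem_singleton_iff, not_or] at hx' hy' hz'
  obtain ⟨p, hp⟩ := exists_notMem_list [x, y, z, x', y', z'] (by simp; omega)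
  obtain ⟨q, hq⟩ := exists_notMem_list [x, y, z, x', y', z', p] (by simp; omega)
  obtain ⟨p', hp'⟩ := exists_notMem_list [x, y, z, x', y', z', p, q] (by simp; omega)
  obtain ⟨q', hq'⟩ := exists_notMem_list [x, y, z, x', y', z', p, q, p'] (by simp; omega)
  simp only [List.mem_cons, List.not_mem_nil, or_false, not_or] at hp hq hp' hq'
  have hc : c3 x y z = dt x y p q * dt p q y z := by
    unfold c3 dt
    rw [show swap x y * swap p q * (swap p q * swap y z) =
      swap x y * (swap p q * swap p q) * swap y z by group, swap_mul_self, mul_one]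
  have hc' : c3 x' y' z' = dt x' y' p' q' * dt p' q' y' z' := by
    unfold c3 dt
    rw [show swap x' y' * swap p' q' * (swap p' q' * swap y' z') =
      swap x' y' * (swap p' q' * swap p' q') * swap y' z' by group, swap_mul_self, mul_one]
  have hx12 := hxyz
  have hx34 := hxyz'
  simp only [List.nodup_cons, List.mem_cons, List.not_mem_nil, or_false, not_or,
      not_false_eq_true, List.nodup_nil, and_true] at hx12 hx34
  have n11 : [x, y, p, q, x', y', p', q'].Nodup := by
    simp only [List.nodup_cons, List.mem_cons, List.not_mem_nil, or_false, not_or,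
      not_false_eq_true, List.nodup_nil, and_true]
    clear hn hxyz hxyz' h
    grind
  have n12 : [x, y, p, q, p', q', y', z'].Nodup := by
    simp only [List.nodup_cons, List.mem_cons, List.not_mem_nil, or_false, not_or,
      not_false_eq_true, List.nodup_nil, and_true]
    clear hn hxyz hxyz' h n11
    grind
  have n21 : [p, q, y, z, x', y', p', q'].Nodup := by
    simp only [List.nodup_cons, List.mem_cons, List.not_mem_nil, or_false, not_or,
      not_false_eq_true, List.nodup_nil, and_true]
    clear hn hxyz hxyz' h n11 n12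
    grind
  have n22 : [p, q, y, z, p', q', y', z'].Nodup := by
    simp only [List.nodup_cons, List.mem_cons, List.not_mem_nil, or_false, not_or,
      not_false_eq_true, List.nodup_nil, and_true]
    clear hn hxyz hxyz' h n11 n12 n21
    grind
  have k11 := h.any hG hn _ _ _ _ _ _ _ _ n11
  have k12 := h.any hG hn _ _ _ _ _ _ _ _ n12
  have k21 := h.any hG hn _ _ _ _ _ _ _ _ n21
  have k22 := h.any hG hn _ _ _ _ _ _ _ _ n22
  have c11 := dt_commute n11
  have c21 := dt_commute n21
  set t1 := dt x y p q with ht1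
  set t2 := dt p q y z with ht2
  set s1 := dt x' y' p' q' with hs1
  set s2 := dt p' q' y' z' with hs2
  -- work with commuting statements: all `(1 - t_i)(1 - s_j) = 0` on `W`
  have K : ∀ (t s : Perm α), (∀ w ∈ W, (w - ρ s w) - ρ t (w - ρ s w) = 0) →
      ∀ w ∈ W, ρ t (w - ρ s w) = w - ρ s w := by
    intro t s hts w hw
    exact (sub_eq_zero.1 (hts w hw)).symm
  have K11 := K t1 s1 k11
  have K12 := K t1 s2 k12
  have K21 := K t2 s1 k21
  have K22 := K t2 s2 k22
  rw [mem_stab, hc, hc']
  -- `ρ (s1 s2) u - u` is fixed by `t1` and `t2` for every `u ∈ W`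
  have L : ∀ u ∈ W, u - ρ (s1 * s2) u = (u - ρ s1 u) + ρ s1 (u - ρ s2 u) := by
    intro u _
    rw [map_sub, ← rho_mul]
    abel
  have M : ∀ t : Perm α, (∀ w ∈ W, ρ t (w - ρ s1 w) = w - ρ s1 w) →
      (∀ w ∈ W, ρ t (w - ρ s2 w) = w - ρ s2 w) → t * s1 = s1 * t →
      ∀ u ∈ W, ρ t (u - ρ (s1 * s2) u) = u - ρ (s1 * s2) u := by
    intro t h1 h2 hcom u hu
    rw [L u hu, map_add, h1 u hu, ← rho_mul, hcom, rho_mul, h2 u hu]
  have M1 := M t1 K11 K12 c11
  have M2 := M t2 K21 K22 c21
  have hcc : ρ (s1 * s2) (w - ρ (t1 * t2) w) = w - ρ (t1 * t2) w := by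
    have e1 : ρ (t1 * t2) (w - ρ (s1 * s2) w) = w - ρ (s1 * s2) w := by
      rw [rho_mul, M2 w hw, M1 w hw]
    have hcom : (t1 * t2) * (s1 * s2) = (s1 * s2) * (t1 * t2) := by
      rw [← hc, ← hc']
      have hconj := c3_conj (c3 x' y' z') x y z
      rw [c3_apply_of_ne (Ne.symm hx'.1) (Ne.symm hy'.1) (Ne.symm hz'.1),
        c3_apply_of_ne (Ne.symm hx'.2.1) (Ne.symm hy'.2.1) (Ne.symm hz'.2.1),
        c3_apply_of_ne (Ne.symm hx'.2.2) (Ne.symm hy'.2.2) (Ne.symm hz'.2.2),
        mul_inv_eq_iff_eq_mul] at hconj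
      exact hconj.symm
    have e2 : ρ (s1 * s2) (w - ρ (t1 * t2) w) =
        ρ (s1 * s2) w - ρ (t1 * t2) (ρ (s1 * s2) w) := by
      rw [map_sub, ← rho_mul, ← rho_mul, hcom]
    rw [map_sub] at e1
    have : ρ (t1 * t2) (ρ (s1 * s2) w) = ρ (t1 * t2) w - w + ρ (s1 * s2) w := by
      rw [sub_eq_iff_eq_add] at e1
      rw [e1]; abel
    rw [e2, this]; abel
  exact hcc

/-- There is a nonzero vector on which both double transpositions act as `-1`. -/
lemma exists_neg_neg (hG : Good ρ W) (hcard : 10 ≤ Fintype.card α) {v : V} (hv : v ∈ W)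
    (hv0 : v ≠ 0) {a b c d a' b' c' d' : α} (hn : [a, b, c, d, a', b', c', d'].Nodup) :
    ∃ w ∈ W, w ≠ 0 ∧ ρ (dt a b c d) w = -w ∧ ρ (dt a' b' c' d') w = -w := by
  by_contra hcon
  push Not at hcon
  have sq : ∀ a b c d : α, [a, b, c, d].Nodup → dt a b c d * dt a b c d = 1 := by
    intro a b c d h
    have h1 : swap c d * swap a b = swap a b * swap c d := by
      have := (disjoint_swap_swap (x := a) (y := b) (z := c) (t := d) h).commute
      exact this.eq.symm
    unfold dt
    rw [mul_assoc, ← mul_assoc (swap c d), h1, mul_assoc (swap a b), swap_mul_self, mul_one,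
      swap_mul_self]
  have h8 : H8 ρ W a b c d a' b' c' d' := by
    intro w hw
    by_contra hne
    set u := (w - ρ (dt a' b' c' d') w) - ρ (dt a b c d) (w - ρ (dt a' b' c' d') w) with hu
    have huW : u ∈ W := W.sub_mem (W.sub_mem hw (hG.inv _ _ hw))
      (hG.inv _ _ (W.sub_mem hw (hG.inv _ _ hw)))
    have e1 : ρ (dt a b c d) u = -u := by
      rw [hu]
      simp only [map_sub, ← rho_mul]
      rw [← mul_assoc, sq a b c d (by (simp only [List.nodup_cons, List.mem_cons, List.not_mem_nil, or_false, not_or, not_false_eq_true, List.nodup_nil, and_true, ne_eq] at hn ⊢; grind)), one_mul]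
      simp only [map_one, Module.End.one_apply]
      abel
    have e2 : ρ (dt a' b' c' d') u = -u := by
      rw [hu]
      simp only [map_sub, ← rho_mul]
      rw [← mul_assoc, ← dt_commute hn, mul_assoc, sq a' b' c' d' (by (simp only [List.nodup_cons, List.mem_cons, List.not_mem_nil, or_false, not_or, not_false_eq_true, List.nodup_nil, and_true, ne_eq] at hn ⊢; grind)), mul_one]
      simp only [map_one, Module.End.one_apply]
      abel
    exact hcon u huW hne e1 e2
  exact hv0 (good_H3_zero hG (H3_of_H8 hG hcard h8 hn) (by omega) hv)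

end StepOne

end Pool.Agent.Helper75.Ekr
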