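import Mathlib

/-!
Three-cycles `c3 a b c : a ↦ b ↦ c ↦ a` and generation of alternating groups of subsets.
-/

namespace Pool.Agent.Helper75.Ekr

open Equiv Equiv.Perm

variable {α : Type} [DecidableEq α]

/-- The permutation `a ↦ b ↦ c ↦ a` (for distinct `a b c`). -/
def c3 (a b c : α) : Perm α := swap a b * swap b c

lemma c3_apply_left {a b c : α} (hab : a ≠ b) (hac : a ≠ c) : c3 a b c a = b := by
  simp [c3, swap_apply_of_ne_of_ne hab hac]

lemma c3_apply_mid {a b c : α} (hac : a ≠ c) (hbc : b ≠ c) : c3 a b c b = c := by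
  simp [c3, swap_apply_of_ne_of_ne hac.symm hbc.symm]

lemma c3_apply_right {a b c : α} : c3 a b c c = a := by
  simp [c3]

lemma c3_apply_of_ne {a b c x : α} (h1 : x ≠ a) (h2 : x ≠ b) (h3 : x ≠ c) : c3 a b c x = x := by
  simp [c3, swap_apply_of_ne_of_ne h2 h3, swap_apply_of_ne_of_ne h1 h2]

lemma c3_rot {a b c : α} (hab : a ≠ b) (hac : a ≠ c) (hbc : b ≠ c) : c3 a b c = c3 b c a := by
  ext x
  by_cases h1 : x = a
  · subst h1; rw [c3_apply_left hab hac, c3_apply_right]
  by_cases h2 : x = b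
  · subst h2; rw [c3_apply_mid hac hbc, c3_apply_left hbc hab.symm]
  by_cases h3 : x = c
  · subst h3; rw [c3_apply_right, c3_apply_mid hab.symm hac.symm]
  rw [c3_apply_of_ne h1 h2 h3, c3_apply_of_ne h2 h3 h1]

lemma c3_inv {a b c : α} (hab : a ≠ b) (hac : a ≠ c) (hbc : b ≠ c) :
    (c3 a b c)⁻¹ = c3 a c b := by
  rw [inv_eq_iff_mul_eq_one]
  ext x
  rw [Perm.mul_apply, Perm.one_apply]
  by_cases h1 : x = a
  · subst h1; rw [c3_apply_left hac hab, c3_apply_right]
  by_cases h2 : x = b
  · subst h2; rw [c3_apply_right, c3_apply_left hab hac]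
  by_cases h3 : x = c
  · subst h3; rw [c3_apply_mid hab hbc.symm, c3_apply_mid hac hbc]
  rw [c3_apply_of_ne h1 h3 h2, c3_apply_of_ne h1 h2 h3]

/-- `[p q x] [p q y]⁻¹ = [p y x]`. -/
lemma c3_rel1 {p q x y : α} (h : [p, q, x, y].Nodup) :
    c3 p q x * (c3 p q y)⁻¹ = c3 p y x := by
  have h1 : p ≠ q := by grind
  have h2 : p ≠ x := by grind
  have h3 : p ≠ y := by grind
  have h4 : q ≠ x := by grind
  have h5 : q ≠ y := by grind
  have h6 : x ≠ y := by grind
  rw [c3_inv h1 h3 h5]
  ext z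
  rw [Perm.mul_apply]
  by_cases z1 : z = p
  · subst z1
    rw [c3_apply_left h3 h1, c3_apply_of_ne h3.symm h5.symm h6.symm, c3_apply_left h3 h2]
  by_cases z2 : z = q
  · subst z2
    rw [c3_apply_right, c3_apply_left h1 h2, c3_apply_of_ne h1.symm h5 h4]
  by_cases z3 : z = x
  · subst z3
    rw [c3_apply_of_ne z1 h6 z2, c3_apply_right, c3_apply_right]
  by_cases z4 : z = y
  · subst z4
    rw [c3_apply_mid h1 h5.symm, c3_apply_mid h2 h4, c3_apply_mid h2 h6.symm]
  rw [c3_apply_of_ne z1 z4 z2, c3_apply_of_ne z1 z2 z3, c3_apply_of_ne z1 z4 z3]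

/-- `[p q y]⁻¹ [p q x] = [q x y]`. -/
lemma c3_rel2 {p q x y : α} (h : [p, q, x, y].Nodup) :
    (c3 p q y)⁻¹ * c3 p q x = c3 q x y := by
  have h1 : p ≠ q := by grind
  have h2 : p ≠ x := by grind
  have h3 : p ≠ y := by grind
  have h4 : q ≠ x := by grind
  have h5 : q ≠ y := by grind
  have h6 : x ≠ y := by grind
  rw [c3_inv h1 h3 h5]
  ext z
  rw [Perm.mul_apply]
  by_cases z1 : z = p
  · subst z1
    rw [c3_apply_left h1 h2, c3_apply_right, c3_apply_of_ne h1 h2 h3]
  by_cases z2 : z = q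
  · subst z2
    rw [c3_apply_mid h2 h4, c3_apply_of_ne h2.symm h6 h4.symm, c3_apply_left h4 h5]
  by_cases z3 : z = x
  · subst z3
    rw [c3_apply_right, c3_apply_left h3 h1, c3_apply_mid h5 h6]
  by_cases z4 : z = y
  · subst z4
    rw [c3_apply_of_ne h3.symm h5.symm h6.symm, c3_apply_mid h1 h5.symm, c3_apply_right]
  rw [c3_apply_of_ne z1 z2 z3, c3_apply_of_ne z1 z4 z2, c3_apply_of_ne z2 z3 z4]

lemma c3_conj (g : Perm α) (a b c : α) : g * c3 a b c * g⁻¹ = c3 (g a) (g b) (g c) := by
  unfold c3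
  rw [Equiv.swap_apply_apply, Equiv.swap_apply_apply]
  group

/-- If a subgroup contains all `[p q x]`, `x ∈ R`, then it contains all three-cycles on
`R ∪ {p, q}`. -/
lemma c3_mem_of_base (K : Subgroup (Perm α)) (R : Set α) {p q : α} (hpq : p ≠ q)
    (hp : p ∈ R) (_hq : q ∈ R)
    (hK : ∀ x ∈ R, x ≠ p → x ≠ q → c3 p q x ∈ K) :
    ∀ a b c, a ∈ R → b ∈ R → c ∈ R → [a, b, c].Nodup → c3 a b c ∈ K := by
  have claim1 : ∀ a b, a ∈ R → b ∈ R → [p, a, b].Nodup → c3 p a b ∈ K := by
    intro a b ha hb h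
    have hpa : p ≠ a := by grind
    have hpb : p ≠ b := by grind
    have hab : a ≠ b := by grind
    by_cases h1 : a = q
    · subst h1; exact hK b hb hpb.symm hab.symm
    by_cases h2 : b = q
    · subst h2
      rw [← c3_inv hpq hpa (Ne.symm h1)]
      exact K.inv_mem (hK a ha hpa.symm h1)
    have hn : [p, q, b, a].Nodup := by grind
    rw [← c3_rel1 hn]
    exact K.mul_mem (hK b hb hpb.symm h2) (K.inv_mem (hK a ha hpa.symm h1))
  intro a b c ha hb hc h
  have hab : a ≠ b := by grind
  have hac : a ≠ c := by grind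
  have hbc : b ≠ c := by grind
  by_cases h1 : a = p
  · subst h1; exact claim1 b c hb hc h
  by_cases h2 : b = p
  · subst h2
    rw [c3_rot hab hac hbc]
    exact claim1 c a hc ha (by grind)
  by_cases h3 : c = p
  · subst h3
    rw [c3_rot hab hac hbc, c3_rot hbc hab.symm hac.symm]
    exact claim1 a b ha hb (by grind)
  have hn : [p, a, b, c].Nodup := by grind
  rw [← c3_rel2 hn]
  exact K.mul_mem (K.inv_mem (claim1 a c ha hc (by grind))) (claim1 a b ha hb (by grind))

/-- Union of two sets sharing two points. -/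
lemma c3_mem_union (K : Subgroup (Perm α)) (S T : Set α) {p q : α} (hpq : p ≠ q)
    (hpS : p ∈ S) (hqS : q ∈ S) (hpT : p ∈ T) (hqT : q ∈ T)
    (hS : ∀ a b c, a ∈ S → b ∈ S → c ∈ S → [a, b, c].Nodup → c3 a b c ∈ K)
    (hT : ∀ a b c, a ∈ T → b ∈ T → c ∈ T → [a, b, c].Nodup → c3 a b c ∈ K) :
    ∀ a b c, a ∈ S ∪ T → b ∈ S ∪ T → c ∈ S ∪ T → [a, b, c].Nodup → c3 a b c ∈ K := by
  refine c3_mem_of_base K (S ∪ T) hpq (Or.inl hpS) (Or.inl hqS) ?_
  rintro x (hx | hx) h1 h2
  · exact hS p q x hpS hqS hx (by grind)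
  · exact hT p q x hpT hqT hx (by grind)

variable [Fintype α]

lemma sign_c3 {a b c : α} (h : [a, b, c].Nodup) : sign (c3 a b c) = 1 := by
  have hab : a ≠ b := by grind
  have hbc : b ≠ c := by grind
  simp [c3, sign_swap hab, sign_swap hbc]

lemma isThreeCycle_eq_c3 {g : Perm α} (hg : g.IsThreeCycle) :
    ∃ a b c, [a, b, c].Nodup ∧ g = c3 a b c ∧ a ∈ g.support ∧ b ∈ g.support ∧ c ∈ g.support := by
  obtain ⟨a, ha⟩ := hg.isCycle.nonempty_support
  refine ⟨a, g a, g (g a), hg.nodup_iff_mem_support.2 ha,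
    (hg.eq_swap_mul_swap_iff_mem_support.2 ha), ha, ?_, ?_⟩
  · rwa [Perm.apply_mem_support]
  · rwa [Perm.apply_mem_support, Perm.apply_mem_support]

/-- Even permutations supported on `S` lie in any subgroup containing the three-cycles on `S`. -/
lemma even_mem_of_c3 (K : Subgroup (Perm α)) (S : Set α) [DecidablePred (· ∈ S)]
    (hS : ∀ a b c, a ∈ S → b ∈ S → c ∈ S → [a, b, c].Nodup → c3 a b c ∈ K)
    (g : Perm α) (hg : sign g = 1) (hs : ∀ x, x ∉ S → g x = x) : g ∈ K := by
  have hmaps : ∀ x, x ∈ S ↔ g x ∈ S := by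
    intro x
    constructor
    · intro hx
      by_contra hgx
      have := hs _ hgx
      have := g.injective this
      rw [this] at hgx
      exact hgx hx
    · intro hx
      by_contra hx'
      rw [hs x hx'] at hx
      exact hx' hx
  set g' : Perm S := g.subtypePerm (fun x => (hmaps x).symm) with hg'
  have hof : ofSubtype g' = g := by
    apply ofSubtype_subtypePerm
    intro x hx
    by_contra h
    exact hx (hs x h)
  have hsg : g' ∈ alternatingGroup S := by
    rw [mem_alternatingGroup, ← sign_ofSubtype, hof, hg]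
  rw [← closure_three_cycles_eq_alternating] at hsg
  have key : ∀ τ ∈ Subgroup.closure {σ : Perm S | IsThreeCycle σ}, ofSubtype τ ∈ K := by
    intro τ hτ
    induction hτ using Subgroup.closure_induction with
    | mem σ hσ =>
      obtain ⟨a, b, c, hn, rfl, -⟩ := isThreeCycle_eq_c3 hσ
      have : ofSubtype (c3 a b c) = c3 (a : α) b c := by
        unfold c3
        rw [map_mul, ofSubtype_swap_eq, ofSubtype_swap_eq]
      rw [this]
      refine hS _ _ _ a.2 b.2 c.2 ?_
      have : [(a : α), (b : α), (c : α)] = [a, b, c].map Subtype.val := rfl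
      rw [this]
      exact hn.map Subtype.val_injective
    | one => simp
    | mul σ τ _ _ h1 h2 => rw [map_mul]; exact K.mul_mem h1 h2
    | inv σ _ h => rw [map_inv]; exact K.inv_mem h
  have := key g' hsg
  rwa [hof] at this

/-- Even permutations extending an injective family missing at least two points. -/
lemma exists_even_extend {ι : Type} [Finite ι] (x y : ι → α) (hx : Function.Injective x)
    (hy : Function.Injective y) {u v : α} (huv : u ≠ v) (hu : ∀ i, x i ≠ u) (hv : ∀ i, x i ≠ v) :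
    ∃ σ : Perm α, sign σ = 1 ∧ ∀ i, σ (x i) = y i := by
  obtain ⟨σ, hσ⟩ := Equiv.Perm.exists_extending_pair x y hx hy
  rcases Int.units_eq_one_or (Equiv.Perm.sign σ) with h | h
  · exact ⟨σ, h, hσ⟩
  · refine ⟨σ * swap u v, by simp [h, sign_swap huv], fun i => ?_⟩
    rw [Perm.mul_apply, swap_apply_of_ne_of_ne (hu i) (hv i), hσ]

/-- Permutations mapping one duplicate-free list to another. -/
lemma exists_map_list (l l' : List α) (hl : l.Nodup) (hl' : l'.Nodup)
    (h : l.length = l'.length) : ∃ g : Perm α, l.map g = l' := by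
  obtain ⟨σ, hσ⟩ := Equiv.Perm.exists_extending_pair (fun i : Fin l.length => l.get i)
    (fun i : Fin l.length => l'.get (i.cast h)) (List.nodup_iff_injective_get.1 hl)
    ((List.nodup_iff_injective_get.1 hl').comp (Fin.cast_injective h))
  refine ⟨σ, List.ext_get (by simpa using h) fun n h1 h2 => ?_⟩
  have h3 : n < l.length := by simpa using h1
  have := hσ ⟨n, h3⟩
  simpa using this

/-- Even version. -/
lemma exists_even_map_list (l l' : List α) (hl : l.Nodup) (hl' : l'.Nodup)
    (h : l.length = l'.length) (hc : l.length + 2 ≤ Fintype.card α) :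
    ∃ g : Perm α, sign g = 1 ∧ l.map g = l' := by
  obtain ⟨g, hg⟩ := exists_map_list l l' hl hl' h
  rcases Int.units_eq_one_or (Equiv.Perm.sign g) with hs | hs
  · exact ⟨g, hs, hg⟩
  · have hcard : 1 < (l.toFinset)ᶜ.card := by
      rw [Finset.card_compl]
      have := List.toFinset_card_le l
      omega
    obtain ⟨u, v, hu, hv, huv⟩ := Finset.one_lt_card_iff.1 hcard
    rw [Finset.mem_compl, List.mem_toFinset] at hu hv
    refine ⟨g * swap u v, by simp [hs, sign_swap huv], ?_⟩
    rw [← hg]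
    apply List.map_congr_left
    intro a ha
    have h1 : a ≠ u := fun h => hu (h ▸ ha)
    have h2 : a ≠ v := fun h => hv (h ▸ ha)
    rw [Perm.mul_apply, swap_apply_of_ne_of_ne h1 h2]

/-- A point outside a short list. -/
lemma exists_notMem_list (l : List α) (hc : l.length < Fintype.card α) : ∃ a, a ∉ l := by
  by_contra h
  push Not at h
  have : Finset.univ ⊆ l.toFinset := fun a _ => by simpa using h a
  have := Finset.card_le_card this
  rw [Finset.card_univ] at this
  have := List.toFinset_card_le l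
  omega

end Pool.Agent.Helper75.Ekr
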